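import Pool.Agent.ANO5.Lin.TorFacts

/-!
# ANO5, module Lin: points with close futures have the same torus function
-/

set_option autoImplicit false

open scoped UpperHalfPlane MatrixGroups
open Set Filter Topology

namespace Pool.Agent.ANO5.Lin

open Pool.Agent.ANO3 Pool.Agent.ANO5.A1 Pool.Agent.ANO5.A2 Pool.Agent.ANO5.A3 Pool.Agent.ANO5.Tor

theorem th_future {E : Type*} [NormedAddCommGroup E] [NormedSpace ℝ E] [CompleteSpace E]
    {L : E →L[ℝ] E} {Y : Type*} {ζ : Y → E} {R : Y → Y} (s : Split L) {C : ℝ}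
    (h : ∀ y, ‖ζ (R y) - L (ζ y)‖ ≤ C) {y y' : Y} {C' : ℝ}
    (h' : ∀ n : ℕ, ‖ζ (R^[n] y) - ζ (R^[n] y')‖ ≤ C') : th s ζ R y = th s ζ R y' := by
  have h1 := (tendsto_th s h y).sub (tendsto_th s h y')
  have h2 : Tendsto (fun n : ℕ => (s.J ^ n) (ζ (R^[n] y)) - (s.J ^ n) (ζ (R^[n] y'))) atTop
      (𝓝 0) := by
    obtain ⟨C1, μ, hμ, hμ1, hC1⟩ := s.fast
    have h3 : Tendsto (fun n : ℕ => C1 * C' * μ ^ n) atTop (𝓝 0) := by
      have h4 := (tendsto_pow_atTop_nhds_zero_of_lt_one hμ.le hμ1).const_mul (C1 * C')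
      rwa [mul_zero] at h4
    refine squeeze_zero_norm (fun n => ?_) h3
    rw [← map_sub]
    have h5 : 0 ≤ C1 * μ ^ n := (norm_nonneg _).trans (hC1 n)
    calc ‖(s.J ^ n) (ζ (R^[n] y) - ζ (R^[n] y'))‖
        ≤ ‖s.J ^ n‖ * ‖ζ (R^[n] y) - ζ (R^[n] y')‖ := (s.J ^ n).le_opNorm _
      _ ≤ (C1 * μ ^ n) * C' := mul_le_mul (hC1 n) (h' n) (norm_nonneg _) h5
      _ = C1 * C' * μ ^ n := by ring
  exact sub_eq_zero.1 (tendsto_nhds_unique h1 h2)

variable [TFib] {r : ℕ} {S : Fin r → SurfaceMap} (D : TData S)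

theorem zeta_bdd : ∃ C : ℝ, ∀ x y : X r, dist x y ≤ 1 → ‖zeta D x - zeta D y‖ ≤ C := by
  obtain ⟨K, hK, hKc⟩ := cocompact_dk S
  obtain ⟨C, hC⟩ := (hK.cthickening (r := 1)).exists_bound_of_continuousOn
    (continuous_zeta D).continuousOn
  refine ⟨C + C, fun x y hxy => ?_⟩
  obtain ⟨γ, δ, hγ, hδ, hx⟩ := hKc x
  have hg : IsDeck (surf S) (dk γ δ : X r → X r) := isDeck_dk hγ hδ
  obtain ⟨w, hw⟩ := sym_of_deck D hg
  have h1 : ‖zeta D (dk γ δ x)‖ ≤ C := hC _ (Metric.self_subset_cthickening _ hx)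
  have h2 : ‖zeta D (dk γ δ y)‖ ≤ C := by
    refine hC _ (Metric.mem_cthickening_of_dist_le _ _ _ _ hx ?_)
    rw [(A2.Dyn.IsDeck.isometry hg).dist_eq, dist_comm]
    exact hxy
  have h3 : zeta D x - zeta D y = zeta D (dk γ δ x) - zeta D (dk γ δ y) := by
    rw [hw.2 x, hw.2 y]
    simp only [add_sub_add_right_eq_sub]
  rw [h3]
  exact (norm_sub_le _ _).trans (add_le_add h1 h2)

variable {D}

/-- points with close futures have the same torus function -/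
theorem TU_future {T₀ T : X r ≃ₜ X r} (h : Setting S T₀ T)
    (hT₀ : ∀ x, T₀ x = skew S D.A D.τ x) {x y : X r}
    (hxy : ∀ n : ℕ, dist (T^[n] x) (T^[n] y) ≤ 1) : TU D T x = TU D T y := by
  obtain ⟨C, hC⟩ := zeta_bdd D
  obtain ⟨C', hC'⟩ := (isCoc_X h hT₀).bdd
  unfold TU
  rw [th_future D.sL hC' fun n => hC _ _ (hxy n)]

end Pool.Agent.ANO5.Lin
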