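import Pool.Agent.ANO5.Lin.TorFacts

/-!
# ANO5, module Lin: the two torus functions for a hyperbolic matrix (package LIN-BOTH)

`exists_model`: the inverse is `(z, (y, t)) ↦ (f⁻¹ z, (y, A⁻¹ (t - τ (f⁻¹ z, y))))`; `Tor.lin A` is
`Lin.lin A` (`lin_apply`), `lin A ∘ lin A⁻¹ = 1` (`lin_mul`, `Matrix.mul_nonsing_inv`).
`exists_tpair`: `exists_tdata`, `exists_inv`.
`pr_inv`: `D'.sA.pr = 1 - D.sA.pr` (`Lin.pr_inv`, `inv`; rewrite `D'.A = D.A⁻¹` with a general
lemma `∀ B, B = A⁻¹ → ∀ s' : Split (lin B), s'.pr = 1 - s.pr`).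
`pr_U`, `pr_V`: `Lin.pr_TU`, and `pr (v - pr v) = 0`. All other facts: the corresponding facts of
`TorFacts` for `D` and, for the inverse maps (`h.symm : Setting (rev S) T₀.symm T.symm`), for `D'`;
note that `surf (fun i => rev (S i)) = surf S` by `rfl`, and `interp T₀.symm T.symm` is the
family used in `VI`. `near`: add the two estimates, `sA.pr t + (t - sA.pr t) = t`.
`model_eq`: add the two equations of `TU_model`.
-/

set_option autoImplicit false

open scoped UpperHalfPlane MatrixGroups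
open Set Filter Topology

namespace Pool.Agent.ANO5.Lin

open Pool.Agent.ANO3 Pool.Agent.ANO5.A1 Pool.Agent.ANO5.A2 Pool.Agent.ANO5.A3 Pool.Agent.ANO5.Tor
open Pool.Agent.ANO (IsHyperbolicMatrix)

private theorem left_inv_Both {k : ℕ} {A : Matrix (Fin k) (Fin k) ℤ} (hA : IsUnit A.det)
    (t : Fin k → ℝ) : lin A⁻¹ (lin A t) = t := by
  have h : (lin A⁻¹ ∘L lin A) t = t := by
    rw [← lin_mul, Matrix.nonsing_inv_mul A hA, lin_one]
    rfl
  exact h

private theorem right_inv_Both {k : ℕ} {A : Matrix (Fin k) (Fin k) ℤ} (hA : IsUnit A.det)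
    (t : Fin k → ℝ) : lin A (lin A⁻¹ t) = t := by
  have h : (lin A ∘L lin A⁻¹) t = t := by
    rw [← lin_mul, Matrix.mul_nonsing_inv A hA, lin_one]
    rfl
  exact h

private theorem pr_inv_gen_Both {k : ℕ} {A B : Matrix (Fin k) (Fin k) ℤ}
    (hA : IsHyperbolicMatrix A) (hB : B = A⁻¹) (s : Split (lin A)) (s' : Split (lin B))
    (v : Fin k → ℝ) : s'.pr v = v - s.pr v := by
  subst hB
  exact DFunLike.congr_fun (pr_inv hA s s') v

variable [TFib] {r : ℕ} {S : Fin r → SurfaceMap}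

/-- The model map is a homeomorphism if `A` is invertible. -/
theorem exists_model (S : Fin r → SurfaceMap) {A : Matrix (Fin TFib.k) (Fin TFib.k) ℤ}
    (hA : IsUnit A.det) {τ : B r → Fin TFib.k → ℝ} (hτ : Continuous τ) :
    ∃ T₀ : X r ≃ₜ X r, ∀ x, T₀ x = skew S A τ x := by
  have hz : Continuous fun x : X r => fun i => (S i).f.symm (x.1 i) :=
    continuous_pi fun i => (S i).f.symm.continuous.comp ((continuous_apply i).comp continuous_fst)
  refine ⟨{
    toFun := skew S A τ
    invFun := fun x => (fun i => (S i).f.symm (x.1 i),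
      (x.2.1, lin A⁻¹ (x.2.2 - τ (fun i => (S i).f.symm (x.1 i), x.2.1))))
    left_inv := fun x => ?_
    right_inv := fun x => ?_
    continuous_toFun := ?_
    continuous_invFun := ?_ }, fun x => rfl⟩
  · refine Prod.ext (funext fun i => (S i).f.symm_apply_apply _) (Prod.ext rfl ?_)
    show lin A⁻¹ ((lin A x.2.2 + τ (x.1, x.2.1)) -
      τ (fun i => (S i).f.symm ((S i).f (x.1 i)), x.2.1)) = x.2.2
    have h1 : (fun i => (S i).f.symm ((S i).f (x.1 i))) = x.1 :=
      funext fun i => (S i).f.symm_apply_apply _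
    rw [h1, add_sub_cancel_right, left_inv_Both hA]
  · refine Prod.ext (funext fun i => (S i).f.apply_symm_apply _) (Prod.ext rfl ?_)
    show lin A (lin A⁻¹ (x.2.2 - τ (fun i => (S i).f.symm (x.1 i), x.2.1))) +
      τ (fun i => (S i).f.symm (x.1 i), x.2.1) = x.2.2
    rw [right_inv_Both hA, sub_add_cancel]
  · refine Continuous.prodMk (continuous_pi fun i => (S i).f.continuous.comp
      ((continuous_apply i).comp continuous_fst)) (Continuous.prodMk
        (continuous_fst.comp continuous_snd) ?_)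
    exact ((lin A).continuous.comp (continuous_snd.comp continuous_snd)).add
      (hτ.comp (continuous_fst.prodMk (continuous_fst.comp continuous_snd)))
  · refine Continuous.prodMk hz (Continuous.prodMk (continuous_fst.comp continuous_snd) ?_)
    exact (lin A⁻¹).continuous.comp ((continuous_snd.comp continuous_snd).sub
      (hτ.comp (hz.prodMk (continuous_fst.comp continuous_snd))))

/-- The data of the model and of its inverse. -/
structure TPair (S : Fin r → SurfaceMap) (T₀ : X r ≃ₜ X r) where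
  D : TData S
  D' : TData (fun i => rev (S i))
  hyp : IsHyperbolicMatrix D.A
  inv : D'.A = D.A⁻¹
  model : ∀ x, T₀ x = skew S D.A D.τ x
  model' : ∀ x, T₀.symm x = skew (fun i => rev (S i)) D'.A D'.τ x

theorem exists_tpair {A : Matrix (Fin TFib.k) (Fin TFib.k) ℤ} (hA : IsHyperbolicMatrix A)
    {τ : B r → Fin TFib.k → ℝ} (hτ : IsTwist (surf S) τ) {T₀ : X r ≃ₜ X r}
    (hT₀ : ∀ x, T₀ x = skew S A τ x) : ∃ P : TPair S T₀, P.D.A = A ∧ P.D.τ = τ := by
  obtain ⟨D, rfl, rfl⟩ := exists_tdata A hτ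
  obtain ⟨D', hD', hm⟩ := exists_inv D hA.1
  exact ⟨⟨D, D', hA, hD', hT₀, hm T₀ hT₀⟩, rfl, rfl⟩

namespace TPair

variable {T₀ T : X r ≃ₜ X r} (P : TPair S T₀)

/-- The projection to the expanding part. -/
noncomputable def pr : (Fin TFib.k → ℝ) →L[ℝ] (Fin TFib.k → ℝ) := P.D.sA.pr

/-- The first torus function. -/
noncomputable def U (T : X r ≃ₜ X r) (x : X r) : Fin TFib.k → ℝ := TU P.D T x

/-- The second torus function. -/
noncomputable def V (T : X r ≃ₜ X r) (x : X r) : Fin TFib.k → ℝ := TU P.D' T.symm x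

/-- The family of the first torus functions. -/
noncomputable def UI (T : X r ≃ₜ X r) (y : unitInterval × X r) : Fin TFib.k → ℝ :=
  TUI P.D T₀ T y

/-- The family of the second torus functions. -/
noncomputable def VI (T : X r ≃ₜ X r) (y : unitInterval × X r) : Fin TFib.k → ℝ :=
  TUI P.D' T₀.symm T.symm y

/-- The shift of `U + V` under a deck transformation. -/
noncomputable def chi (g : X r → X r) : Fin TFib.k → ℝ := Lin.chi P.D g + Lin.chi P.D' g

/-- `U + V` for the model at the points with `t = 0`. -/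
noncomputable def kap (b : B r) : Fin TFib.k → ℝ := kap₀ P.D T₀ b + kap₀ P.D' T₀.symm b

theorem pr_pr (v : Fin TFib.k → ℝ) : P.pr (P.pr v) = P.pr v :=
  DFunLike.congr_fun P.D.sA.pr_pr v

theorem pr_lin (v : Fin TFib.k → ℝ) : P.pr (lin P.D.A v) = lin P.D.A (P.pr v) :=
  DFunLike.congr_fun P.D.sA.pr_L v

theorem pr_inv (v : Fin TFib.k → ℝ) : P.D'.sA.pr v = v - P.pr v :=
  pr_inv_gen_Both P.hyp P.inv P.D.sA P.D'.sA v

private theorem pr_zero_Both {v : Fin TFib.k → ℝ} (hv : P.D'.sA.pr v = v) : P.pr v = 0 := by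
  rw [P.pr_inv] at hv
  exact sub_eq_self.1 hv

theorem pr_U (x : X r) : P.pr (P.U T x) = P.U T x :=
  pr_TU (D := P.D) T x

theorem pr_V (x : X r) : P.pr (P.V T x) = 0 :=
  P.pr_zero_Both (pr_TU (D := P.D') T.symm x)

theorem pr_UI (y : unitInterval × X r) : P.pr (P.UI T y) = P.UI T y :=
  pr_TUI (D := P.D) T₀ T y

theorem pr_VI (y : unitInterval × X r) : P.pr (P.VI T y) = 0 :=
  P.pr_zero_Both (pr_TUI (D := P.D') T₀.symm T.symm y)

theorem pr_chi (g : X r → X r) : P.pr (P.chi g) = Lin.chi P.D g := by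
  have h1 : P.pr (Lin.chi P.D g) = Lin.chi P.D g := Lin.pr_chi (D := P.D) g
  have h2 : P.pr (Lin.chi P.D' g) = 0 := P.pr_zero_Both (Lin.pr_chi (D := P.D') g)
  unfold chi
  rw [map_add, h1, h2, add_zero]

private theorem chi_sub_Both (g : X r → X r) : P.chi g - P.pr (P.chi g) = Lin.chi P.D' g := by
  rw [P.pr_chi]
  unfold chi
  rw [add_sub_cancel_left]

theorem continuous_U (h : Setting S T₀ T) : Continuous (P.U T) :=
  continuous_TU h P.model

theorem continuous_V (h : Setting S T₀ T) : Continuous (P.V T) :=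
  continuous_TU h.symm P.model'

theorem continuous_UI (h : Setting S T₀ T) : Continuous (P.UI T) :=
  continuous_TUI h P.model

theorem continuous_VI (h : Setting S T₀ T) : Continuous (P.VI T) :=
  continuous_TUI h.symm P.model'

theorem UI_one (x : X r) : P.UI T (1, x) = P.U T x :=
  TUI_one (D := P.D) T₀ T x

theorem UI_zero (x : X r) : P.UI T (0, x) = P.U T₀ x :=
  TUI_zero (D := P.D) T₀ T x

theorem VI_one (x : X r) : P.VI T (1, x) = P.V T x :=
  TUI_one (D := P.D') T₀.symm T.symm x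

theorem VI_zero (x : X r) : P.VI T (0, x) = P.V T₀ x :=
  TUI_zero (D := P.D') T₀.symm T.symm x

theorem near (h : Setting S T₀ T) : ∃ (κ : B r → Fin TFib.k → ℝ) (C : ℝ),
    Continuous κ ∧ ∀ y : unitInterval × X r,
      ‖P.UI T y + P.VI T y - (y.2.2.2 + κ (y.2.1, y.2.2.1))‖ ≤ C := by
  obtain ⟨κ, C, hκ, h1⟩ := TUI_near h P.model
  obtain ⟨κ', C', hκ', h2⟩ := TUI_near h.symm P.model'
  refine ⟨fun b => κ b + κ' b, C + C', hκ.add hκ', fun y => ?_⟩
  have h3 := h2 y
  rw [P.pr_inv] at h3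
  refine le_trans (le_of_eq ?_) ((norm_add_le _ _).trans (add_le_add (h1 y) h3))
  congr 1
  show P.UI T y + P.VI T y - (y.2.2.2 + (κ (y.2.1, y.2.2.1) + κ' (y.2.1, y.2.2.1))) =
    P.UI T y - (P.pr y.2.2.2 + κ (y.2.1, y.2.2.1)) +
      (P.VI T y - (y.2.2.2 - P.pr y.2.2.2 + κ' (y.2.1, y.2.2.1)))
  abel

theorem model_eq (h : Setting S T₀ T₀) (z : Fin r → ℍ) (y : TFib.base.W)
    (t : Fin TFib.k → ℝ) : P.U T₀ (z, (y, t)) + P.V T₀ (z, (y, t)) = t + P.kap (z, y) := by
  have h1 : P.U T₀ (z, (y, t)) = P.pr t + kap₀ P.D T₀ (z, y) := TU_model P.model h z y t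
  have h2 : P.V T₀ (z, (y, t)) = P.D'.sA.pr t + kap₀ P.D' T₀.symm (z, y) :=
    TU_model P.model' h.symm z y t
  rw [h1, h2, P.pr_inv]
  unfold kap
  abel

theorem continuous_kap (h : Setting S T₀ T₀) : Continuous P.kap :=
  (continuous_kap₀ P.model h).add (continuous_kap₀ P.model' h.symm)

theorem U_act (h : Setting S T₀ T) {g : X r → X r} (hg : IsDeck (surf S) g) (x : X r) :
    P.U T (g x) = P.U T x + P.pr (P.chi g) := by
  rw [P.pr_chi]
  exact TU_act h P.model hg x

theorem V_act (h : Setting S T₀ T) {g : X r → X r} (hg : IsDeck (surf S) g) (x : X r) :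
    P.V T (g x) = P.V T x + (P.chi g - P.pr (P.chi g)) := by
  rw [P.chi_sub_Both]
  exact TU_act h.symm P.model' hg x

theorem UI_act (h : Setting S T₀ T) {g : X r → X r} (hg : IsDeck (surf S) g) (s : unitInterval)
    (x : X r) : P.UI T (s, g x) = P.UI T (s, x) + P.pr (P.chi g) := by
  rw [P.pr_chi]
  exact TUI_act h P.model hg s x

theorem VI_act (h : Setting S T₀ T) {g : X r → X r} (hg : IsDeck (surf S) g) (s : unitInterval)
    (x : X r) : P.VI T (s, g x) = P.VI T (s, x) + (P.chi g - P.pr (P.chi g)) := by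
  rw [P.chi_sub_Both]
  exact TUI_act h.symm P.model' hg s x

theorem chi_comp {g g' : X r → X r} (hg : IsDeck (surf S) g) (hg' : IsDeck (surf S) g') :
    P.chi (g ∘ g') = P.chi g + P.chi g' := by
  unfold chi
  have h1 : Lin.chi P.D (g ∘ g') = Lin.chi P.D g + Lin.chi P.D g' := Lin.chi_comp hg hg'
  have h2 : Lin.chi P.D' (g ∘ g') = Lin.chi P.D' g + Lin.chi P.D' g' := Lin.chi_comp hg hg'
  rw [h1, h2, add_add_add_comm]

theorem chi_id : P.chi (id : X r → X r) = 0 := by
  unfold chi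
  rw [Lin.chi_id, Lin.chi_id, add_zero]

theorem chi_trans (v : Fin TFib.k → ℤ) :
    P.chi (fun x : X r => (x.1, (x.2.1, fun j => x.2.2 j + v j))) = fun j => (v j : ℝ) := by
  unfold chi
  rw [Lin.chi_trans, Lin.chi_trans, P.pr_inv]
  show P.pr _ + _ = _
  rw [add_sub_cancel]

/-- the two components determine the sum -/
theorem eq_iff {c u v : Fin TFib.k → ℝ} (hu : P.pr u = u) (hv : P.pr v = 0) :
    u + v = c ↔ u = P.pr c ∧ v = c - P.pr c := by
  constructor
  · rintro rfl
    rw [map_add, hu, hv, add_zero]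
    exact ⟨rfl, (add_sub_cancel_left u v).symm⟩
  · rintro ⟨h1, h2⟩
    rw [h2, h1, add_sub_cancel]

end TPair

end Pool.Agent.ANO5.Lin
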