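import Mathlib

/-!
# ANO5, module Lin: finite generation and recurrence (package LIN-GEN)

`gen`: `K` compact with `Δ K = P`, `K'` = closed `1`-neighbourhood of `K` (compact,
`IsCompact.cthickening` in a proper space), `S = {g | g K' ∩ K' ≠ ∅}` is finite (`hprop`). Let `H`
be
the subgroup generated by `S`. `H K` is open: for `x = h k`, `k ∈ K`, and `dist y x < 1`, `y ∈ g K`:
`h⁻¹ y ∈ K'` (isometry) and `h⁻¹ y ∈ (h⁻¹ g) K`, so `h⁻¹ g ∈ S`, `g ∈ H`. The complement is open: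
let
`y ∈ g K`, `g ∉ H`; if `dist z y < 1` and `z ∈ h K`, `h ∈ H`, then `g⁻¹ z ∈ K' ∩ (g⁻¹ h) K`, so
`g⁻¹ h ∈ S`, `g ∈ H`: contradiction. `P` is connected and `H K` is not empty (if `P` is not empty),
so
`H K = P`. For `g ∈ Δ`, `k ∈ K`: `g k = h k'`, so `h⁻¹ g ∈ S`, `g ∈ H`.

`exists_rec`: let `S` be a finite generating set. The elements `e_j = (c ∘ φ^j)|_S` of the
`ℤ`-module `S → (Fin k → ℤ)` (finitely generated, so Noetherian): the submodules spanned by
`e_0, ..., e_(j-1)` stabilise (`monotone_stabilizes_iff_noetherian`), so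
`e_d = ∑_(j<d) a_j e_j` for some `d`. Both sides of
`c (φ^d g) = ∑ a_j c (φ^j g)` are homomorphisms in `g` which agree on `S`.
-/

set_option autoImplicit false

open Set Filter Topology

namespace Pool.Agent.ANO5.Lin

theorem gen {P : Type*} [MetricSpace P] [ProperSpace P] [PreconnectedSpace P] [Nonempty P]
    {Δ : Type*} [Group Δ] [MulAction Δ P] (hiso : ∀ (g : Δ) (x y : P), dist (g • x) (g • y) =
      dist x y) {K : Set P} (hK : IsCompact K) (hcov : ∀ x : P, ∃ g : Δ, g • x ∈ K)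
    (hprop : ∀ K : Set P, IsCompact K → {g : Δ | ∃ x ∈ K, g • x ∈ K}.Finite) :
    ∃ T : Set Δ, T.Finite ∧ Subgroup.closure T = ⊤ := by
  have hK' : IsCompact (Metric.cthickening 1 K) := hK.cthickening
  have hsub : K ⊆ Metric.cthickening 1 K := Metric.self_subset_cthickening K
  have hnear : ∀ x y : P, x ∈ K → dist y x < 1 → y ∈ Metric.cthickening 1 K := fun x y hx h =>
    Metric.mem_cthickening_of_dist_le y x 1 K hx h.le
  refine ⟨{g : Δ | ∃ x ∈ Metric.cthickening 1 K, g • x ∈ Metric.cthickening 1 K},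
    hprop _ hK', ?_⟩
  set H : Subgroup Δ := Subgroup.closure
    {g : Δ | ∃ x ∈ Metric.cthickening 1 K, g • x ∈ Metric.cthickening 1 K} with hH
  have hS : ∀ (g : Δ) (x : P), x ∈ Metric.cthickening 1 K → g • x ∈ Metric.cthickening 1 K →
      g ∈ H := fun g x h1 h2 => Subgroup.subset_closure ⟨x, h1, h2⟩
  have key : ∀ x y : P, dist y x < 1 → (∃ h ∈ H, h • x ∈ K) → ∃ h ∈ H, h • y ∈ K := by
    rintro x y hxy ⟨h, hh, hx⟩
    obtain ⟨g, hg⟩ := hcov y
    refine ⟨g, ?_, hg⟩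
    have h1 : h • y ∈ Metric.cthickening 1 K := hnear _ _ hx (by rw [hiso]; exact hxy)
    have h2 : (g * h⁻¹) • (h • y) ∈ Metric.cthickening 1 K := by
      rw [smul_smul, inv_mul_cancel_right]
      exact hsub hg
    have h3 := H.mul_mem (hS _ _ h1 h2) hh
    rwa [inv_mul_cancel_right] at h3
  have hclopen : IsClopen {x : P | ∃ h ∈ H, h • x ∈ K} := by
    refine ⟨⟨?_⟩, ?_⟩
    · rw [Metric.isOpen_iff]
      intro x hx
      refine ⟨1, one_pos, fun y hy hy' => hx ?_⟩
      exact key y x (by rw [dist_comm]; exact hy) hy'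
    · rw [Metric.isOpen_iff]
      intro x hx
      exact ⟨1, one_pos, fun y hy => key x y hy hx⟩
  obtain ⟨x₀⟩ := ‹Nonempty P›
  obtain ⟨g₀, hg₀⟩ := hcov x₀
  have huniv := hclopen.eq_univ ⟨g₀ • x₀, 1, H.one_mem, by rwa [one_smul]⟩
  rw [eq_top_iff]
  intro g _
  have h1 : g⁻¹ • (g₀ • x₀) ∈ {x : P | ∃ h ∈ H, h • x ∈ K} := by
    rw [huniv]
    trivial
  obtain ⟨h, hh, h2⟩ := h1
  rw [smul_smul] at h2
  have h3 := hS (h * g⁻¹) (g₀ • x₀) (hsub hg₀) (hsub h2)
  have h4 := H.mul_mem (H.inv_mem h3) hh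
  rwa [mul_inv_rev, inv_inv, inv_mul_cancel_right] at h4

theorem exists_rec {Δ : Type*} [Group Δ] {T : Set Δ} (hT : T.Finite)
    (hgen : Subgroup.closure T = ⊤) {k : ℕ} {c : Δ → (Fin k → ℤ)}
    (hc : ∀ g h, c (g * h) = c g + c h) {φ : Δ → Δ} (hφ : ∀ g h, φ (g * h) = φ g * φ h) :
    ∃ (d : ℕ) (a : Fin d → ℤ), ∀ g, c (φ^[d] g) = ∑ j : Fin d, a j • c (φ^[(j : ℕ)] g) := by
  have hφn : ∀ (n : ℕ) (g h : Δ), φ^[n] (g * h) = φ^[n] g * φ^[n] h := by
    intro n
    induction n with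
    | zero => intro g h; rfl
    | succ n ih =>
      intro g h
      rw [Function.iterate_succ_apply', Function.iterate_succ_apply',
        Function.iterate_succ_apply', ih, hφ]
  have hF : ∀ (n : ℕ) (g h : Δ), c (φ^[n] (g * h)) = c (φ^[n] g) + c (φ^[n] h) := fun n g h => by
    rw [hφn, hc]
  have hF1 : ∀ n : ℕ, c (φ^[n] 1) = 0 := fun n => by
    have h1 := hF n 1 1
    rw [mul_one] at h1
    exact left_eq_add.1 h1
  have hFi : ∀ (n : ℕ) (g : Δ), c (φ^[n] g⁻¹) = - c (φ^[n] g) := fun n g => by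
    have h1 := hF n g⁻¹ g
    rw [inv_mul_cancel, hF1] at h1
    exact eq_neg_of_add_eq_zero_left h1.symm
  have := hT.fintype
  set e : ℕ → (T → (Fin k → ℤ)) := fun j t => c (φ^[j] t) with he
  obtain ⟨d, hd⟩ := (monotone_stabilizes_iff_noetherian (R := ℤ) (M := T → (Fin k → ℤ))).2
    inferInstance ⟨fun n => Submodule.span ℤ (range fun j : Fin n => e j), fun m n hmn => by
      refine Submodule.span_mono ?_
      rintro x ⟨j, rfl⟩
      exact ⟨⟨j, j.2.trans_le hmn⟩, rfl⟩⟩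
  have h1 : e d ∈ Submodule.span ℤ (range fun j : Fin d => e j) := by
    have h2 : Submodule.span ℤ (range fun j : Fin d => e j) =
        Submodule.span ℤ (range fun j : Fin (d + 1) => e j) := hd (d + 1) (Nat.le_succ d)
    rw [h2]
    exact Submodule.subset_span ⟨Fin.last d, by simp⟩
  obtain ⟨a, ha⟩ := (Submodule.mem_span_range_iff_exists_fun ℤ).1 h1
  refine ⟨d, a, fun g => ?_⟩
  have hg : g ∈ Subgroup.closure T := by
    rw [hgen]
    trivial
  induction hg using Subgroup.closure_induction with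
  | mem x hx =>
    have h2 := congrFun ha ⟨x, hx⟩
    rw [Finset.sum_apply] at h2
    exact h2.symm
  | one =>
    rw [hF1]
    symm
    refine Finset.sum_eq_zero fun j _ => ?_
    rw [hF1, smul_zero]
  | mul x y _ _ hx hy =>
    rw [hF, hx, hy, ← Finset.sum_add_distrib]
    refine Finset.sum_congr rfl fun j _ => ?_
    rw [hF, smul_add]
  | inv x _ hx =>
    rw [hFi, hx, ← Finset.sum_neg_distrib]
    refine Finset.sum_congr rfl fun j _ => ?_
    rw [hFi, smul_neg]

end Pool.Agent.ANO5.Lin
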