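import Pool.Agent.ANO5.Lin.Split
import Pool.Agent.ANO.Cone.LinA

/-!
# ANO5, module Lin: hyperbolic integer matrices (package LIN-HYP)

`lin A` is the linear map of `ℝ^k` given by the integer matrix `A`. Let `A` be hyperbolic with the
adapted seminorms `NU`, `NS` (`Pool.Agent.ANO.Cone.exists_linGeo`).

`decay`: let `v` be in the range of `1 - pr`. `NU v ≤ lam^(-n) NU (A^n v) ≤ lam^(-n) C ‖A^n v‖
≤ lam^(-n) C C_ε (1+ε)^n ‖v‖ → 0`, so `NU v = 0`; the range is invariant, so `NU (A^n v) = 0` and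
`‖A^n v‖ ≤ NS (A^n v) ≤ lam^(-n) NS v ≤ lam^(-n) C ‖v‖`.
`pr_symm`: for two maps `L`, `L'` inverse to each other, `s : Split L`, `s' : Split L'`, with decay
for `s`: let `v = pr v`; then `L'^n v = J^n v` decays (`L'^n v = L'^n L^n J^n v`), so it grows
subexponentially under `L'`, and `s'.pr v` has the same property (`s'.pr` commutes with `L'`), so
`s'.pr v = 0` (`Split.eq_zero`). Let `v = (1 - pr) v`: then `L^n v` decays like `μ^n`. Let
`w = (1 - s'.pr) v`; `w = L'^n (L^n w)` with `L^n w = (1 - s'.pr) (L^n v)`, so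
`‖w‖ ≤ C_ε (1+ε)^n ‖L^n v‖ → 0`: `w = 0`, `s'.pr v = v`. So `s'.pr = 1 - s.pr`.
The same argument exchanged gives decay for `s'`.
`pow_split`: `Split (L^m)` from `Split L` for `m > 0`: the same `pr`, `J^m`
(`(1+ε)^(m n)`: choose `ε'` with `(1+ε')^m ≤ 1+ε`).
`lin_pow`: `Matrix.mulVec_mulVec`. `isUnit`: the inverse of `lin A` is `lin A⁻¹` (`A.det` is a
unit).
`one_sub`: `1 - A^m` is injective on `ℝ^k` for hyperbolic `A`, `m > 0`: if `A^m v = v` then
`A^(mn) v` is bounded, so `NU v = 0`, and `v = A^(-mn) v` gives `NS v = 0`.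
-/

set_option autoImplicit false

open Set Filter Topology

namespace Pool.Agent.ANO5.Lin

open Pool.Agent.ANO (IsHyperbolicMatrix)

variable {k : ℕ}

/-- The linear map of `ℝ^k` given by an integer matrix. -/
noncomputable def lin (A : Matrix (Fin k) (Fin k) ℤ) : (Fin k → ℝ) →L[ℝ] (Fin k → ℝ) :=
  LinearMap.toContinuousLinearMap (A.map (Int.cast : ℤ → ℝ)).mulVecLin

theorem lin_apply (A : Matrix (Fin k) (Fin k) ℤ) (v : Fin k → ℝ) :
    lin A v = (A.map (Int.cast : ℤ → ℝ)).mulVec v := by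
  rfl

private theorem map_mul_Hyp {R : Type*} [CommRing R] (A B : Matrix (Fin k) (Fin k) ℤ) :
    (A * B).map (Int.cast : ℤ → R) = A.map (Int.cast : ℤ → R) * B.map (Int.cast : ℤ → R) :=
  map_mul (Int.castRingHom R).mapMatrix A B

private theorem map_one_Hyp {R : Type*} [CommRing R] :
    (1 : Matrix (Fin k) (Fin k) ℤ).map (Int.cast : ℤ → R) = 1 :=
  map_one (Int.castRingHom R).mapMatrix

theorem lin_mul (A B : Matrix (Fin k) (Fin k) ℤ) : lin (A * B) = lin A ∘L lin B := by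
  refine ContinuousLinearMap.ext fun v => ?_
  rw [ContinuousLinearMap.comp_apply, lin_apply, lin_apply, lin_apply, map_mul_Hyp,
    Matrix.mulVec_mulVec]

theorem lin_one : lin (1 : Matrix (Fin k) (Fin k) ℤ) = ContinuousLinearMap.id ℝ _ := by
  refine ContinuousLinearMap.ext fun v => ?_
  rw [lin_apply, map_one_Hyp, Matrix.one_mulVec]
  rfl

theorem lin_pow (A : Matrix (Fin k) (Fin k) ℤ) (n : ℕ) : lin (A ^ n) = lin A ^ n := by
  induction n with
  | zero =>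
    rw [pow_zero, pow_zero, lin_one]
    rfl
  | succ n ih =>
    rw [pow_succ, pow_succ, lin_mul, ih]
    rfl

theorem lin_int (A : Matrix (Fin k) (Fin k) ℤ) (v : Fin k → ℤ) :
    lin A (fun j => (v j : ℝ)) = fun j => ((A.mulVec v j : ℤ) : ℝ) := by
  funext j
  rw [lin_apply]
  simp only [Matrix.mulVec, dotProduct, Matrix.map_apply]
  push_cast
  rfl

variable {A : Matrix (Fin k) (Fin k) ℤ}

private theorem NU_pow_Hyp (g : Pool.Agent.ANO.Cone.LinGeo A) (n : ℕ) (v : Fin k → ℝ) :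
    g.lam ^ n * g.NU v ≤ g.NU ((lin A ^ n) v) := by
  have h0 : 0 < g.lam := lt_trans one_pos g.one_lt
  induction n generalizing v with
  | zero =>
    rw [pow_zero, one_mul, pow_zero]
    exact le_refl _
  | succ n ih =>
    have h1 := ih (lin A v)
    have h2 := g.NU_A v
    have h3 : (lin A ^ (n + 1)) v = (lin A ^ n) (lin A v) := by
      rw [pow_succ]
      rfl
    rw [h3]
    refine le_trans ?_ h1
    rw [pow_succ, mul_assoc]
    exact mul_le_mul_of_nonneg_left h2 (pow_pos h0 n).le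

private theorem NS_pow_Hyp (g : Pool.Agent.ANO.Cone.LinGeo A) (n : ℕ) (v : Fin k → ℝ) :
    g.lam ^ n * g.NS ((lin A ^ n) v) ≤ g.NS v := by
  have h0 : 0 < g.lam := lt_trans one_pos g.one_lt
  induction n generalizing v with
  | zero =>
    rw [pow_zero, one_mul, pow_zero]
    exact le_refl _
  | succ n ih =>
    have h1 := ih (lin A v)
    have h2 := g.NS_A v
    have h3 : (lin A ^ (n + 1)) v = (lin A ^ n) (lin A v) := by
      rw [pow_succ]
      rfl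
    rw [h3]
    refine le_trans ?_ h2
    rw [pow_succ', mul_assoc]
    exact mul_le_mul_of_nonneg_left h1 h0.le

private theorem pr_pow_Hyp {E : Type*} [NormedAddCommGroup E] [NormedSpace ℝ E] {L : E →L[ℝ] E}
    (s : Split L) (n : ℕ) (v : E) : s.pr ((L ^ n) v) = (L ^ n) (s.pr v) := by
  induction n generalizing v with
  | zero => rfl
  | succ n ih =>
    have h3 : ∀ w, (L ^ (n + 1)) w = (L ^ n) (L w) := fun w => by
      rw [pow_succ]
      rfl
    have h4 : s.pr (L v) = L (s.pr v) := DFunLike.congr_fun s.pr_L v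
    rw [h3, h3, ih, h4]

private theorem lim_Hyp {C q x : ℝ} (hq : 0 ≤ q) (hq1 : q < 1)
    (h : ∀ n : ℕ, 0 < n → x ≤ C * q ^ n) : x ≤ 0 := by
  have h4 := (tendsto_pow_atTop_nhds_zero_of_lt_one hq hq1).const_mul C
  rw [mul_zero] at h4
  exact ge_of_tendsto h4 (by
    filter_upwards [eventually_gt_atTop 0] with n hn
    exact h n hn)

private theorem bd_Hyp {E : Type*} [NormedAddCommGroup E] [NormedSpace ℝ E] {L : E →L[ℝ] E}
    (s : Split L) {n : ℕ} {c : ℝ}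
    (h : ‖(L ^ n : E →L[ℝ] E) ∘L (ContinuousLinearMap.id ℝ E - s.pr)‖ ≤ c) (v : E) :
    ‖(L ^ n) (v - s.pr v)‖ ≤ c * ‖v‖ :=
  (ContinuousLinearMap.le_opNorm ((L ^ n) ∘L (ContinuousLinearMap.id ℝ E - s.pr)) v).trans
    (mul_le_mul_of_nonneg_right h (norm_nonneg _))

private theorem NU_zero_Hyp (g : Pool.Agent.ANO.Cone.LinGeo A) (s : Split (lin A))
    (v : Fin k → ℝ) : g.NU (v - s.pr v) = 0 := by
  refine le_antisymm ?_ (g.NU_nonneg _)
  obtain ⟨C, hC⟩ := g.upper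
  have hl := g.one_lt
  have h0 : 0 < g.lam := lt_trans one_pos hl
  obtain ⟨C', hC'⟩ := s.slow ((g.lam - 1) / 2) (by linarith)
  refine lim_Hyp (C := |C| * (C' * ‖v‖)) (q := (1 + (g.lam - 1) / 2) / g.lam)
    (by positivity) (by rw [div_lt_one h0]; linarith) fun n _ => ?_
  have h1 := NU_pow_Hyp g n (v - s.pr v)
  have h2 : ‖(lin A ^ n) (v - s.pr v)‖ ≤ C' * (1 + (g.lam - 1) / 2) ^ n * ‖v‖ :=
    bd_Hyp s (hC' n) v
  have h3 : g.NU ((lin A ^ n) (v - s.pr v)) ≤ |C| * ‖(lin A ^ n) (v - s.pr v)‖ :=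
    (hC _).1.trans (mul_le_mul_of_nonneg_right (le_abs_self C) (norm_nonneg _))
  have h4 : g.lam ^ n * g.NU (v - s.pr v) ≤ |C| * (C' * (1 + (g.lam - 1) / 2) ^ n * ‖v‖) :=
    h1.trans (h3.trans (mul_le_mul_of_nonneg_left h2 (abs_nonneg C)))
  have h5 : 0 < g.lam ^ n := pow_pos h0 n
  rw [div_pow, ← mul_div_assoc, le_div_iff₀ h5]
  calc g.NU (v - s.pr v) * g.lam ^ n = g.lam ^ n * g.NU (v - s.pr v) := mul_comm _ _
    _ ≤ _ := h4
    _ = _ := by ring

theorem decay (hA : IsHyperbolicMatrix A) (s : Split (lin A)) : ∃ C μ : ℝ, 0 < μ ∧ μ < 1 ∧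
    ∀ n : ℕ, ‖(lin A ^ n : (Fin k → ℝ) →L[ℝ] (Fin k → ℝ)) ∘L
      (ContinuousLinearMap.id ℝ _ - s.pr)‖ ≤ C * μ ^ n := by
  obtain ⟨g⟩ := Pool.Agent.ANO.Cone.exists_linGeo A hA
  obtain ⟨C, hC⟩ := g.upper
  have hl := g.one_lt
  have h0 : 0 < g.lam := lt_trans one_pos hl
  refine ⟨|C| * ‖ContinuousLinearMap.id ℝ _ - s.pr‖, g.lam⁻¹, inv_pos.2 h0,
    inv_lt_one_of_one_lt₀ hl, fun n => ?_⟩
  have h5 : 0 < g.lam ^ n := pow_pos h0 n
  refine ContinuousLinearMap.opNorm_le_bound _ (by positivity) fun v => ?_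
  show ‖(lin A ^ n) (v - s.pr v)‖ ≤ _
  have h1 : g.NU ((lin A ^ n) (v - s.pr v)) = 0 := by
    rw [map_sub, ← pr_pow_Hyp]
    exact NU_zero_Hyp g s _
  have h2 := g.lower ((lin A ^ n) (v - s.pr v))
  rw [h1, zero_add] at h2
  have h3 := NS_pow_Hyp g n (v - s.pr v)
  have h4 : g.NS (v - s.pr v) ≤ |C| * (‖ContinuousLinearMap.id ℝ _ - s.pr‖ * ‖v‖) := by
    refine (hC _).2.trans ((mul_le_mul_of_nonneg_right (le_abs_self C) (norm_nonneg _)).trans ?_)
    refine mul_le_mul_of_nonneg_left ?_ (abs_nonneg C)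
    exact ContinuousLinearMap.le_opNorm (ContinuousLinearMap.id ℝ _ - s.pr) v
  refine h2.trans ?_
  rw [inv_pow, ← div_eq_mul_inv, div_mul_eq_mul_div, le_div_iff₀ h5, mul_comm]
  refine (h3.trans h4).trans (le_of_eq ?_)
  ring

private theorem root_Hyp {M : Matrix (Fin k) (Fin k) ℂ} {z : ℂ} :
    M.charpoly.IsRoot z ↔ ∃ v : Fin k → ℂ, v ≠ 0 ∧ M.mulVec v = z • v := by
  rw [Polynomial.IsRoot.def, Matrix.eval_charpoly, ← Matrix.exists_mulVec_eq_zero_iff]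
  refine exists_congr fun v => and_congr_right fun _ => ?_
  rw [Matrix.sub_mulVec, Matrix.scalar_apply, Matrix.diagonal_const_mulVec, sub_eq_zero]
  exact eq_comm

theorem hyp_inv (hA : IsHyperbolicMatrix A) : IsHyperbolicMatrix A⁻¹ := by
  obtain ⟨hdet, hroot⟩ := hA
  refine ⟨Matrix.isUnit_nonsing_inv_det A hdet, fun z hz hz1 => ?_⟩
  have hz0 : z ≠ 0 := by
    rintro rfl
    rw [norm_zero] at hz1
    exact zero_ne_one hz1
  obtain ⟨v, hv0, hv⟩ := root_Hyp.1 hz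
  refine hroot z⁻¹ (root_Hyp.2 ⟨v, hv0, ?_⟩) (by rw [norm_inv, hz1, inv_one])
  have h1 : A.map (Int.cast : ℤ → ℂ) * A⁻¹.map (Int.cast : ℤ → ℂ) = 1 := by
    rw [← map_mul_Hyp, Matrix.mul_nonsing_inv A hdet, map_one_Hyp]
  have h2 : (A.map (Int.cast : ℤ → ℂ)).mulVec ((A⁻¹.map (Int.cast : ℤ → ℂ)).mulVec v) = v := by
    rw [Matrix.mulVec_mulVec, h1, Matrix.one_mulVec]
  rw [hv, Matrix.mulVec_smul] at h2
  rw [eq_inv_smul_iff₀ hz0]
  exact h2

theorem lin_inv (hA : IsHyperbolicMatrix A) : lin A ∘L lin A⁻¹ = ContinuousLinearMap.id ℝ _ ∧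
    lin A⁻¹ ∘L lin A = ContinuousLinearMap.id ℝ _ := by
  rw [← lin_mul, ← lin_mul, Matrix.mul_nonsing_inv A hA.1, Matrix.nonsing_inv_mul A hA.1]
  exact ⟨lin_one, lin_one⟩

private theorem inv_pow_Hyp {E : Type*} [NormedAddCommGroup E] [NormedSpace ℝ E]
    {L L' : E →L[ℝ] E} (h : ∀ v, L' (L v) = v) (n : ℕ) (v : E) : (L' ^ n) ((L ^ n) v) = v := by
  induction n generalizing v with
  | zero => rfl
  | succ n ih =>
    have h3 : ∀ w, (L' ^ (n + 1)) w = (L' ^ n) (L' w) := fun w => by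
      rw [pow_succ]
      rfl
    have h4 : (L ^ (n + 1)) v = L ((L ^ n) v) := by
      rw [pow_succ']
      rfl
    rw [h3, h4, h, ih]

private theorem pr_inv_gen_Hyp {E : Type*} [NormedAddCommGroup E] [NormedSpace ℝ E]
    {L L' : E →L[ℝ] E} (hi : ∀ v, L' (L v) = v) (s : Split L) (s' : Split L')
    (hd : ∃ C μ : ℝ, 0 < μ ∧ μ < 1 ∧ ∀ n : ℕ, ‖(L ^ n : E →L[ℝ] E) ∘L
      (ContinuousLinearMap.id ℝ E - s.pr)‖ ≤ C * μ ^ n) :
    s'.pr = ContinuousLinearMap.id ℝ _ - s.pr := by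
  have hss : ∀ v, s.pr (s.pr v) = s.pr v := fun v => DFunLike.congr_fun s.pr_pr v
  have hss' : ∀ v, s'.pr (s'.pr v) = s'.pr v := fun v => DFunLike.congr_fun s'.pr_pr v
  -- the expanding part
  have h1 : ∀ v, s'.pr (s.pr v) = 0 := by
    intro v
    refine s'.eq_zero (hss' _) fun ε hε => ?_
    obtain ⟨C, μ, hμ, hμ1, hC⟩ := s.fast
    refine ⟨max (‖s'.pr‖ * (C * ‖s.pr v‖)) ‖s'.pr (s.pr v)‖, fun n => ?_⟩
    have hp : (1 : ℝ) ≤ (1 + ε) ^ n := one_le_pow₀ (by linarith)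
    rcases Nat.eq_zero_or_pos n with hn | hn
    · rw [hn, pow_zero, pow_zero, mul_one]
      exact le_max_right _ _
    · rw [← pr_pow_Hyp]
      have e1 : (L' ^ n) (s.pr v) = (s.J ^ n) (s.pr v) := by
        have e2 := s.L_pow_J_pow hn (s.pr v)
        rw [hss] at e2
        calc (L' ^ n) (s.pr v) = (L' ^ n) ((L ^ n) ((s.J ^ n) (s.pr v))) := by
              rw [e2]
          _ = _ := inv_pow_Hyp hi n _
      rw [e1]
      have hC0 : 0 ≤ C * μ ^ n := (norm_nonneg _).trans (hC n)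
      have hμn : 0 < μ ^ n := pow_pos hμ n
      have hC1 : 0 ≤ C := by
        by_contra hneg
        push Not at hneg
        have := mul_neg_of_neg_of_pos hneg hμn
        linarith
      have hμ2 : μ ^ n ≤ 1 := pow_le_one₀ hμ.le hμ1.le
      have e3 : ‖(s.J ^ n) (s.pr v)‖ ≤ C * ‖s.pr v‖ := by
        refine (ContinuousLinearMap.le_opNorm _ _).trans
          (mul_le_mul_of_nonneg_right ((hC n).trans ?_) (norm_nonneg _))
        calc C * μ ^ n ≤ C * 1 := mul_le_mul_of_nonneg_left hμ2 hC1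
          _ = C := mul_one C
      have e4 : ‖s'.pr ((s.J ^ n) (s.pr v))‖ ≤ ‖s'.pr‖ * (C * ‖s.pr v‖) :=
        (s'.pr.le_opNorm _).trans (mul_le_mul_of_nonneg_left e3 (norm_nonneg _))
      have e5 : 0 ≤ max (‖s'.pr‖ * (C * ‖s.pr v‖)) ‖s'.pr (s.pr v)‖ :=
        (norm_nonneg _).trans (le_max_right _ _)
      calc _ ≤ max (‖s'.pr‖ * (C * ‖s.pr v‖)) ‖s'.pr (s.pr v)‖ * 1 := by
            rw [mul_one]
            exact e4.trans (le_max_left _ _)
        _ ≤ _ := mul_le_mul_of_nonneg_left hp e5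
  -- the contracting part
  have h2 : ∀ v, (v - s.pr v) - s'.pr (v - s.pr v) = 0 := by
    intro v
    obtain ⟨C, μ, hμ, hμ1, hC⟩ := hd
    obtain ⟨C', hC'⟩ := s'.slow (1 - μ) (sub_pos.2 hμ1)
    rw [← norm_le_zero_iff]
    refine lim_Hyp (C := C' * (C * ‖v‖)) (q := μ * (1 + (1 - μ))) (by nlinarith)
      (by nlinarith [sq_nonneg (1 - μ), sub_pos.2 hμ1]) fun n _ => ?_
    have e1 : (v - s.pr v) - s'.pr (v - s.pr v) =
        ((L' ^ n) ∘L (ContinuousLinearMap.id ℝ _ - s'.pr)) ((L ^ n) (v - s.pr v)) := by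
      show _ = (L' ^ n) ((L ^ n) (v - s.pr v) - s'.pr ((L ^ n) (v - s.pr v)))
      rw [map_sub (L' ^ n), ← pr_pow_Hyp s', inv_pow_Hyp hi]
    have e2 : ‖(L ^ n) (v - s.pr v)‖ ≤ C * μ ^ n * ‖v‖ := bd_Hyp s (hC n) v
    have hC0 : 0 ≤ C' * (1 + (1 - μ)) ^ n := (norm_nonneg _).trans (hC' n)
    rw [e1]
    calc _ ≤ C' * (1 + (1 - μ)) ^ n * ‖(L ^ n) (v - s.pr v)‖ :=
          (ContinuousLinearMap.le_opNorm _ _).trans
            (mul_le_mul_of_nonneg_right (hC' n) (norm_nonneg _))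
      _ ≤ C' * (1 + (1 - μ)) ^ n * (C * μ ^ n * ‖v‖) := mul_le_mul_of_nonneg_left e2 hC0
      _ = _ := by rw [mul_pow]; ring
  refine ContinuousLinearMap.ext fun v => ?_
  show s'.pr v = v - s.pr v
  have h3 := h2 v
  rw [map_sub s'.pr, h1 v, sub_zero, sub_eq_zero] at h3
  exact h3.symm

theorem pr_inv (hA : IsHyperbolicMatrix A) (s : Split (lin A)) (s' : Split (lin A⁻¹)) :
    s'.pr = ContinuousLinearMap.id ℝ _ - s.pr :=
  pr_inv_gen_Hyp (fun v => DFunLike.congr_fun (lin_inv hA).2 v) s s' (decay hA s)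

theorem pow_split {E : Type*} [NormedAddCommGroup E] [NormedSpace ℝ E] {L : E →L[ℝ] E}
    (s : Split L) {m : ℕ} (hm : 0 < m) : ∃ s' : Split (L ^ m), s'.pr = s.pr ∧ s'.J = s.J ^ m := by
  have hJ : s.pr ∘L (s.J ^ m) = s.J ^ m := by
    obtain ⟨j, rfl⟩ : ∃ j, m = j + 1 := ⟨m - 1, by omega⟩
    rw [pow_succ']
    refine ContinuousLinearMap.ext fun v => ?_
    exact DFunLike.congr_fun s.pr_J ((s.J ^ j) v)
  refine ⟨{
    pr := s.pr
    J := s.J ^ m
    pr_pr := s.pr_pr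
    L_J := ContinuousLinearMap.ext fun v => s.L_pow_J_pow hm v
    J_L := ContinuousLinearMap.ext fun v => s.J_pow_L_pow hm v
    pr_J := hJ
    fast := ?_
    slow := ?_ }, rfl, rfl⟩
  · obtain ⟨C, μ, hμ, hμ1, hC⟩ := s.fast
    refine ⟨C, μ ^ m, pow_pos hμ m, pow_lt_one₀ hμ.le hμ1 hm.ne', fun n => ?_⟩
    rw [← pow_mul, ← pow_mul]
    exact hC (m * n)
  · intro ε hε
    have h1 : (1 : ℝ) < 1 + ε := by linarith
    obtain ⟨y, hy⟩ : ∃ y : ℝ, y = (1 + ε) ^ ((m : ℝ)⁻¹) := ⟨_, rfl⟩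
    have hy1 : 1 < y := by
      rw [hy]
      exact Real.one_lt_rpow h1 (inv_pos.2 (by exact_mod_cast hm))
    have hym : y ^ m = 1 + ε := by
      rw [hy]
      exact Real.rpow_inv_natCast_pow (by linarith) hm.ne'
    obtain ⟨C, hC⟩ := s.slow (y - 1) (by linarith)
    refine ⟨C, fun n => ?_⟩
    have h2 := hC (m * n)
    rw [add_sub_cancel, pow_mul, pow_mul, hym] at h2
    exact h2

theorem one_sub_injective (hA : IsHyperbolicMatrix A) {m : ℕ} (hm : 0 < m) {v : Fin k → ℝ}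
    (hv : (lin A ^ m) v = v) : v = 0 := by
  obtain ⟨g⟩ := Pool.Agent.ANO.Cone.exists_linGeo A hA
  have hl := g.one_lt
  have h1 := NU_pow_Hyp g m v
  have h2 := NS_pow_Hyp g m v
  rw [hv] at h1 h2
  have h3 : 1 < g.lam ^ m := one_lt_pow₀ hl hm.ne'
  have h4 := g.NU_nonneg v
  have h5 := g.NS_nonneg v
  have h6 := g.lower v
  rw [← norm_le_zero_iff]
  nlinarith

end Pool.Agent.ANO5.Lin
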