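import Pool.Agent.ANO5.A3.Sys.Setting
import Pool.Agent.ANO5.Lin.Gen

/-!
# ANO5, module Lin: the deck group of the base (package LIN-BASE)

The base is `ℍ^r × N.W`; `N : Fib` is an explicit variable (the instance on `ℍ^r × N.W × ℝ^k` is a
different one). `DG N S` is the group of deck transformations of the base, as permutations.

`mem_DG`: unfold (`Subgroup.mem_map`, `Subgroup.mem_prod`, `Subgroup.mem_pi`, `Subgroup.mem_map`).
`DG_iso`: `SL(2, ℝ)` and `N.Γ` act by isometries (as in `A2.Dyn.IsDeck.isometry`, with `letI := N`).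
`DG_finite`: `A2.Dyn.deck_finite` (with `letI := N`) and injectivity of `g ↦ ⇑g`.
`DG_cocompact`: `A2.Dyn.deck_cocompact`.
`DG_gen`: `Lin.gen` for the action of `DG N S` on the base: `(Fin r → ℍ) × N.W` is proper and
connected (`Fib.connected`).
`baseMap_conj`: `f_i` normalizes `Γ_i` (`SurfaceMap.normalizes`, `normalizes'`).
`h_eq_sum`: induction on a finite set `s ⊆ Fin r`: `h (pk N (a on s, 1 off s, 1)) =
∑_(i ∈ s) h (pk N (Pi.mulSingle i (a i), 1))`, since
`(a on insert i s) = (a on s) * Pi.mulSingle i (a i)`; and `(a, δ) = (a, 1) * (1, δ)`.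
-/

set_option autoImplicit false

open scoped UpperHalfPlane MatrixGroups
open Set Filter Topology

namespace Pool.Agent.ANO5.Lin

open Pool.Agent.ANO5.A1 Pool.Agent.ANO5.A2 Pool.Agent.ANO5.A3

variable (N : Fib) {r : ℕ}

/-- The product of permutations of `ℍ` and of `N.W`. -/
def pk : (Fin r → Equiv.Perm ℍ) × Equiv.Perm N.W →* Equiv.Perm ((Fin r → ℍ) × N.W) where
  toFun a :=
    { toFun := fun x => (fun i => a.1 i (x.1 i), a.2 x.2)
      invFun := fun x => (fun i => (a.1 i).symm (x.1 i), a.2.symm x.2)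
      left_inv := fun x => by simp
      right_inv := fun x => by simp }
  map_one' := rfl
  map_mul' _ _ := rfl

/-- The image of a subgroup of `SL(2, ℝ)` in the permutations of `ℍ`. -/
noncomputable def im (Γ : Subgroup SL(2, ℝ)) : Subgroup (Equiv.Perm ℍ) :=
  Γ.map (MulAction.toPermHom SL(2, ℝ) ℍ)

/-- The deck transformations of the base. -/
noncomputable def DG (S : Fin r → SurfaceMap) : Subgroup (Equiv.Perm ((Fin r → ℍ) × N.W)) :=
  ((Subgroup.pi univ fun i => im (S i).Γ).prod N.Γ).map (pk N)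

variable {N}

theorem pk_apply (a : Fin r → Equiv.Perm ℍ) (δ : Equiv.Perm N.W) (x : (Fin r → ℍ) × N.W) :
    pk N (a, δ) x = (fun i => a i (x.1 i), δ x.2) := rfl

private theorem pkmem_Base {S : Fin r → SurfaceMap} {a : Fin r → Equiv.Perm ℍ}
    (ha : ∀ i, a i ∈ im (S i).Γ) {δ : Equiv.Perm N.W} (hδ : δ ∈ N.Γ) :
    pk N (a, δ) ∈ DG N S :=
  Subgroup.mem_map_of_mem _ (Subgroup.mem_prod.2
    ⟨(Subgroup.mem_pi _).2 fun i _ => ha i, hδ⟩)

private theorem expk_Base {S : Fin r → SurfaceMap} {g : Equiv.Perm ((Fin r → ℍ) × N.W)}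
    (hg : g ∈ DG N S) : ∃ (a : Fin r → Equiv.Perm ℍ) (δ : Equiv.Perm N.W),
      (∀ i, a i ∈ im (S i).Γ) ∧ δ ∈ N.Γ ∧ g = pk N (a, δ) := by
  obtain ⟨⟨a, δ⟩, h, rfl⟩ := Subgroup.mem_map.1 hg
  obtain ⟨h1, h2⟩ := Subgroup.mem_prod.1 h
  exact ⟨a, δ, fun i => (Subgroup.mem_pi _).1 h1 i (mem_univ i), h2, rfl⟩

theorem mem_im {Γ : Subgroup SL(2, ℝ)} {a : Equiv.Perm ℍ} :
    a ∈ im Γ ↔ ∃ γ ∈ Γ, ∀ z, a z = γ • z := by
  constructor
  · intro h
    obtain ⟨γ, hγ, rfl⟩ := Subgroup.mem_map.1 h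
    exact ⟨γ, hγ, fun z => rfl⟩
  · rintro ⟨γ, hγ, h⟩
    exact Subgroup.mem_map.2 ⟨γ, hγ, Equiv.ext fun z => (h z).symm⟩

theorem mem_DG {S : Fin r → SurfaceMap} {g : Equiv.Perm ((Fin r → ℍ) × N.W)} :
    g ∈ DG N S ↔ ∃ (γ : Fin r → SL(2, ℝ)) (δ : Equiv.Perm N.W), InΓ S γ ∧ δ ∈ N.Γ ∧
      ∀ x, g x = (fun i => γ i • x.1 i, δ x.2) := by
  constructor
  · intro hg
    obtain ⟨a, δ, ha, hδ, rfl⟩ := expk_Base hg
    choose γ hγ haγ using fun i => mem_im.1 (ha i)
    refine ⟨γ, δ, hγ, hδ, fun x => ?_⟩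
    rw [pk_apply]
    refine Prod.ext ?_ rfl
    funext i
    exact haγ i _
  · rintro ⟨γ, δ, hγ, hδ, h⟩
    have h1 : g = pk N (fun i => MulAction.toPermHom SL(2, ℝ) ℍ (γ i), δ) :=
      Equiv.ext fun x => h x
    rw [h1]
    exact pkmem_Base (fun i => mem_im.2 ⟨γ i, hγ i, fun z => rfl⟩) hδ

theorem pk_mem_DG {S : Fin r → SurfaceMap} {a : Fin r → Equiv.Perm ℍ}
    (ha : ∀ i, a i ∈ im (S i).Γ) {δ : Equiv.Perm N.W} (hδ : δ ∈ N.Γ) :
    pk N (a, δ) ∈ DG N S := by
  exact pkmem_Base ha hδ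

theorem exists_pk {S : Fin r → SurfaceMap} {g : Equiv.Perm ((Fin r → ℍ) × N.W)}
    (hg : g ∈ DG N S) : ∃ (a : Fin r → Equiv.Perm ℍ) (δ : Equiv.Perm N.W),
      (∀ i, a i ∈ im (S i).Γ) ∧ δ ∈ N.Γ ∧ g = pk N (a, δ) := by
  exact expk_Base hg

theorem DG_iso {S : Fin r → SurfaceMap} (g : DG N S) (x y : (Fin r → ℍ) × N.W) :
    dist (g • x) (g • y) = dist x y := by
  obtain ⟨γ, δ, hγ, hδ, h⟩ := mem_DG.1 g.2
  letI := N
  have h1 : IsDeck (surf S) (⇑g.1 : X r → X r) := ⟨γ, δ, hγ, hδ, h⟩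
  exact (A2.Dyn.IsDeck.isometry h1).dist_eq x y

theorem DG_finite (S : Fin r → SurfaceMap) (K : Set ((Fin r → ℍ) × N.W)) (hK : IsCompact K) :
    {g : DG N S | ∃ x ∈ K, g • x ∈ K}.Finite := by
  letI := N
  have h1 := A2.Dyn.deck_finite (S := surf S) (K := (K : Set (X r))) hK
  refine (h1.preimage (f := fun g : DG N S => (⇑g.1 : X r → X r)) ?_).subset ?_
  · intro g _ g' _ h
    exact Subtype.ext (Equiv.coe_fn_injective h)
  · rintro g ⟨x, hx, hgx⟩
    obtain ⟨γ, δ, hγ, hδ, h⟩ := mem_DG.1 g.2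
    exact ⟨⟨γ, δ, hγ, hδ, h⟩, x, hx, hgx⟩

theorem DG_cocompact (N : Fib) (S : Fin r → SurfaceMap) : ∃ K : Set ((Fin r → ℍ) × N.W),
    IsCompact K ∧ ∀ x, ∃ g : DG N S, g • x ∈ K := by
  letI := N
  obtain ⟨K, hK, h⟩ := A2.Dyn.deck_cocompact (surf S)
  refine ⟨K, hK, fun x => ?_⟩
  obtain ⟨g, ⟨γ, δ, hγ, hδ, hg⟩, hgx⟩ := h x
  refine ⟨⟨pk N (fun i => MulAction.toPermHom SL(2, ℝ) ℍ (γ i), δ),
    pkmem_Base (fun i => mem_im.2 ⟨γ i, hγ i, fun z => rfl⟩) hδ⟩, ?_⟩
  rw [hg] at hgx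
  exact hgx

theorem DG_gen (N : Fib) (S : Fin r → SurfaceMap) : ∃ T : Set (DG N S), T.Finite ∧
    Subgroup.closure T = ⊤ := by
  obtain ⟨K, hK, h⟩ := DG_cocompact N S
  exact gen (P := (Fin r → ℍ) × N.W) (Δ := DG N S) (fun g x y => DG_iso g x y) hK h
    (fun K hK => DG_finite S K hK)

/-- The base map `(z, y) ↦ (f_i z_i, y)`. -/
noncomputable def baseMap (N : Fib) (S : Fin r → SurfaceMap) : Equiv.Perm ((Fin r → ℍ) × N.W) :=
  pk N (fun i => (S i).f.toEquiv, 1)

theorem baseMap_conj {S : Fin r → SurfaceMap} {g : Equiv.Perm ((Fin r → ℍ) × N.W)} :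
    baseMap N S * g * (baseMap N S)⁻¹ ∈ DG N S ↔ g ∈ DG N S := by
  have hB : ∀ x, baseMap N S x = (fun i => (S i).f (x.1 i), x.2) := fun x => rfl
  have hB' : ∀ x, (baseMap N S)⁻¹ x = (fun i => (S i).f.symm (x.1 i), x.2) := fun x => rfl
  have hinv : ∀ x, (baseMap N S)⁻¹ (baseMap N S x) = x := fun x =>
    (baseMap N S).symm_apply_apply x
  rw [mem_DG, mem_DG]
  constructor
  · rintro ⟨γ', δ, hγ', hδ, h⟩
    choose γ hγ hf using fun i => (S i).normalizes' (γ' i) (hγ' i)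
    refine ⟨γ, δ, hγ, hδ, fun x => ?_⟩
    have h1 := h (baseMap N S x)
    rw [Equiv.Perm.mul_apply, Equiv.Perm.mul_apply, hinv, hB x] at h1
    have h2 : g x = (baseMap N S)⁻¹ (fun i => γ' i • (S i).f (x.1 i), δ x.2) := by
      rw [← h1, hinv]
    rw [h2, hB']
    refine Prod.ext ?_ rfl
    funext i
    show (S i).f.symm (γ' i • (S i).f (x.1 i)) = γ i • x.1 i
    rw [← hf, Homeomorph.symm_apply_apply]
  · rintro ⟨γ, δ, hγ, hδ, h⟩
    choose γ' hγ' hf using fun i => (S i).normalizes (γ i) (hγ i)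
    refine ⟨γ', δ, hγ', hδ, fun x => ?_⟩
    rw [Equiv.Perm.mul_apply, Equiv.Perm.mul_apply, hB', h, hB]
    refine Prod.ext ?_ rfl
    funext i
    show (S i).f (γ i • (S i).f.symm (x.1 i)) = γ' i • x.1 i
    rw [hf, Homeomorph.apply_symm_apply]

/-- an additive function on the deck group of the base is the sum of its parts -/
theorem h_eq_sum {S : Fin r → SurfaceMap} {V : Type*} [AddCommGroup V]
    {h : Equiv.Perm ((Fin r → ℍ) × N.W) → V}
    (hh : ∀ a ∈ DG N S, ∀ b ∈ DG N S, h (a * b) = h a + h b) {a : Fin r → Equiv.Perm ℍ}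
    (ha : ∀ i, a i ∈ im (S i).Γ) {δ : Equiv.Perm N.W} (hδ : δ ∈ N.Γ) :
    h (pk N (a, δ)) = (∑ i, h (pk N (Pi.mulSingle i (a i), 1))) + h (pk N (1, δ)) := by
  classical
  have h1 : h 1 = 0 := by
    have := hh 1 (one_mem _) 1 (one_mem _)
    rw [mul_one] at this
    exact left_eq_add.1 this
  have hone : ∀ i, (1 : Equiv.Perm ℍ) ∈ im (S i).Γ := fun i => one_mem _
  have key : ∀ s : Finset (Fin r), h (pk N (fun i => if i ∈ s then a i else 1, 1)) =
      ∑ i ∈ s, h (pk N (Pi.mulSingle i (a i), 1)) := by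
    intro s
    induction s using Finset.induction_on with
    | empty =>
      rw [Finset.sum_empty, ← h1]
      congr 1
    | insert j s hj ih =>
      have h2 : pk N (fun i => if i ∈ insert j s then a i else 1, 1) =
          pk N (Pi.mulSingle j (a j), 1) * pk N (fun i => if i ∈ s then a i else 1, 1) := by
        rw [← map_mul]
        congr 1
        refine Prod.ext ?_ (mul_one _).symm
        funext i
        show (if i ∈ insert j s then a i else 1) =
          (Pi.mulSingle j (a j) : Fin r → Equiv.Perm ℍ) i * (if i ∈ s then a i else 1)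
        by_cases hi : i = j
        · subst hi
          rw [if_pos (Finset.mem_insert_self _ _), if_neg hj, mul_one, Pi.mulSingle_eq_same]
        · rw [Pi.mulSingle_eq_of_ne hi, one_mul]
          by_cases his : i ∈ s
          · rw [if_pos his, if_pos (Finset.mem_insert_of_mem his)]
          · rw [if_neg his, if_neg (fun h => (Finset.mem_insert.1 h).elim hi his)]
      rw [h2, Finset.sum_insert hj, ← ih]
      refine hh _ (pkmem_Base (fun i => ?_) (one_mem _)) _ (pkmem_Base (fun i => ?_) (one_mem _))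
      · by_cases hi : i = j
        · subst hi
          rw [Pi.mulSingle_eq_same]
          exact ha i
        · rw [Pi.mulSingle_eq_of_ne hi]
          exact hone i
      · show (if i ∈ s then a i else 1) ∈ im (S i).Γ
        by_cases his : i ∈ s
        · rw [if_pos his]
          exact ha i
        · rw [if_neg his]
          exact hone i
  have h3 : pk N (a, δ) = pk N (fun i => if i ∈ Finset.univ then a i else 1, 1) *
      pk N (1, δ) := by
    rw [← map_mul]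
    congr 1
    refine Prod.ext ?_ (one_mul _).symm
    funext i
    show a i = (if i ∈ Finset.univ then a i else 1) * 1
    rw [if_pos (Finset.mem_univ i), mul_one]
  rw [← key, ← hh _ (pkmem_Base (fun i => ?_) (one_mem _)) _ (pkmem_Base (a := 1) hone hδ), ← h3]
  rw [if_pos (Finset.mem_univ i)]
  exact ha i

end Pool.Agent.ANO5.Lin
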