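import Mathlib

/-!
# ANO5, module Lin: growth along quasi-orbits (package LIN-GROW)

`grow_of_diff`: induction on `M` (with `Λ` and `ψ` fixed, for all `h`). `M = 0`: `h g = 0` on `Λ`.
`M + 1`: `h' g = h (ψ g) - h g` satisfies the hypothesis for `M`, so
`‖h' (ψ^j g)‖ ≤ D (1+ε)^j`, and `h (ψ^n g) = h g + ∑_(j<n) h' (ψ^j g)`, so
`‖h (ψ^n g)‖ ≤ ‖h g‖ + D ∑_(j<n) (1+ε)^j ≤ (‖h g‖ + D / ε) (1+ε)^n` (`D ≥ 0`, from `j = 0`).

`grow`: put `s n = g (n+1) * (ψ (g n))⁻¹ ∈ Λ` and `q = ψ (g n) • p (n+1)`. Then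
`dist q (G' (g n • p n)) = dist (ψ (g n) • p (n+1)) (ψ (g n) • G' (p n)) ≤ C`, so `q` is in
`K' = cthickening C (G' '' K)` (compact), and `s n • q = g (n+1) • p (n+1) ∈ K`. So `s n` is in the
finite set `F = {g | ∃ x ∈ K ∪ K', g • x ∈ K ∪ K'}`. Let `D₁` be a common constant of `hsub` for the
elements of `F ∩ Λ` and `D₀ ≥ 0` the one for `g 0`. By induction on `n`, for all `j`
`‖h (ψ^j (g n))‖ ≤ D₀ (1+ε)^(n+j) + D₁ ∑_(i<n) (1+ε)^(i+j)`
(`g (n+1) = s n * ψ (g n)`, `h (ψ^j (g (n+1))) = h (ψ^j (s n)) + h (ψ^(j+1) (g n))`, and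
`‖h (ψ^j (s n))‖ ≤ D₁ (1+ε)^j`). For `j = 0`: `≤ (D₀ + D₁ / ε) (1+ε)^n`.
-/

set_option autoImplicit false

open Set Filter Topology

namespace Pool.Agent.ANO5.Lin

private theorem iter_mul_Grow {Δ : Type*} [Group Δ] {ψ : Δ → Δ}
    (hψ : ∀ a b, ψ (a * b) = ψ a * ψ b) (j : ℕ) (a b : Δ) :
    ψ^[j] (a * b) = ψ^[j] a * ψ^[j] b := by
  induction j with
  | zero => rfl
  | succ j ih =>
    rw [Function.iterate_succ_apply', Function.iterate_succ_apply', Function.iterate_succ_apply',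
      ih, hψ]

private theorem iter_mem_Grow {Δ : Type*} {Λ : Set Δ} {ψ : Δ → Δ} (hψ : ∀ g ∈ Λ, ψ g ∈ Λ)
    (j : ℕ) {g : Δ} (hg : g ∈ Λ) : ψ^[j] g ∈ Λ := by
  induction j with
  | zero => exact hg
  | succ j ih =>
    rw [Function.iterate_succ_apply']
    exact hψ _ ih

/-- a function whose `M`-th differences vanish grows subexponentially along orbits -/
theorem grow_of_diff {Δ : Type*} {Λ : Set Δ} {ψ : Δ → Δ} (hψ : ∀ g ∈ Λ, ψ g ∈ Λ) {V : Type*}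
    [NormedAddCommGroup V] (M : ℕ) {h : Δ → V}
    (hM : ∀ g ∈ Λ, (fun (h : Δ → V) (g : Δ) => h (ψ g) - h g)^[M] h g = 0) :
    ∀ g ∈ Λ, ∀ ε > (0 : ℝ), ∃ D : ℝ, ∀ n : ℕ, ‖h (ψ^[n] g)‖ ≤ D * (1 + ε) ^ n := by
  induction M generalizing h with
  | zero =>
    intro g hg ε _
    refine ⟨0, fun n => ?_⟩
    have h1 : h (ψ^[n] g) = 0 := hM _ (iter_mem_Grow hψ n hg)
    rw [h1, norm_zero, zero_mul]
  | succ M ih =>
    intro g hg ε hε
    obtain ⟨D, hD⟩ := ih (h := fun g => h (ψ g) - h g) (fun g hg => hM g hg) g hg ε hε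
    have hD0 : 0 ≤ D := by
      have h1 := (norm_nonneg _).trans (hD 0)
      rwa [pow_zero, mul_one] at h1
    have hp : ∀ n : ℕ, (1 : ℝ) ≤ (1 + ε) ^ n := fun n => one_le_pow₀ (by linarith)
    have key : ∀ n : ℕ, ‖h (ψ^[n] g)‖ ≤ ‖h g‖ + D / ε * ((1 + ε) ^ n - 1) := by
      intro n
      induction n with
      | zero =>
        rw [pow_zero, sub_self, mul_zero, add_zero]
        exact le_rfl
      | succ n ihn =>
        have h1 : h (ψ^[n + 1] g) = h (ψ^[n] g) + (h (ψ (ψ^[n] g)) - h (ψ^[n] g)) := by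
          rw [Function.iterate_succ_apply']
          abel
        have h2 : ‖h (ψ (ψ^[n] g)) - h (ψ^[n] g)‖ ≤ D * (1 + ε) ^ n := hD n
        have h3 : D / ε * ((1 + ε) ^ (n + 1) - 1) =
            D / ε * ((1 + ε) ^ n - 1) + D * (1 + ε) ^ n := by
          field_simp
          ring
        rw [h1, h3]
        refine (norm_add_le _ _).trans ?_
        linarith
    refine ⟨‖h g‖ + D / ε, fun n => (key n).trans ?_⟩
    have h1 : 0 ≤ D / ε := div_nonneg hD0 hε.le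
    have h2 : ‖h g‖ * 1 ≤ ‖h g‖ * (1 + ε) ^ n :=
      mul_le_mul_of_nonneg_left (hp n) (norm_nonneg _)
    rw [add_mul]
    nlinarith

/-- `p` is a quasi-orbit of `G'`, `g n` brings `p n` back to a compact set, and `h` grows
subexponentially along the orbits of `ψ` in `Λ`: then `h (g n)` grows subexponentially. -/
theorem grow {P : Type*} [MetricSpace P] [ProperSpace P] {Δ : Type*} [Group Δ] [MulAction Δ P]
    (hiso : ∀ (g : Δ) (x y : P), dist (g • x) (g • y) = dist x y)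
    (hprop : ∀ K : Set P, IsCompact K → {g : Δ | ∃ x ∈ K, g • x ∈ K}.Finite)
    {G' : P → P} (hG' : Continuous G') {ψ : Δ → Δ} (hψ : ∀ a b, ψ (a * b) = ψ a * ψ b)
    (hGψ : ∀ g p, G' (g • p) = ψ g • G' p) {Λ : Subgroup Δ} (hΛ : ∀ g ∈ Λ, ψ g ∈ Λ)
    {V : Type*} [NormedAddCommGroup V] {h : Δ → V} (hh : ∀ a b, h (a * b) = h a + h b)
    (hsub : ∀ g ∈ Λ, ∀ ε > (0 : ℝ), ∃ D : ℝ, ∀ n : ℕ, ‖h (ψ^[n] g)‖ ≤ D * (1 + ε) ^ n)
    {p : ℕ → P} {C : ℝ} (hp : ∀ n, dist (p (n + 1)) (G' (p n)) ≤ C) {K : Set P}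
    (hK : IsCompact K) {g : ℕ → Δ} (hg : ∀ n, g n ∈ Λ) (hgK : ∀ n, g n • p n ∈ K) :
    ∀ ε > (0 : ℝ), ∃ D : ℝ, ∀ n : ℕ, ‖h (g n)‖ ≤ D * (1 + ε) ^ n := by
  intro ε hε
  have hp1 : ∀ n : ℕ, (1 : ℝ) ≤ (1 + ε) ^ n := fun n => one_le_pow₀ (by linarith)
  set K' : Set P := Metric.cthickening C (G' '' K) with hK'
  have hK'c : IsCompact K' := (hK.image hG').cthickening
  set F : Set Δ := {t : Δ | ∃ x ∈ K ∪ K', t • x ∈ K ∪ K'} with hF
  have hFf : F.Finite := hprop _ (hK.union hK'c)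
  set s : ℕ → Δ := fun n => g (n + 1) * (ψ (g n))⁻¹ with hs
  have hsΛ : ∀ n, s n ∈ Λ := fun n => Λ.mul_mem (hg (n + 1)) (Λ.inv_mem (hΛ _ (hg n)))
  have hsF : ∀ n, s n ∈ F := by
    intro n
    have hq : ψ (g n) • p (n + 1) ∈ K' := by
      refine Metric.mem_cthickening_of_dist_le _ (G' (g n • p n)) _ _ ⟨_, hgK n, rfl⟩ ?_
      rw [hGψ, hiso]
      exact hp n
    refine ⟨ψ (g n) • p (n + 1), Or.inr hq, Or.inl ?_⟩
    have h1 : s n • ψ (g n) • p (n + 1) = g (n + 1) • p (n + 1) := by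
      rw [hs, smul_smul, inv_mul_cancel_right]
    rw [h1]
    exact hgK (n + 1)
  have hex : ∀ t : Δ, ∃ D : ℝ, t ∈ Λ → ∀ n : ℕ, ‖h (ψ^[n] t)‖ ≤ D * (1 + ε) ^ n := by
    intro t
    by_cases ht : t ∈ Λ
    · obtain ⟨D, hD⟩ := hsub t ht ε hε
      exact ⟨D, fun _ => hD⟩
    · exact ⟨0, fun h1 => absurd h1 ht⟩
  choose D hD using hex
  set D₁ : ℝ := ∑ t ∈ hFf.toFinset, |D t| with hD₁
  have hD₁0 : 0 ≤ D₁ := Finset.sum_nonneg fun t _ => abs_nonneg _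
  have hs1 : ∀ n j : ℕ, ‖h (ψ^[j] (s n))‖ ≤ D₁ * (1 + ε) ^ j := by
    intro n j
    refine (hD (s n) (hsΛ n) j).trans ?_
    refine mul_le_mul_of_nonneg_right ?_ (zero_le_one.trans (hp1 j))
    refine (le_abs_self _).trans ?_
    exact Finset.single_le_sum (f := fun t => |D t|) (fun t _ => abs_nonneg _)
      (hFf.mem_toFinset.2 (hsF n))
  have hsg : ∀ n, g (n + 1) = s n * ψ (g n) := by
    intro n
    rw [hs]
    exact (inv_mul_cancel_right _ _).symm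
  have key : ∀ n j : ℕ, ‖h (ψ^[j] (g n))‖ ≤
      D (g 0) * (1 + ε) ^ (n + j) + D₁ / ε * ((1 + ε) ^ (n + j) - (1 + ε) ^ j) := by
    intro n
    induction n with
    | zero =>
      intro j
      rw [Nat.zero_add, sub_self, mul_zero, add_zero]
      exact hD (g 0) (hg 0) j
    | succ n ih =>
      intro j
      have h1 : h (ψ^[j] (g (n + 1))) = h (ψ^[j] (s n)) + h (ψ^[j + 1] (g n)) := by
        rw [hsg n, iter_mul_Grow hψ, hh, Function.iterate_succ_apply]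
      have h2 := ih (j + 1)
      have h3 := hs1 n j
      have h4 : n + (j + 1) = n + 1 + j := by ring
      rw [h4] at h2
      have h5 : D₁ / ε * ((1 + ε) ^ (n + 1 + j) - (1 + ε) ^ j) = D₁ * (1 + ε) ^ j +
          D₁ / ε * ((1 + ε) ^ (n + 1 + j) - (1 + ε) ^ (j + 1)) := by
        field_simp
        ring
      rw [h1, h5]
      refine (norm_add_le _ _).trans ?_
      linarith
  refine ⟨D (g 0) + D₁ / ε, fun n => ?_⟩
  have h1 := key n 0
  have h2 : 0 ≤ D₁ / ε := div_nonneg hD₁0 hε.le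
  rw [add_zero, pow_zero] at h1
  have h3 : ψ^[0] (g n) = g n := rfl
  rw [h3] at h1
  refine h1.trans ?_
  rw [add_mul]
  nlinarith

end Pool.Agent.ANO5.Lin
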