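import Pool.Agent.ANO3.Surf.Rev
import Pool.Agent.ANO3.Surf.Reg
import Pool.Agent.ANO5.Defs
import Pool.Agent.ANO5.Lin.Base
import Pool.Agent.ANO5.Lin.Grow
import Pool.Agent.ANO5.Typ.Unip

/-!
# ANO5, module Lin: the stabilizer of a point of the trees (package LIN-UNIP)

`stab F v` is the stabilizer of the point `v` of the two trees, as a group of permutations of `ℍ`.
`mul_mem'`: `du v (a b v) ≤ du v (a v) + du (a v) (a b v) = 0 + du v (b v) = 0` (`Flat.du_smul`,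
`Flat.du_nonneg`); the same for `ds`.
`FUnip F`: for every `v ∉ U` some lift `H` of a power which fixes the point `v` of the trees acts
unipotently on the additive functions on `stab F v`.

`stab_conj`: `H (a (H⁻¹ z))` is an element of `im Γ` (`IsLiftPow.conj`, `IsLiftPow.conj'`), and
`Eqv v (H a H⁻¹ v)`: `Eqv (H v) v`, so `Eqv (H⁻¹ v) v` (`Flat.du_lift_zero`), so
`Eqv (a H⁻¹ v) (a v)`, `Eqv (a v) v`, so `Eqv (H a H⁻¹ v) (H v)`.
`Normal.funip`: `H` with `H z = γ • f^[m] z` (`exists_liftPow`), `n` from `UnipOn`. Let `h` be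
additive on `stab F v`. Let `h' γ = h (toPerm γ)`, and choose `ψ` with `H (δ • z) = ψ δ • H z`,
`ψ δ ∈ stabSet` for `δ ∈ stabSet` (`IsLiftPow.conj`); `toPerm (ψ δ) = H (toPerm δ) H⁻¹`. By
induction on `n`, `(Dl H)^[n] h (toPerm δ) = (h' ↦ h' ∘ ψ - h')^[n] h' δ`.
`FUnip.rev`: `stab F.rev v = stab F v`, and `H⁻¹` is a lift of the power of `f⁻¹`
(`IsLiftPow.symm`). Unipotence of `H⁻¹`: let `(C h) p = h (H⁻¹ p H)`. Then
`Dl H⁻¹ h = - C (Dl H h)`, and `C` commutes with `Dl H`, so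
`(Dl H⁻¹)^[M] h p = ± (Dl H)^[M] h (H^(-M) p H^M) = 0`.
`stab_reg`: `Flat.eq_of_zero` and `free`.
`FUnip.pow`: let `H` be the lift of `f^m` given by `FUnip`, `H'` a lift of `f^m'`. Then `H'^m` and
`H^m'` are lifts of `f^(m m')` (`IsLiftPow.iterate`), so `H'^m = a H^m'` with `a ∈ im Γ`, and
`Eqv v (a v)` as both fix the point `v`: `Typ.Unip.pow`.
`FUnip.grow`: let `j > 0` with `Unip (stab F v) (H^j) M`. `grow_of_diff` for `ψ a = H^j a H^(-j)`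
gives the growth of `h (H^(j n) a H^(-j n))` for each `a ∈ stab F v`; for `n = j q + i`, `i < j`,
use it for the element `H^i a H^(-i)`, and `(1 + ε)^q ≤ (1 + ε)^n`.
For `v` regular the stabilizer is trivial and `h 1 = 0`.
-/

set_option autoImplicit false

open scoped UpperHalfPlane MatrixGroups
open Set Filter Topology

namespace Pool.Agent.ANO5.Lin

open Pool.Agent.ANO3 Pool.Agent.ANO5.A3

variable {S : SurfaceMap}

private theorem eqv_refl_Unip (F : Flat S) (a : ℍ) : F.Eqv a a :=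
  ⟨F.dual_u.self a, F.dual_s.self a⟩

private theorem eqv_symm_Unip {F : Flat S} {a b : ℍ} (h : F.Eqv a b) : F.Eqv b a :=
  ⟨(F.dual_u.symm b a).trans h.1, (F.dual_s.symm b a).trans h.2⟩

private theorem eqv_trans_Unip {F : Flat S} {a b c : ℍ} (h : F.Eqv a b) (h' : F.Eqv b c) :
    F.Eqv a c := by
  refine ⟨le_antisymm ?_ (F.du_nonneg a c), le_antisymm ?_ (F.ds_nonneg a c)⟩
  · have h1 := F.dual_u.triangle a b c
    rwa [h.1, h'.1, add_zero] at h1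
  · have h1 := F.dual_s.triangle a b c
    rwa [h.2, h'.2, add_zero] at h1

private theorem eqv_lift_Unip {F : Flat S} {m : ℕ} {H : ℍ ≃ₜ ℍ} (hH : IsLiftPow S m H)
    {a b : ℍ} : F.Eqv (H a) (H b) ↔ F.Eqv a b :=
  and_congr (F.du_lift_zero hH a b) (F.ds_lift_zero hH a b)

private theorem eqv_im_Unip {F : Flat S} {a : Equiv.Perm ℍ} (ha : a ∈ im S.Γ) {x y : ℍ} :
    F.Eqv (a x) (a y) ↔ F.Eqv x y := by
  obtain ⟨γ, hγ, h⟩ := mem_im.1 ha
  unfold Flat.Eqv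
  rw [h, h, F.du_smul hγ, F.ds_smul hγ]

/-- The stabilizer of the point `v` of the trees. -/
noncomputable def stab (F : Flat S) (v : ℍ) : Subgroup (Equiv.Perm ℍ) where
  carrier := {a | a ∈ im S.Γ ∧ F.Eqv v (a v)}
  mul_mem' := by
    intro a b ha hb
    refine ⟨Subgroup.mul_mem _ ha.1 hb.1, ?_⟩
    exact eqv_trans_Unip ha.2 ((eqv_im_Unip ha.1).2 hb.2)
  one_mem' := by
    exact ⟨Subgroup.one_mem _, eqv_refl_Unip F v⟩
  inv_mem' := by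
    intro a ha
    refine ⟨Subgroup.inv_mem _ ha.1, ?_⟩
    rw [← eqv_im_Unip ha.1]
    show F.Eqv (a v) (a (a.symm v))
    rw [Equiv.apply_symm_apply]
    exact eqv_symm_Unip ha.2

/-- The unipotence condition. -/
def FUnip (F : Flat S) : Prop :=
  ∀ v ∉ F.U, ∃ (m : ℕ) (H : ℍ ≃ₜ ℍ) (M : ℕ), 0 < m ∧ IsLiftPow S m H ∧ F.Eqv v (H v) ∧
    Typ.Unip (stab F v : Set (Equiv.Perm ℍ)) H.toEquiv M

theorem mem_stab {F : Flat S} {v : ℍ} {a : Equiv.Perm ℍ} :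
    a ∈ stab F v ↔ a ∈ im S.Γ ∧ F.Eqv v (a v) := Iff.rfl

theorem mem_stab_iff {F : Flat S} {v : ℍ} {a : Equiv.Perm ℍ} :
    a ∈ stab F v ↔ ∃ γ ∈ S.Γ, F.Eqv v (γ • v) ∧ ∀ z, a z = γ • z := by
  constructor
  · rintro ⟨h1, h2⟩
    obtain ⟨γ, hγ, h⟩ := mem_im.1 h1
    refine ⟨γ, hγ, ?_, h⟩
    rw [← h]
    exact h2
  · rintro ⟨γ, hγ, h1, h2⟩
    refine ⟨mem_im.2 ⟨γ, hγ, h2⟩, ?_⟩
    rw [h2]
    exact h1

theorem stab_conj {F : Flat S} {v : ℍ} {m : ℕ} {H : ℍ ≃ₜ ℍ} (hH : IsLiftPow S m H)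
    (he : F.Eqv v (H v)) {a : Equiv.Perm ℍ} :
    H.toEquiv * a * (H.toEquiv)⁻¹ ∈ stab F v ↔ a ∈ stab F v := by
  have happ : ∀ z, (H.toEquiv * a * (H.toEquiv)⁻¹) (H z) = H (a z) := by
    intro z
    show H (a (H.symm (H z))) = H (a z)
    rw [Homeomorph.symm_apply_apply]
  constructor
  · intro hb
    obtain ⟨γ', hγ', h1, h2⟩ := mem_stab_iff.1 hb
    obtain ⟨γ, hγ, h3⟩ := hH.conj' γ' hγ'
    refine ⟨mem_im.2 ⟨γ, hγ, fun z => ?_⟩, ?_⟩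
    · apply H.injective
      rw [← happ, h2, h3]
    · rw [← eqv_lift_Unip hH, ← happ]
      exact eqv_trans_Unip (eqv_symm_Unip he)
        (eqv_trans_Unip hb.2 ((eqv_im_Unip hb.1).2 he))
  · intro ha
    obtain ⟨γ, hγ, h1, h2⟩ := mem_stab_iff.1 ha
    obtain ⟨γ', hγ', h3⟩ := hH.conj γ hγ
    have h4 : ∀ z, (H.toEquiv * a * (H.toEquiv)⁻¹) z = γ' • z := by
      intro z
      obtain ⟨w, rfl⟩ := H.surjective z
      rw [happ, h2, h3]
    have hm : H.toEquiv * a * (H.toEquiv)⁻¹ ∈ im S.Γ := mem_im.2 ⟨γ', hγ', h4⟩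
    refine ⟨hm, ?_⟩
    -- `Eqv v (b v)`: `Eqv (b v) (b (H v))`, `b (H v) = H (a v)`, `Eqv (H v) (H (a v))`
    have h5 : F.Eqv ((H.toEquiv * a * (H.toEquiv)⁻¹) v)
        ((H.toEquiv * a * (H.toEquiv)⁻¹) (H v)) := (eqv_im_Unip hm).2 he
    rw [happ] at h5
    exact eqv_trans_Unip he
      (eqv_trans_Unip ((eqv_lift_Unip hH).2 ha.2) (eqv_symm_Unip h5))

private theorem toPerm_mem_Unip {F : Flat S} {v : ℍ} {γ : SL(2, ℝ)} (hγ : γ ∈ S.Γ)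
    (h : F.Eqv v (γ • v)) : MulAction.toPermHom SL(2, ℝ) ℍ γ ∈ stab F v :=
  mem_stab_iff.2 ⟨γ, hγ, h, fun _ => rfl⟩

theorem Normal.funip (N : Normal S) : FUnip N.toNormalForm.flat := by
  intro v hv
  obtain ⟨m, γ, hm, hγ, h1, h2, n, hn⟩ := N.unip v hv
  obtain ⟨H, hH, hHz⟩ := exists_liftPow (S := S) m hγ
  have he : N.toNormalForm.flat.Eqv v (H v) := by
    rw [hHz]
    exact ⟨h1, h2⟩
  refine ⟨m, H, n, hm, hH, he, ?_⟩
  intro h hh p hp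
  have hG : ∀ δ ∈ stabSet S.Γ N.du N.ds v,
      MulAction.toPermHom SL(2, ℝ) ℍ δ ∈ stab N.toNormalForm.flat v := fun δ hδ =>
    toPerm_mem_Unip hδ.1 ⟨hδ.2.1, hδ.2.2⟩
  have hex : ∀ δ : SL(2, ℝ), ∃ δ' : SL(2, ℝ), δ ∈ stabSet S.Γ N.du N.ds v →
      δ' ∈ stabSet S.Γ N.du N.ds v ∧ ∀ z : ℍ, H (δ • z) = δ' • H z := by
    intro δ
    by_cases hδ : δ ∈ stabSet S.Γ N.du N.ds v
    · obtain ⟨δ', h3, h4⟩ := hH.conj δ hδ.1
      refine ⟨δ', fun _ => ⟨?_, h4⟩⟩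
      have h5 := (stab_conj hH he).2 (hG δ hδ)
      have h6 : (H.toEquiv * MulAction.toPermHom SL(2, ℝ) ℍ δ * (H.toEquiv)⁻¹) v =
          δ' • v := by
        show H (δ • H.symm v) = δ' • v
        rw [h4, Homeomorph.apply_symm_apply]
      have h7 := h5.2
      rw [h6] at h7
      exact ⟨h3, h7.1, h7.2⟩
    · exact ⟨1, fun h3 => absurd h3 hδ⟩
  choose ψ hψ using hex
  have hconj : ∀ δ ∈ stabSet S.Γ N.du N.ds v, MulAction.toPermHom SL(2, ℝ) ℍ (ψ δ) =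
      H.toEquiv * MulAction.toPermHom SL(2, ℝ) ℍ δ * (H.toEquiv)⁻¹ := by
    intro δ hδ
    refine Equiv.ext fun z => ?_
    show ψ δ • z = H (δ • H.symm z)
    rw [(hψ δ hδ).2, Homeomorph.apply_symm_apply]
  have key : ∀ (k : ℕ) (g : Equiv.Perm ℍ → ℝ) (g' : SL(2, ℝ) → ℝ),
      (∀ δ ∈ stabSet S.Γ N.du N.ds v, g' δ = g (MulAction.toPermHom SL(2, ℝ) ℍ δ)) →
      ∀ δ ∈ stabSet S.Γ N.du N.ds v,
        (fun (h : SL(2, ℝ) → ℝ) δ => h (ψ δ) - h δ)^[k] g' δ =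
          (Typ.Dl H.toEquiv)^[k] g (MulAction.toPermHom SL(2, ℝ) ℍ δ) := by
    intro k
    induction k with
    | zero =>
      intro g g' h3 δ hδ
      exact h3 δ hδ
    | succ k ih =>
      intro g g' h3 δ hδ
      rw [Function.iterate_succ_apply, Function.iterate_succ_apply]
      refine ih _ _ (fun δ' hδ' => ?_) δ hδ
      show g' (ψ δ') - g' δ' = g (H.toEquiv * MulAction.toPermHom SL(2, ℝ) ℍ δ' *
        (H.toEquiv)⁻¹) - g (MulAction.toPermHom SL(2, ℝ) ℍ δ')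
      rw [h3 _ (hψ δ' hδ').1, h3 _ hδ', hconj δ' hδ']
  obtain ⟨δ, hδ, h3, h4⟩ := mem_stab_iff.1 hp
  have hδ' : δ ∈ stabSet S.Γ N.du N.ds v := ⟨hδ, h3.1, h3.2⟩
  have hpδ : p = MulAction.toPermHom SL(2, ℝ) ℍ δ := Equiv.ext fun z => h4 z
  rw [hpδ, ← key n h (fun δ => h (MulAction.toPermHom SL(2, ℝ) ℍ δ)) (fun _ _ => rfl) δ hδ']
  refine hn ψ (fun δ hδ => ⟨(hψ δ hδ).1, fun z => ?_⟩) _ (fun a ha b hb => ?_) δ hδ'
  · have h5 := (hψ δ hδ).2 z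
    rw [hHz, hHz] at h5
    exact h5
  · show h (MulAction.toPermHom SL(2, ℝ) ℍ (a * b)) = _
    rw [map_mul]
    exact hh _ (hG a ha) _ (hG b hb)

theorem stab_rev (F : Flat S) (v : ℍ) : stab F.rev v = stab F v := by
  ext a
  exact and_congr Iff.rfl Flat.eqv_rev

private theorem unip_inv_Unip {G : Type*} [Group G] {s : Subgroup G} {H : G}
    (hH : ∀ p, H * p * H⁻¹ ∈ s ↔ p ∈ s) {M : ℕ} (h : Typ.Unip (s : Set G) H M) :
    Typ.Unip (s : Set G) H⁻¹ M := by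
  intro f hf p hp
  have hmem : ∀ k : ℕ, (H ^ k)⁻¹ * p * H ^ k ∈ s := by
    intro k
    induction k with
    | zero =>
      rw [pow_zero, inv_one, one_mul, mul_one]
      exact hp
    | succ k ih =>
      rw [← hH]
      have e : H * ((H ^ (k + 1))⁻¹ * p * H ^ (k + 1)) * H⁻¹ = (H ^ k)⁻¹ * p * H ^ k := by
        rw [pow_succ]
        group
      rw [e]
      exact ih
  have key : ∀ (k : ℕ) (p : G), (Typ.Dl H⁻¹)^[k] f p =
      (-1) ^ k * (Typ.Dl H)^[k] f ((H ^ k)⁻¹ * p * H ^ k) := by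
    intro k
    induction k with
    | zero =>
      intro p
      rw [pow_zero, pow_zero, inv_one, one_mul, mul_one, one_mul]
      rfl
    | succ k ih =>
      intro p
      rw [Function.iterate_succ_apply', Function.iterate_succ_apply']
      unfold Typ.Dl at ih ⊢
      rw [ih, ih]
      have e1 : (H ^ k)⁻¹ * (H⁻¹ * p * H⁻¹⁻¹) * H ^ k =
          (H ^ (k + 1))⁻¹ * p * H ^ (k + 1) := by
        rw [pow_succ']
        group
      have e2 : H * ((H ^ (k + 1))⁻¹ * p * H ^ (k + 1)) * H⁻¹ = (H ^ k)⁻¹ * p * H ^ k := by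
        rw [pow_succ]
        group
      rw [e1, e2]
      ring
  rw [key M p, h f hf _ (hmem M), mul_zero]

theorem FUnip.rev {F : Flat S} (hF : FUnip F) : FUnip F.rev := by
  intro v hv
  obtain ⟨m, H, M, hm, hH, he, hU⟩ := hF v hv
  refine ⟨m, H.symm, M, hm, hH.symm, ?_, ?_⟩
  · rw [Flat.eqv_rev]
    apply eqv_symm_Unip
    rw [← eqv_lift_Unip hH, Homeomorph.apply_symm_apply]
    exact he
  · rw [stab_rev]
    exact unip_inv_Unip (fun p => stab_conj hH he) hU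

theorem stab_reg {F : Flat S} {v : ℍ} (hv : F.Reg v) : stab F v = ⊥ := by
  rw [Subgroup.eq_bot_iff_forall]
  intro a ha
  obtain ⟨γ, hγ, h1, h2⟩ := mem_stab_iff.1 ha
  have h3 := F.eq_of_zero hv.1 h1.1 h1.2
  refine Equiv.ext fun z => ?_
  rw [h2, S.free γ hγ v h3 z]
  rfl

private theorem lift_pow_Unip {m : ℕ} {H : ℍ ≃ₜ ℍ} (hH : IsLiftPow S m H) (n : ℕ) :
    ∃ K : ℍ ≃ₜ ℍ, IsLiftPow S (m * n) K ∧ K.toEquiv = H.toEquiv ^ n := by
  obtain ⟨K, h1, h2⟩ := hH.iterate n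
  refine ⟨K, h1, Equiv.ext fun z => ?_⟩
  show K z = (H.toEquiv)^[n] z
  rw [h2]
  rfl

private theorem eqv_pow_Unip {F : Flat S} {v : ℍ} {m : ℕ} {H : ℍ ≃ₜ ℍ} (hH : IsLiftPow S m H)
    (he : F.Eqv v (H v)) (n : ℕ) : F.Eqv v ((H.toEquiv ^ n) v) := by
  induction n with
  | zero =>
    rw [pow_zero]
    exact eqv_refl_Unip F v
  | succ n ih =>
    have h1 : (H.toEquiv ^ (n + 1)) v = H ((H.toEquiv ^ n) v) := by
      rw [pow_succ']
      rfl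
    rw [h1]
    exact eqv_trans_Unip he ((eqv_lift_Unip hH).2 ih)

private theorem conj_pow_Unip {F : Flat S} {v : ℍ} {m : ℕ} {H : ℍ ≃ₜ ℍ} (hH : IsLiftPow S m H)
    (he : F.Eqv v (H v)) (n : ℕ) {a : Equiv.Perm ℍ} :
    H.toEquiv ^ n * a * (H.toEquiv ^ n)⁻¹ ∈ stab F v ↔ a ∈ stab F v := by
  obtain ⟨K, h1, h2⟩ := lift_pow_Unip hH n
  have h3 : F.Eqv v (K v) := by
    have h4 := eqv_pow_Unip hH he n
    rw [← h2] at h4
    exact h4
  rw [← h2]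
  exact stab_conj h1 h3

theorem FUnip.pow {F : Flat S} (hF : FUnip F) {v : ℍ} (hv : v ∉ F.U) {m : ℕ} (hm : 0 < m)
    {H : ℍ ≃ₜ ℍ} (hH : IsLiftPow S m H) (he : F.Eqv v (H v)) : ∃ j M : ℕ, 0 < j ∧
      Typ.Unip (stab F v : Set (Equiv.Perm ℍ)) (H.toEquiv ^ j) M := by
  obtain ⟨m', H', M, hm', hH', he', hU⟩ := hF v hv
  obtain ⟨K, ⟨γ, hγ, hK⟩, hK1⟩ := lift_pow_Unip hH m'
  obtain ⟨K', ⟨γ', hγ', hK'⟩, hK1'⟩ := lift_pow_Unip hH' m
  have hmul : ∀ z, (H.toEquiv ^ m') z =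
      (MulAction.toPermHom SL(2, ℝ) ℍ (γ * γ'⁻¹)) ((H'.toEquiv ^ m) z) := by
    intro z
    rw [← hK1, ← hK1']
    show K z = (γ * γ'⁻¹) • K' z
    rw [hK, hK', mul_comm m' m, mul_smul, inv_smul_smul]
  have hΓ : MulAction.toPermHom SL(2, ℝ) ℍ (γ * γ'⁻¹) ∈ im S.Γ :=
    mem_im.2 ⟨_, S.Γ.mul_mem hγ (S.Γ.inv_mem hγ'), fun _ => rfl⟩
  have h1 := eqv_pow_Unip hH he m'
  have h2 := eqv_pow_Unip hH' he' m
  have ha : MulAction.toPermHom SL(2, ℝ) ℍ (γ * γ'⁻¹) ∈ stab F v := by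
    refine ⟨hΓ, ?_⟩
    have h3 := (eqv_im_Unip (F := F) hΓ).2 h2
    rw [← hmul] at h3
    exact eqv_trans_Unip h1 (eqv_symm_Unip h3)
  refine ⟨m', M, hm', ?_⟩
  exact Typ.Unip.pow (s := stab F v) (H := H'.toEquiv) (fun p hp => (stab_conj hH' he').2 hp) hU
    (fun p hp => (conj_pow_Unip hH he m').2 hp) (j := m) ha (Equiv.ext fun z => hmul z)

theorem FUnip.grow {F : Flat S} (hF : FUnip F) {v : ℍ} (hv : F.Reg v ∨ v ∉ F.U) {m : ℕ}
    (hm : 0 < m) {H : ℍ ≃ₜ ℍ} (hH : IsLiftPow S m H) (he : F.Eqv v (H v))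
    {h : Equiv.Perm ℍ → ℝ} (hh : Typ.AddOn (stab F v : Set (Equiv.Perm ℍ)) h)
    {a : Equiv.Perm ℍ} (ha : a ∈ stab F v) : ∀ ε > (0 : ℝ), ∃ D : ℝ, ∀ n : ℕ,
      |h (H.toEquiv ^ n * a * (H.toEquiv ^ n)⁻¹)| ≤ D * (1 + ε) ^ n := by
  intro ε hε
  rcases hv with hv | hv
  · refine ⟨0, fun n => ?_⟩
    have h1 := (conj_pow_Unip hH he n).2 ha
    rw [stab_reg hv, Subgroup.mem_bot] at h1
    rw [h1, hh.one, abs_zero, zero_mul]
  obtain ⟨j, M, hj, hU⟩ := hF.pow hv hm hH he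
  have hgr : ∀ g ∈ stab F v, ∃ D : ℝ, ∀ n : ℕ,
      ‖h ((fun b => H.toEquiv ^ j * b * (H.toEquiv ^ j)⁻¹)^[n] g)‖ ≤ D * (1 + ε) ^ n := by
    intro g hg
    exact grow_of_diff (Λ := (stab F v : Set (Equiv.Perm ℍ)))
      (ψ := fun b => H.toEquiv ^ j * b * (H.toEquiv ^ j)⁻¹)
      (fun b hb => (conj_pow_Unip hH he j).2 hb) M (fun b hb => hU h hh b hb) g hg ε hε
  have hit : ∀ (q : ℕ) (g : Equiv.Perm ℍ),
      (fun b => H.toEquiv ^ j * b * (H.toEquiv ^ j)⁻¹)^[q] g =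
        H.toEquiv ^ (j * q) * g * (H.toEquiv ^ (j * q))⁻¹ := by
    intro q
    induction q with
    | zero =>
      intro g
      rw [Nat.mul_zero, pow_zero, inv_one, one_mul, mul_one]
      rfl
    | succ q ih =>
      intro g
      rw [Function.iterate_succ_apply', ih, Nat.mul_succ, Nat.add_comm, pow_add]
      group
  have hgi : ∀ i : ℕ, ∃ D : ℝ, ∀ n : ℕ,
      ‖h ((fun b => H.toEquiv ^ j * b * (H.toEquiv ^ j)⁻¹)^[n]
        (H.toEquiv ^ i * a * (H.toEquiv ^ i)⁻¹))‖ ≤ D * (1 + ε) ^ n :=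
    fun i => hgr _ ((conj_pow_Unip hH he i).2 ha)
  choose D hD using hgi
  refine ⟨∑ i ∈ Finset.range j, |D i|, fun n => ?_⟩
  have h1 := hD (n % j) (n / j)
  rw [hit] at h1
  have h2 : H.toEquiv ^ (j * (n / j)) * (H.toEquiv ^ (n % j) * a * (H.toEquiv ^ (n % j))⁻¹) *
      (H.toEquiv ^ (j * (n / j)))⁻¹ = H.toEquiv ^ n * a * (H.toEquiv ^ n)⁻¹ := by
    conv_rhs => rw [← Nat.div_add_mod n j, pow_add]
    group
  rw [h2, Real.norm_eq_abs] at h1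
  refine h1.trans ?_
  have h3 : (1 : ℝ) ≤ 1 + ε := by linarith
  have h4 : (1 + ε) ^ (n / j) ≤ (1 + ε) ^ n := pow_le_pow_right₀ h3 (Nat.div_le_self n j)
  have h5 : |D (n % j)| ≤ ∑ i ∈ Finset.range j, |D i| :=
    Finset.single_le_sum (f := fun i => |D i|) (fun i _ => abs_nonneg _)
      (Finset.mem_range.2 (Nat.mod_lt n hj))
  have h6 : (0 : ℝ) ≤ (1 + ε) ^ (n / j) := by positivity
  calc D (n % j) * (1 + ε) ^ (n / j) ≤ |D (n % j)| * (1 + ε) ^ (n / j) :=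
        mul_le_mul_of_nonneg_right (le_abs_self _) h6
    _ ≤ (∑ i ∈ Finset.range j, |D i|) * (1 + ε) ^ n :=
        mul_le_mul h5 h4 h6 (Finset.sum_nonneg fun i _ => abs_nonneg _)

end Pool.Agent.ANO5.Lin
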