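import Pool.Agent.ANO5.A3.Sys.Facts
import Pool.Agent.ANO5.Lin.Unip

/-!
# ANO5, module Lin: growth on the stabilizer of a type (package LIN-TGROW)

`StG N F κ` is the stabilizer of the type `κ` in the deck group of the base.
`StG_conj`: `pk N` is a homomorphism, `stab_conj` in each factor.
`type_grow`: first for `V = ℝ`. `g = pk N (a, δ)`, `a i ∈ stab (F i) (κ i)`, `δ ∈ N.Γ`;
`Q^n g Q^(-n) = pk N (H_i^n a_i H_i^(-n), δ₀^n δ δ₀^(-n))`. By `h_eq_sum`,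
`h (Q^n g Q^(-n)) = ∑_i h_i (H_i^n a_i H_i^(-n)) + h (pk N (1, δ₀^n δ δ₀^(-n)))` with
`h_i b = h (pk N (Pi.mulSingle i b, 1))` additive on `stab (F i) (κ i)`: `FUnip.grow`; the last term
is `h (pk N (1, δ))` (`h` is additive, so invariant under conjugation by elements of the group).
For general `V`: `V ≃L ℝ^n` (`ContinuousLinearEquiv.ofFinrankEq` or a basis), apply the real case to
the components.
`norm_zeta`: let `p n` be a quasi-orbit as in `Lin.grow` for `ψ g = Q g Q⁻¹`, `Λ = StG`. If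
`Z : base → V` is continuous with `Z (g x) = Z x + h g` for `g ∈ DG N S` then
`Z (p n) = Z (g n • p n) - h (g n)` grows subexponentially (`Z` is bounded on `K`).
-/

set_option autoImplicit false

open scoped UpperHalfPlane MatrixGroups
open Set Filter Topology

namespace Pool.Agent.ANO5.Lin

open Pool.Agent.ANO3 Pool.Agent.ANO5.A3

variable {r : ℕ} {S : Fin r → SurfaceMap}

/-- The stabilizer of the type `κ`. -/
noncomputable def StG (N : Fib) (F : ∀ i, Flat (S i)) (κ : Fin r → ℍ) :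
    Subgroup (Equiv.Perm ((Fin r → ℍ) × N.W)) :=
  ((Subgroup.pi univ fun i => stab (F i) (κ i)).prod N.Γ).map (pk N)


private theorem mem_TGrow {N : Fib} {F : ∀ i, Flat (S i)} {κ : Fin r → ℍ}
    {g : Equiv.Perm ((Fin r → ℍ) × N.W)} :
    g ∈ StG N F κ ↔ ∃ (a : Fin r → Equiv.Perm ℍ) (δ : Equiv.Perm N.W),
      (∀ i, a i ∈ stab (F i) (κ i)) ∧ δ ∈ N.Γ ∧ g = pk N (a, δ) := by
  constructor
  · rintro ⟨⟨a, δ⟩, ⟨ha, hδ⟩, rfl⟩
    exact ⟨a, δ, fun i => ha i (mem_univ i), hδ, rfl⟩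
  · rintro ⟨a, δ, ha, hδ, rfl⟩
    exact ⟨(a, δ), ⟨fun i _ => ha i, hδ⟩, rfl⟩

private theorem pk_conj_TGrow (N : Fib) (H : Fin r → ℍ ≃ₜ ℍ) (δ₀ : Equiv.Perm N.W) (n : ℕ)
    (a : Fin r → Equiv.Perm ℍ) (δ : Equiv.Perm N.W) :
    pk N (fun i => (H i).toEquiv, δ₀) ^ n * pk N (a, δ) *
        (pk N (fun i => (H i).toEquiv, δ₀) ^ n)⁻¹ =
      pk N (fun i => (H i).toEquiv ^ n * a i * ((H i).toEquiv ^ n)⁻¹,
        δ₀ ^ n * δ * (δ₀ ^ n)⁻¹) := by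
  rw [← map_pow, ← map_inv, ← map_mul, ← map_mul]
  rfl

private theorem im_conj_TGrow {T : SurfaceMap} {m : ℕ} {H : ℍ ≃ₜ ℍ} (hH : IsLiftPow T m H)
    {a : Equiv.Perm ℍ} (ha : a ∈ im T.Γ) : H.toEquiv * a * (H.toEquiv)⁻¹ ∈ im T.Γ := by
  obtain ⟨γ, hγ, h⟩ := mem_im.1 ha
  obtain ⟨γ', hγ', h'⟩ := hH.conj γ hγ
  refine mem_im.2 ⟨γ', hγ', fun z => ?_⟩
  have e : (H.toEquiv * a * (H.toEquiv)⁻¹) z = H (a (H.symm z)) := rfl
  rw [e, h, h', H.apply_symm_apply]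

private theorem stab_pow_TGrow {T : SurfaceMap} {F : Flat T} {v : ℍ} {m : ℕ} {H : ℍ ≃ₜ ℍ}
    (hH : IsLiftPow T m H) (he : F.Eqv v (H v)) {a : Equiv.Perm ℍ} (ha : a ∈ stab F v) (n : ℕ) :
    H.toEquiv ^ n * a * (H.toEquiv ^ n)⁻¹ ∈ stab F v := by
  induction n with
  | zero => simpa using ha
  | succ n ih =>
    have e : H.toEquiv ^ (n + 1) * a * (H.toEquiv ^ (n + 1))⁻¹ =
        H.toEquiv * (H.toEquiv ^ n * a * (H.toEquiv ^ n)⁻¹) * (H.toEquiv)⁻¹ := by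
      rw [pow_succ']
      group
    rw [e]
    exact (stab_conj hH he).2 ih

private theorem one_inv_TGrow {G V : Type*} [Group G] [AddCommGroup V] {D : Subgroup G} {h : G → V}
    (hh : ∀ a ∈ D, ∀ b ∈ D, h (a * b) = h a + h b) {a b : G} (ha : a ∈ D) (hb : b ∈ D) :
    h (a * b * a⁻¹) = h b := by
  have h1 : h 1 = 0 := by
    have h2 := hh 1 D.one_mem 1 D.one_mem
    rw [mul_one] at h2
    exact left_eq_add.1 h2
  have h3 : h a + h a⁻¹ = 0 := by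
    rw [← hh a ha a⁻¹ (D.inv_mem ha), mul_inv_cancel, h1]
  rw [hh _ (D.mul_mem ha hb) _ (D.inv_mem ha), hh a ha b hb, add_right_comm, h3, zero_add]

variable {N : Fib} {F : ∀ i, Flat (S i)} {κ : Fin r → ℍ}

private theorem type_grow_real_TGrow (hU : ∀ i, FUnip (F i)) (hκ : IsType F κ) {m : ℕ} (hm : 0 < m)
    {H : Fin r → ℍ ≃ₜ ℍ} (hH : ∀ i, IsLiftPow (S i) m (H i))
    (he : ∀ i, (F i).Eqv (κ i) (H i (κ i))) {δ₀ : Equiv.Perm N.W} (hδ₀ : δ₀ ∈ N.Γ)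
    {h : Equiv.Perm ((Fin r → ℍ) × N.W) → ℝ}
    (hh : ∀ a ∈ DG N S, ∀ b ∈ DG N S, h (a * b) = h a + h b)
    {g : Equiv.Perm ((Fin r → ℍ) × N.W)} (hg : g ∈ StG N F κ) :
    ∀ ε > (0 : ℝ), ∃ D : ℝ, ∀ n : ℕ,
      |h (pk N (fun i => (H i).toEquiv, δ₀) ^ n * g *
        (pk N (fun i => (H i).toEquiv, δ₀) ^ n)⁻¹)| ≤ D * (1 + ε) ^ n := by
  intro ε hε
  obtain ⟨a, δ, ha, hδ, rfl⟩ := mem_TGrow.1 hg
  have hsing : ∀ (i : Fin r) (b : Equiv.Perm ℍ), b ∈ im (S i).Γ →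
      pk N (Pi.mulSingle i b, 1) ∈ DG N S := by
    intro i b hb
    refine pk_mem_DG (fun j => ?_) N.Γ.one_mem
    by_cases hij : j = i
    · subst hij
      rw [Pi.mulSingle_eq_same]
      exact hb
    · rw [Pi.mulSingle_eq_of_ne hij]
      exact Subgroup.one_mem _
  have hadd : ∀ i, Typ.AddOn (stab (F i) (κ i) : Set (Equiv.Perm ℍ))
      fun b => h (pk N (Pi.mulSingle i b, 1)) := by
    intro i b hb c hc
    have e : pk N (Pi.mulSingle i (b * c), 1) =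
        pk N (Pi.mulSingle i b, 1) * pk N (Pi.mulSingle i c, 1) := by
      rw [← map_mul, Prod.mk_mul_mk, one_mul, Pi.mulSingle_mul]
    change h (pk N (Pi.mulSingle i (b * c), 1)) = _
    rw [e]
    exact hh _ (hsing i b (mem_stab.1 hb).1) _ (hsing i c (mem_stab.1 hc).1)
  choose D hD using fun i => (hU i).grow (hκ i) hm (hH i) (he i) (hadd i) (ha i) ε hε
  refine ⟨(∑ i, D i) + |h (pk N (1, δ))|, fun n => ?_⟩
  have h1 : (1 : ℝ) ≤ (1 + ε) ^ n := one_le_pow₀ (by linarith)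
  rw [pk_conj_TGrow, h_eq_sum hh (fun i => (mem_stab.1 (stab_pow_TGrow (hH i) (he i) (ha i) n)).1)
    (N.Γ.mul_mem (N.Γ.mul_mem (N.Γ.pow_mem hδ₀ n) hδ) (N.Γ.inv_mem (N.Γ.pow_mem hδ₀ n)))]
  have h2 : h (pk N (1, δ₀ ^ n * δ * (δ₀ ^ n)⁻¹)) = h (pk N (1, δ)) := by
    have e : pk N ((1 : Fin r → Equiv.Perm ℍ), δ₀ ^ n * δ * (δ₀ ^ n)⁻¹) =
        pk N (1, δ₀ ^ n) * pk N (1, δ) * (pk N (1, δ₀ ^ n))⁻¹ := by
      rw [← map_inv, ← map_mul, ← map_mul]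
      simp
    rw [e]
    exact one_inv_TGrow hh (pk_mem_DG (fun i => Subgroup.one_mem _) (N.Γ.pow_mem hδ₀ n))
      (pk_mem_DG (fun i => Subgroup.one_mem _) hδ)
  rw [h2, add_mul, Finset.sum_mul]
  refine (abs_add_le _ _).trans (add_le_add ?_ ?_)
  · exact (Finset.abs_sum_le_sum_abs _ _).trans (Finset.sum_le_sum fun i _ => hD i n)
  · exact le_mul_of_one_le_right (abs_nonneg _) h1

theorem mem_StG {g : Equiv.Perm ((Fin r → ℍ) × N.W)} :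
    g ∈ StG N F κ ↔ ∃ (γ : Fin r → SL(2, ℝ)) (δ : Equiv.Perm N.W), InΓ S γ ∧
      (∀ i, (F i).Eqv (κ i) (γ i • κ i)) ∧ δ ∈ N.Γ ∧ ∀ x, g x = (fun i => γ i • x.1 i, δ x.2) := by
  rw [mem_TGrow]
  constructor
  · rintro ⟨a, δ, ha, hδ, rfl⟩
    choose γ h1 h2 h3 using fun i => mem_stab_iff.1 (ha i)
    refine ⟨γ, δ, h1, h2, hδ, fun x => ?_⟩
    rw [pk_apply]
    exact Prod.ext (funext fun i => h3 i _) rfl
  · rintro ⟨γ, δ, h1, h2, hδ, h3⟩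
    refine ⟨fun i => MulAction.toPerm (γ i), δ, fun i => mem_stab_iff.2 ⟨γ i, h1 i, h2 i,
      fun z => rfl⟩, hδ, Equiv.ext fun x => ?_⟩
    rw [h3, pk_apply]
    rfl

theorem StG_le : StG N F κ ≤ DG N S := by
  intro g hg
  obtain ⟨a, δ, ha, hδ, rfl⟩ := mem_TGrow.1 hg
  exact pk_mem_DG (fun i => (mem_stab.1 (ha i)).1) hδ

theorem StG_conj {m : ℕ} {H : Fin r → ℍ ≃ₜ ℍ} (hH : ∀ i, IsLiftPow (S i) m (H i))
    (he : ∀ i, (F i).Eqv (κ i) (H i (κ i))) {δ₀ : Equiv.Perm N.W} (hδ₀ : δ₀ ∈ N.Γ)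
    {g : Equiv.Perm ((Fin r → ℍ) × N.W)} (hg : g ∈ StG N F κ) :
    pk N (fun i => (H i).toEquiv, δ₀) * g * (pk N (fun i => (H i).toEquiv, δ₀))⁻¹ ∈
      StG N F κ := by
  obtain ⟨a, δ, ha, hδ, rfl⟩ := mem_TGrow.1 hg
  have e := pk_conj_TGrow N H δ₀ 1 a δ
  rw [pow_one] at e
  rw [e]
  simp only [pow_one]
  exact mem_TGrow.2 ⟨_, _, fun i => (stab_conj (hH i) (he i)).2 (ha i),
    N.Γ.mul_mem (N.Γ.mul_mem hδ₀ hδ) (N.Γ.inv_mem hδ₀), rfl⟩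

theorem DG_conj {m : ℕ} {H : Fin r → ℍ ≃ₜ ℍ} (hH : ∀ i, IsLiftPow (S i) m (H i))
    {δ₀ : Equiv.Perm N.W} (hδ₀ : δ₀ ∈ N.Γ) {g : Equiv.Perm ((Fin r → ℍ) × N.W)}
    (hg : g ∈ DG N S) :
    pk N (fun i => (H i).toEquiv, δ₀) * g * (pk N (fun i => (H i).toEquiv, δ₀))⁻¹ ∈
      DG N S := by
  obtain ⟨a, δ, ha, hδ, rfl⟩ := exists_pk hg
  have e := pk_conj_TGrow N H δ₀ 1 a δ
  rw [pow_one] at e
  rw [e]
  simp only [pow_one]
  exact pk_mem_DG (fun i => im_conj_TGrow (hH i) (ha i))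
    (N.Γ.mul_mem (N.Γ.mul_mem hδ₀ hδ) (N.Γ.inv_mem hδ₀))

theorem type_grow (hU : ∀ i, FUnip (F i)) (hκ : IsType F κ) {m : ℕ} (hm : 0 < m)
    {H : Fin r → ℍ ≃ₜ ℍ} (hH : ∀ i, IsLiftPow (S i) m (H i))
    (he : ∀ i, (F i).Eqv (κ i) (H i (κ i))) {δ₀ : Equiv.Perm N.W} (hδ₀ : δ₀ ∈ N.Γ) {V : Type*}
    [NormedAddCommGroup V] [NormedSpace ℝ V] [FiniteDimensional ℝ V]
    {h : Equiv.Perm ((Fin r → ℍ) × N.W) → V}
    (hh : ∀ a ∈ DG N S, ∀ b ∈ DG N S, h (a * b) = h a + h b)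
    {g : Equiv.Perm ((Fin r → ℍ) × N.W)} (hg : g ∈ StG N F κ) :
    ∀ ε > (0 : ℝ), ∃ D : ℝ, ∀ n : ℕ,
      ‖h (pk N (fun i => (H i).toEquiv, δ₀) ^ n * g *
        (pk N (fun i => (H i).toEquiv, δ₀) ^ n)⁻¹)‖ ≤ D * (1 + ε) ^ n := by
  intro ε hε
  let b := Module.finBasis ℝ V
  choose D hD using fun j => type_grow_real_TGrow hU hκ hm hH he hδ₀
    (h := fun g => b.coord j (h g)) (fun a ha c hc => by rw [hh a ha c hc, map_add]) hg ε hε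
  refine ⟨∑ j, D j * ‖b j‖, fun n => ?_⟩
  set y := h (pk N (fun i => (H i).toEquiv, δ₀) ^ n * g *
        (pk N (fun i => (H i).toEquiv, δ₀) ^ n)⁻¹) with hy
  have e : y = ∑ j, b.coord j y • b j := by
    simp only [Module.Basis.coord_apply]
    exact (b.sum_repr y).symm
  rw [e, Finset.sum_mul]
  refine (norm_sum_le _ _).trans (Finset.sum_le_sum fun j _ => ?_)
  rw [norm_smul, Real.norm_eq_abs]
  have h1 := mul_le_mul_of_nonneg_right (hD j n) (norm_nonneg (b j))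
  calc |b.coord j y| * ‖b j‖ ≤ D j * (1 + ε) ^ n * ‖b j‖ := h1
    _ = D j * ‖b j‖ * (1 + ε) ^ n := by ring

theorem norm_zeta (hU : ∀ i, FUnip (F i)) (hκ : IsType F κ) {m : ℕ} (hm : 0 < m)
    {H : Fin r → ℍ ≃ₜ ℍ} (hH : ∀ i, IsLiftPow (S i) m (H i))
    (he : ∀ i, (F i).Eqv (κ i) (H i (κ i))) {δ₀ : Equiv.Perm N.W} (hδ₀ : δ₀ ∈ N.Γ) {V : Type*}
    [NormedAddCommGroup V] [NormedSpace ℝ V] [FiniteDimensional ℝ V]
    {Z : (Fin r → ℍ) × N.W → V} (hZ : Continuous Z)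
    {h : Equiv.Perm ((Fin r → ℍ) × N.W) → V} (hh : ∀ g ∈ DG N S, ∀ x, Z (g x) = Z x + h g)
    {p : ℕ → (Fin r → ℍ) × N.W} {C : ℝ}
    (hp : ∀ n, dist (p (n + 1)) (pk N (fun i => (H i).toEquiv, δ₀) (p n)) ≤ C)
    {K : Set ((Fin r → ℍ) × N.W)} (hK : IsCompact K)
    (hpK : ∀ n, ∃ g ∈ StG N F κ, g (p n) ∈ K) :
    ∀ ε > (0 : ℝ), ∃ D : ℝ, ∀ n : ℕ, ‖Z (p n)‖ ≤ D * (1 + ε) ^ n := by
  intro ε hε
  have hadd : ∀ a ∈ DG N S, ∀ b ∈ DG N S, h (a * b) = h a + h b := by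
    intro a ha b hb
    have h1 := hh _ ((DG N S).mul_mem ha hb) (p 0)
    rw [Equiv.Perm.mul_apply, hh a ha, hh b hb, add_assoc] at h1
    rw [← add_left_cancel h1, add_comm]
  choose g hg hgK using hpK
  set Q := pk N (fun i => (H i).toEquiv, δ₀) with hQ
  have hQc : Continuous Q := by
    refine Continuous.prodMk (continuous_pi fun i => ?_) ?_
    · exact (H i).continuous.comp ((continuous_apply i).comp continuous_fst)
    · exact (Fib.continuous_act hδ₀).comp continuous_snd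
  let ψ : DG N S → DG N S := fun a => ⟨Q * a * Q⁻¹, DG_conj hH hδ₀ a.2⟩
  have hψn : ∀ (n : ℕ) (a : DG N S), ((ψ^[n] a : DG N S) : Equiv.Perm ((Fin r → ℍ) × N.W)) =
      Q ^ n * a * (Q ^ n)⁻¹ := by
    intro n a
    induction n with
    | zero => simp
    | succ n ih =>
      rw [Function.iterate_succ_apply']
      change Q * ((ψ^[n] a : DG N S) : Equiv.Perm ((Fin r → ℍ) × N.W)) * Q⁻¹ = _
      rw [ih, pow_succ']
      group
  obtain ⟨D, hD⟩ := grow (Δ := DG N S) (P := (Fin r → ℍ) × N.W) DG_iso (DG_finite S) hQc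
    (ψ := ψ) (fun a b => Subtype.ext (by
      change Q * (a * b) * Q⁻¹ = Q * a * Q⁻¹ * (Q * b * Q⁻¹)
      group)) (fun a q => by
      change Q (a.1 q) = (Q * a.1 * Q⁻¹) (Q q)
      rw [Equiv.Perm.mul_apply, Equiv.Perm.mul_apply,
        show Q⁻¹ (Q q) = q from Q.symm_apply_apply q])
    (Λ := (StG N F κ).subgroupOf (DG N S)) (fun a ha => by
      rw [Subgroup.mem_subgroupOf] at ha ⊢
      exact StG_conj hH he hδ₀ ha) (h := fun a => h a.1) (fun a b => hadd _ a.2 _ b.2)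
    (fun a ha ε hε => by
      obtain ⟨D, hD⟩ := type_grow hU hκ hm hH he hδ₀ hadd (Subgroup.mem_subgroupOf.1 ha) ε hε
      refine ⟨D, fun n => ?_⟩
      have h2 := hD n
      rw [← hQ, ← hψn] at h2
      exact h2) hp hK (g := fun n => ⟨g n, StG_le (hg n)⟩)
    (fun n => Subgroup.mem_subgroupOf.2 (hg n)) hgK ε hε
  obtain ⟨R, hR⟩ := (hK.image hZ).isBounded.exists_norm_le
  refine ⟨R + D, fun n => ?_⟩
  have h1 : (1 : ℝ) ≤ (1 + ε) ^ n := one_le_pow₀ (by linarith)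
  have h2 : Z (p n) = Z (g n (p n)) - h (g n) := by
    rw [hh _ (StG_le (hg n)), add_sub_cancel_right]
  have h3 := hR _ ⟨_, hgK n, rfl⟩
  have hR0 : 0 ≤ R := (norm_nonneg _).trans h3
  rw [h2, add_mul]
  exact (norm_sub_le _ _).trans (add_le_add (h3.trans (le_mul_of_one_le_right hR0 h1)) (hD n))

end Pool.Agent.ANO5.Lin
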