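import Pool.Agent.ANO5.Lin.Torus

/-!
# ANO5, module Lin: facts on the torus functions (package LIN-TORFACTS)

`TUI_one`, `TUI_zero`: the sequences in the definition of `th` are the same
(`interp_one`, `interp_zero`).
`TUI_near`: `IsCoc.near` for `isCoc_I`: `‖th y - pr (zeta x)‖ ≤ C`; `pr (zeta x) = pr (t, 0) +
pr (0, v)`, `pr (t, 0) = (sA.pr t, 0)` (`Split.natural` for `inl`), `sA.pr ∘ sA.pr = sA.pr`.
`TU_add`: `T₀^[n] (z, (y, t + s)) = T₀^[n] (z, (y, t)) + (0, (0, A^n s))`, so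
`zeta (T₀^[n] x') = zeta (T₀^[n] x) + exm^n (s, 0)`: `th_add`, `Split.natural`.
`TU_model`: `TU_add` with `t = 0`.
`TU_act`, `TUI_act`: `IsCoc.th_act`. `chi_mul`: `w` is additive. `chi_trans`: `w = (v, 0)`.
-/

set_option autoImplicit false

open scoped UpperHalfPlane MatrixGroups
open Set Filter Topology

namespace Pool.Agent.ANO5.Lin

open Pool.Agent.ANO3 Pool.Agent.ANO5.A1 Pool.Agent.ANO5.A2 Pool.Agent.ANO5.A3 Pool.Agent.ANO5.Tor

variable [TFib] {r : ℕ} {S : Fin r → SurfaceMap} {D : TData S}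

private theorem prA_TorFacts (v : Fin TFib.k → ℝ) : D.sA.pr (D.sA.pr v) = D.sA.pr v :=
  DFunLike.congr_fun D.sA.pr_pr v

private theorem prL_inl_TorFacts (v : Fin TFib.k → ℝ) :
    D.sL.pr ((v, 0) : EE D.d) = (D.sA.pr v, 0) :=
  DFunLike.congr_fun (Split.natural D.sA D.sL (exm_inl D.A D.a)).1 v

private theorem prA_prL_TorFacts (v : Fin TFib.k → ℝ) :
    D.sA.pr (D.sL.pr ((v, 0) : EE D.d)).1 = D.sA.pr v := by
  rw [prL_inl_TorFacts]
  exact prA_TorFacts v

private theorem zeta_add_TorFacts (z : Fin r → ℍ) (y : TFib.base.W) (t s : Fin TFib.k → ℝ) :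
    zeta D ((z, (y, t + s)) : X r) = zeta D ((z, (y, t)) : X r) + (s, 0) :=
  Prod.ext rfl (add_zero _).symm

private theorem pow_inl_TorFacts (n : ℕ) (s : Fin TFib.k → ℝ) :
    (D.L ^ n) ((s, 0) : EE D.d) = ((lin D.A ^ n) s, 0) := by
  induction n with
  | zero => rfl
  | succ n ih =>
    have h1 : ∀ v : Fin TFib.k → ℝ, D.L ((v, 0) : EE D.d) = (lin D.A v, 0) := fun v =>
      DFunLike.congr_fun (exm_inl D.A D.a) v
    rw [pow_succ', pow_succ']
    show D.L ((D.L ^ n) ((s, 0) : EE D.d)) = _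
    rw [ih, h1]
    rfl

private theorem iter_TorFacts {T₀ : X r → X r} (hT₀ : ∀ x, T₀ x = skew S D.A D.τ x) (n : ℕ)
    (z : Fin r → ℍ) (y : TFib.base.W) (t s : Fin TFib.k → ℝ) :
    T₀^[n] ((z, (y, t + s)) : X r) = (((T₀^[n] ((z, (y, t)) : X r)).1,
      ((T₀^[n] ((z, (y, t)) : X r)).2.1, (T₀^[n] ((z, (y, t)) : X r)).2.2 +
        (lin D.A ^ n) s)) : X r) := by
  induction n with
  | zero => rfl
  | succ n ih =>
    rw [Function.iterate_succ_apply', Function.iterate_succ_apply', ih, hT₀, hT₀]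
    refine Prod.ext rfl (Prod.ext rfl ?_)
    have h1 : (lin D.A ^ (n + 1)) s = lin D.A ((lin D.A ^ n) s) := by
      rw [pow_succ']
      rfl
    have h2 : ∀ a b c : Fin TFib.k → ℝ, lin D.A (a + b) + c = (lin D.A a + c) + lin D.A b := by
      intro a b c
      rw [map_add]
      abel
    rw [h1]
    exact h2 _ _ _

private theorem chi_eq_TorFacts {g : X r → X r} {w : EE D.d}
    (hw : ∀ x, zeta D (g x) = zeta D x + w) : chi D g = D.sA.pr (D.sL.pr w).1 := by
  unfold chi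
  rw [hw, add_sub_cancel_left]

theorem continuous_TU {T₀ T : X r ≃ₜ X r} (h : Setting S T₀ T)
    (hT₀ : ∀ x, T₀ x = skew S D.A D.τ x) : Continuous (TU D T) :=
  D.sA.pr.continuous.comp (continuous_fst.comp ((isCoc_X h hT₀).continuous_th D.sL))

theorem continuous_TUI {T₀ T : X r ≃ₜ X r} (h : Setting S T₀ T)
    (hT₀ : ∀ x, T₀ x = skew S D.A D.τ x) : Continuous (TUI D T₀ T) :=
  D.sA.pr.continuous.comp (continuous_fst.comp ((isCoc_I h hT₀).continuous_th D.sL))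

theorem pr_TU (T : X r → X r) (x : X r) : D.sA.pr (TU D T x) = TU D T x :=
  prA_TorFacts _

theorem pr_TUI (T₀ T : X r → X r) (y : unitInterval × X r) :
    D.sA.pr (TUI D T₀ T y) = TUI D T₀ T y :=
  prA_TorFacts _

theorem pr_chi (g : X r → X r) : D.sA.pr (chi D g) = chi D g :=
  prA_TorFacts _

private theorem it_one_TorFacts (T₀ T : X r → X r) (n : ℕ) (x : X r) :
    (RI T₀ T)^[n] (1, x) = (1, T^[n] x) := by
  induction n with
  | zero => rfl
  | succ n ih =>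
    rw [Function.iterate_succ_apply', ih, Function.iterate_succ_apply']
    exact Prod.ext rfl (interp_one _ _ _)

private theorem it_zero_TorFacts (T₀ T : X r → X r) (n : ℕ) (x : X r) :
    (RI T₀ T)^[n] (0, x) = (0, T₀^[n] x) := by
  induction n with
  | zero => rfl
  | succ n ih =>
    rw [Function.iterate_succ_apply', ih, Function.iterate_succ_apply']
    exact Prod.ext rfl (interp_zero _ _ _)

theorem TUI_one (T₀ T : X r → X r) (x : X r) : TUI D T₀ T (1, x) = TU D T x := by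
  unfold TUI TU th
  simp only [it_one_TorFacts]

theorem TUI_zero (T₀ T : X r → X r) (x : X r) : TUI D T₀ T (0, x) = TU D T₀ x := by
  unfold TUI TU th
  simp only [it_zero_TorFacts]

theorem TUI_near {T₀ T : X r ≃ₜ X r} (h : Setting S T₀ T)
    (hT₀ : ∀ x, T₀ x = skew S D.A D.τ x) : ∃ (κ : B r → Fin TFib.k → ℝ) (C : ℝ),
      Continuous κ ∧ ∀ y : unitInterval × X r,
        ‖TUI D T₀ T y - (D.sA.pr y.2.2.2 + κ (y.2.1, y.2.2.1))‖ ≤ C := by
  obtain ⟨C, hC⟩ := (isCoc_I h hT₀).near D.sL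
  have hcont : Continuous fun b : B r => ((b.1, (b.2, 0)) : X r) :=
    continuous_fst.prodMk (continuous_snd.prodMk continuous_const)
  refine ⟨fun b => D.sA.pr (D.sL.pr (zeta D ((b.1, (b.2, 0)) : X r))).1, ‖D.sA.pr‖ * C,
    D.sA.pr.continuous.comp (continuous_fst.comp (D.sL.pr.continuous.comp
      ((continuous_zeta D).comp hcont))), fun y => ?_⟩
  have h1 : zeta D y.2 = zeta D ((y.2.1, (y.2.2.1, 0)) : X r) + (y.2.2.2, 0) := by
    rw [← zeta_add_TorFacts, zero_add]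
    rfl
  have h2 : D.sA.pr y.2.2.2 + D.sA.pr (D.sL.pr (zeta D ((y.2.1, (y.2.2.1, 0)) : X r))).1 =
      D.sA.pr (D.sL.pr (zeta D y.2)).1 := by
    rw [h1, map_add, Prod.fst_add, map_add, prA_prL_TorFacts, add_comm]
  have h3 : TUI D T₀ T y - D.sA.pr (D.sL.pr (zeta D y.2)).1 =
      D.sA.pr (th D.sL (fun y : unitInterval × X r => zeta D y.2) (RI T₀ T) y -
        D.sL.pr (zeta D y.2)).1 := by
    rw [Prod.fst_sub, map_sub]
    rfl
  show ‖TUI D T₀ T y - (D.sA.pr y.2.2.2 +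
    D.sA.pr (D.sL.pr (zeta D ((y.2.1, (y.2.2.1, 0)) : X r))).1)‖ ≤ _
  rw [h2, h3]
  refine (D.sA.pr.le_opNorm _).trans (mul_le_mul_of_nonneg_left ?_ (norm_nonneg _))
  exact (norm_fst_le _).trans (hC y)

/-- the torus function of the model is linear in `t` -/
theorem TU_add {T₀ : X r ≃ₜ X r} (hT₀ : ∀ x, T₀ x = skew S D.A D.τ x) (h : Setting S T₀ T₀)
    (z : Fin r → ℍ) (y : TFib.base.W) (t s : Fin TFib.k → ℝ) :
    TU D T₀ (z, (y, t + s)) = TU D T₀ (z, (y, t)) + D.sA.pr s := by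
  obtain ⟨C, hC⟩ := (isCoc_X h hT₀).bdd
  have h1 : th D.sL (zeta D) T₀ ((z, (y, t + s)) : X r) =
      th D.sL (zeta D) T₀ ((z, (y, t)) : X r) + D.sL.pr ((s, 0) : EE D.d) := by
    refine th_add D.sL hC fun n => ?_
    rw [iter_TorFacts hT₀, zeta_add_TorFacts, pow_inl_TorFacts]
    rfl
  unfold TU
  rw [h1, Prod.fst_add, map_add, prA_prL_TorFacts]

theorem TU_model {T₀ : X r ≃ₜ X r} (hT₀ : ∀ x, T₀ x = skew S D.A D.τ x) (h : Setting S T₀ T₀)
    (z : Fin r → ℍ) (y : TFib.base.W) (t : Fin TFib.k → ℝ) :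
    TU D T₀ (z, (y, t)) = D.sA.pr t + kap₀ D T₀ (z, y) := by
  have h1 := TU_add hT₀ h z y 0 t
  rw [zero_add] at h1
  rw [h1, add_comm]
  rfl

theorem continuous_kap₀ {T₀ : X r ≃ₜ X r} (hT₀ : ∀ x, T₀ x = skew S D.A D.τ x)
    (h : Setting S T₀ T₀) : Continuous (kap₀ D T₀) := by
  have hcont : Continuous fun b : B r => ((b.1, (b.2, 0)) : X r) :=
    continuous_fst.prodMk (continuous_snd.prodMk continuous_const)
  exact (continuous_TU h hT₀).comp hcont

theorem TU_act {T₀ T : X r ≃ₜ X r} (h : Setting S T₀ T) (hT₀ : ∀ x, T₀ x = skew S D.A D.τ x)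
    {g : X r → X r} (hg : IsDeck (surf S) g) (x : X r) : TU D T (g x) = TU D T x + chi D g := by
  obtain ⟨w, hw⟩ := sym_of_deck D hg
  rw [chi_eq_TorFacts hw.2]
  unfold TU
  have h1 := (isCoc_X h hT₀).th_act D.sL hw x
  rw [h1, Prod.fst_add, map_add]

theorem TUI_act {T₀ T : X r ≃ₜ X r} (h : Setting S T₀ T) (hT₀ : ∀ x, T₀ x = skew S D.A D.τ x)
    {g : X r → X r} (hg : IsDeck (surf S) g) (s : unitInterval) (x : X r) :
    TUI D T₀ T (s, g x) = TUI D T₀ T (s, x) + chi D g := by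
  obtain ⟨w, hw⟩ := sym_of_deck D hg
  rw [chi_eq_TorFacts hw.2]
  unfold TUI
  have h1 := (isCoc_I h hT₀).th_act D.sL (g := (Prod.map id g, w)) ⟨(g, w), hw, rfl⟩ (s, x)
  have h2 : (Prod.map id g, w).1 (s, x) = (s, g x) := rfl
  rw [h2] at h1
  rw [h1, Prod.fst_add, map_add]

theorem chi_comp {g g' : X r → X r} (hg : IsDeck (surf S) g) (hg' : IsDeck (surf S) g') :
    chi D (g ∘ g') = chi D g + chi D g' := by
  obtain ⟨w, hw⟩ := sym_of_deck D hg
  obtain ⟨w', hw'⟩ := sym_of_deck D hg'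
  rw [chi_eq_TorFacts hw.2, chi_eq_TorFacts hw'.2, chi_eq_TorFacts (w := w + w'), map_add,
    Prod.fst_add, map_add]
  intro x
  show zeta D (g (g' x)) = _
  rw [hw.2, hw'.2, add_assoc, add_comm w' w]

theorem chi_id : chi D (id : X r → X r) = 0 := by
  rw [chi_eq_TorFacts (g := id) (w := 0) fun x => (add_zero _).symm, map_zero, Prod.fst_zero,
    map_zero]

/-- the shift under a translation of the torus coordinate -/
theorem chi_trans (v : Fin TFib.k → ℤ) :
    chi D (fun x : X r => (x.1, (x.2.1, fun j => x.2.2 j + v j))) =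
      D.sA.pr fun j => (v j : ℝ) := by
  rw [chi_eq_TorFacts (w := ((fun j => (v j : ℝ), 0) : EE D.d)), prA_prL_TorFacts]
  intro x
  exact zeta_add_TorFacts x.1 x.2.1 x.2.2 fun j => (v j : ℝ)

end Pool.Agent.ANO5.Lin
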