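import Pool.Agent.ANO5.A3.Sys.CptSet
import Pool.Agent.ANO5.Lin.TorFacts
import Pool.Agent.ANO5.Lin.TGrow

/-!
# ANO5, module Lin: the torus functions on a type (package LIN-TORTYPE)

`dist_iterate`: `y ↦ dist (T^[m] y) (T₀^[m] y)` is continuous and invariant under `dk γ δ`
(`Setting.hom_dk_iterate`, `dk` acts by isometries: `A2.Dyn.IsDeck.isometry`, `isDeck_dk`), so it is
bounded (`cocompact_dk`).

`orbit_grow`: let `T' y = dk γ δ (T^[m] y)` (a homeomorphism: `exists_dk`), `H i` the homeomorphism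
`z ↦ γ i • f^[m] z` (`exists_liftPow`); `IsLift S T m T' H`.
(1) `DU (κ i) (T'^n x) = 0`: `DU (H i (κ i)) (T' y) = 0` iff `DU (κ i) y = 0` (`DU_lift`, the
factors `l^m`, `L^m` are positive), and `DU (κ i) (H i (κ i)) = du = 0` (`DU_inl`,
`IsTree.congr_left`).
(2) `DS (κ i) (T'^n x) ≤ l^(-m n) DS (κ i) x`: `DS_lift` in the same way; so it is `≤ ε` for
`n ≥ n₀`, where `ε` is the number of `cocompact_NN` for `w' = w'' = κ`.
(3) for `n ≥ n₀` there is `γ'` with `Eqv (κ i) (γ' i • κ i)` and `γ' i • (T'^n x).1 i ∈ K i`, and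
`δ' ∈ base.Γ` with `δ' (T'^n x).2.1 ∈ L` (`TFib.base.cocompact`): so with
`p n = ((T'^n x).1, (T'^n x).2.1)` there is `g ∈ StG TFib.base F κ` with `g (p n) ∈ univ.pi K ×ˢ L`.
(4) `δ (y, t) = (δ₀ y, t + v)` (`Tor.mem_Γ`); `Q = pk base (H, δ₀)`. The base point of
`dk γ δ (T₀^[m] y)` is `Q` of the base point of `y` (`cover_iterate`, `skew` fixes `y.2.1`), so
`dist (p (n+1)) (Q (p n)) ≤ dist (T^[m] y) (T₀^[m] y) ≤ C`, `y = T'^n x` (`dist_iterate`).
(5) `norm_zeta` for `n ↦ p (n₀ + n)`, `Z b = (j ↦ τ (F^[j] b))`, `h g = Z (g b₀) - Z b₀`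
(`IsTwist`): this is the second component of `zeta`. The finitely many `n < n₀` change the
constant only.

`TU_lift`: `w` with `(dk γ δ, w) ∈ SymX D` (`sym_of_deck`), `e` from `exists_fix D.sL hm w`,
`c = sA.pr e.1`. `IsCoc.type` for `isCoc_X`, `q = snd` (`cmp_snd`), `sB`, and `orbit_grow`:
`(th x).2 = e.2`. `th (T' x) = L^m (th x) + sL.pr w` (`th_lift`), so
`th (T' x) - e = L^m (th x - e)`, and `th x - e = (u, 0)`, `L^m (u, 0) = (A^m u, 0)` (`exm_inl`).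
Apply `sA.pr` to the first component (`sA.pr` commutes with `lin A`: `Split.pr_L`).
-/

set_option autoImplicit false

open scoped UpperHalfPlane MatrixGroups
open Set Filter Topology

namespace Pool.Agent.ANO5.Lin

open Pool.Agent.ANO3 Pool.Agent.ANO5.A1 Pool.Agent.ANO5.A2 Pool.Agent.ANO5.A3 Pool.Agent.ANO5.Tor

private theorem pow_apply_TorType {Z : Type*} [TopologicalSpace Z] (T : Z ≃ₜ Z) (n : ℕ) (x : Z) :
    (T ^ n) x = T^[n] x := by
  induction n generalizing x with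
  | zero => rfl
  | succ n ih =>
    rw [pow_succ, Function.iterate_succ_apply, ← ih]
    rfl

private theorem pow_succ_TorType {E' : Type*} [NormedAddCommGroup E'] [NormedSpace ℝ E']
    (A : E' →L[ℝ] E') (n : ℕ) (v : E') : (A ^ (n + 1)) v = (A ^ n) (A v) := by
  rw [pow_succ]
  rfl

theorem dist_iterate [Fib] {r : ℕ} {S : Fin r → SurfaceMap} {T₀ T : X r ≃ₜ X r}
    (h : Setting S T₀ T) (m : ℕ) : ∃ C : ℝ, ∀ y, dist (T^[m] y) (T₀^[m] y) ≤ C := by
  obtain ⟨K, hK, hKc⟩ := cocompact_dk S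
  have hc : Continuous fun y => dist (T^[m] y) (T₀^[m] y) :=
    (T.continuous.iterate m).dist (T₀.continuous.iterate m)
  obtain ⟨C, hC⟩ := hK.bddAbove_image hc.continuousOn
  refine ⟨C, fun y => ?_⟩
  obtain ⟨γ, δ, hγ, hδ, hy⟩ := hKc y
  obtain ⟨γ', δ', hγ', hδ', h1, h2, -⟩ := h.hom_dk_iterate m hγ hδ
  have h3 : dist (T^[m] (dk γ δ y)) (T₀^[m] (dk γ δ y)) ≤ C := hC (mem_image_of_mem _ hy)
  rw [h2, h1, (A2.Dyn.IsDeck.isometry (isDeck_dk hγ' hδ')).dist_eq] at h3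
  exact h3

variable [TFib] {r : ℕ} {S : Fin r → SurfaceMap} {D : TData S}

private theorem dist_base_TorType (a b : X r) :
    dist ((a.1, a.2.1) : (Fin r → ℍ) × TFib.base.W) (b.1, b.2.1) ≤ dist a b := by
  have h1 : dist a.1 b.1 ≤ dist a b := le_max_left _ _
  have h2 : dist a.2 b.2 ≤ dist a b := le_max_right _ _
  have h3 : dist a.2.1 b.2.1 ≤ dist a.2 b.2 := le_max_left _ _
  exact max_le h1 (h3.trans h2)

/-- the vectors of the twist at a point of the base -/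
private theorem zmap_TorType (D : TData S) :
    ∃ (Z : (Fin r → ℍ) × TFib.base.W → (Fin (D.d + 1) → Fin TFib.k → ℝ))
      (h : Equiv.Perm ((Fin r → ℍ) × TFib.base.W) → (Fin (D.d + 1) → Fin TFib.k → ℝ)),
      Continuous Z ∧ (∀ g ∈ DG TFib.base S, ∀ x, Z (g x) = Z x + h g) ∧
        ∀ x : X r, (zeta D x).2 = Z (x.1, x.2.1) := by
  obtain ⟨Z, hZ⟩ : ∃ Z : (Fin r → ℍ) × TFib.base.W → (Fin (D.d + 1) → Fin TFib.k → ℝ),
      Z = fun b (j : Fin (D.d + 1)) => D.τ ((baseMap TFib.base S)^[(j : ℕ)] b) := ⟨_, rfl⟩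
  obtain ⟨y₀⟩ : Nonempty TFib.base.W := ⟨TFib.base.crd.symm 0⟩
  have hz : ∀ x : X r, (zeta D x).2 = Z (x.1, x.2.1) := by
    intro x
    rw [hZ]
    rfl
  refine ⟨Z, fun g => Z (g ((fun _ => UpperHalfPlane.I), y₀)) -
    Z ((fun _ => UpperHalfPlane.I), y₀), ?_, fun g hg x => ?_, hz⟩
  · have h1 : Z = fun b => (zeta D ((b.1, (b.2, 0)) : X r)).2 := funext fun b =>
      (hz ((b.1, (b.2, 0)) : X r)).symm
    rw [h1]
    refine continuous_snd.comp ((continuous_zeta D).comp ?_)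
    exact continuous_fst.prodMk (continuous_snd.prodMk continuous_const)
  · obtain ⟨γ, δ, hγ, hδ, hgx⟩ := mem_DG.1 hg
    have hd : IsDeck (surf S)
        (fun x : X r => ((fun i => γ i • x.1 i, (δ x.2.1, x.2.2)) : X r)) := by
      refine ⟨γ, ⟨fun p => (δ p.1, p.2), fun p => (δ.symm p.1, p.2), fun p => ?_, fun p => ?_⟩,
        hγ, ?_, fun x => rfl⟩
      · exact Prod.ext (δ.symm_apply_apply _) rfl
      · exact Prod.ext (δ.apply_symm_apply _) rfl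
      · refine Tor.mem_Γ.2 ⟨δ, hδ, fun _ => 0, fun p => Prod.ext rfl (funext fun j => ?_)⟩
        show p.2 j = p.2 j + ((0 : ℤ) : ℝ)
        rw [Int.cast_zero, add_zero]
    obtain ⟨w, -, hw⟩ := sym_of_deck D hd
    have key : ∀ b, Z (g b) = Z b + w.2 := by
      intro b
      have h1 := congrArg Prod.snd (hw ((b.1, (b.2, 0)) : X r))
      rw [Prod.snd_add, hz, hz] at h1
      rw [hgx b]
      exact h1
    show Z (g x) = Z x + (Z (g ((fun _ => UpperHalfPlane.I), y₀)) -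
      Z ((fun _ => UpperHalfPlane.I), y₀))
    rw [key, key]
    abel

theorem orbit_grow {T₀ T : X r ≃ₜ X r} (h : Setting S T₀ T)
    (hT₀ : ∀ x, T₀ x = skew S D.A D.τ x) {F : ∀ i, Flat (S i)} (hU : ∀ i, FUnip (F i))
    {κ : Fin r → ℍ} (hκ : IsType F κ) {m : ℕ} (hm : 0 < m) {γ : Fin r → SL(2, ℝ)}
    (hγ : InΓ S γ) {δ : Equiv.Perm Fib.W} (hδ : δ ∈ Fib.Γ)
    (he : ∀ i, (F i).Eqv (κ i) (γ i • (S i).f^[m] (κ i))) {x : X r}
    (hx : ∀ i, DU F T i (Sum.inl (κ i)) (Sum.inr x) = 0) :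
    ∀ ε > (0 : ℝ), ∃ C : ℝ, ∀ n : ℕ,
      ‖(zeta D ((fun y => dk γ δ (T^[m] y))^[n] x)).2‖ ≤ C * (1 + ε) ^ n := by
  -- the lift
  obtain ⟨g, hg⟩ := exists_dk γ hδ
  obtain ⟨T', hT'⟩ : ∃ T' : X r ≃ₜ X r, ∀ y, T' y = dk γ δ (T^[m] y) :=
    ⟨(T ^ m).trans g, fun y => by rw [Homeomorph.trans_apply, hg, pow_apply_TorType]⟩
  have hT'fun : (fun y => dk γ δ (T^[m] y)) = T' := funext fun y => (hT' y).symm
  rw [hT'fun]
  choose H hH hHz using fun i => exists_liftPow (S := S i) m (hγ i)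
  have hl : IsLift S T m T' H := ⟨γ, δ, hγ, hδ, hT', hHz⟩
  have heH : ∀ i, (F i).Eqv (κ i) (H i (κ i)) := fun i => by
    rw [hHz]
    exact he i
  have heu : ∀ i (y : X r), DU F T i (Sum.inl (H i (κ i))) (Sum.inr y) =
      DU F T i (Sum.inl (κ i)) (Sum.inr y) := by
    intro i y
    refine ((isTree_DU h i).congr_left ?_ _).symm
    rw [DU_inl]
    exact (heH i).1
  have hes : ∀ i (y : X r), DS F T i (Sum.inl (H i (κ i))) (Sum.inr y) =
      DS F T i (Sum.inl (κ i)) (Sum.inr y) := by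
    intro i y
    refine ((isTree_DS h i).congr_left ?_ _).symm
    rw [DS_inl]
    exact (heH i).2
  -- the first pseudo-distances are zero on the orbit
  have hu : ∀ (n : ℕ) i, DU F T i (Sum.inl (κ i)) (Sum.inr (T'^[n] x)) = 0 := by
    intro n
    induction n with
    | zero => exact hx
    | succ n ih =>
      intro i
      rw [Function.iterate_succ_apply']
      have h1 := (DU_lift (F := F) h hl i (Sum.inl (κ i)) (Sum.inr (T'^[n] x))).2
      have h2 : DU F T i (st (H i) T' (Sum.inl (κ i))) (st (H i) T' (Sum.inr (T'^[n] x))) =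
        DU F T i (Sum.inl (κ i)) (Sum.inr (T' (T'^[n] x))) := heu i _
      rw [h2, ih i, mul_zero] at h1
      exact le_antisymm h1 ((isTree_DU h i).nonneg _ _)
  -- the second ones are contracted
  have hs : ∀ i (n : ℕ), ((F i).l ^ m) ^ n * DS F T i (Sum.inl (κ i)) (Sum.inr (T'^[n] x)) ≤
      DS F T i (Sum.inl (κ i)) (Sum.inr x) := by
    intro i n
    have hl0 : 0 < (F i).l := lt_trans one_pos (F i).one_lt
    induction n with
    | zero => simp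
    | succ n ih =>
      have h1 := (DS_lift (F := F) h hl i (Sum.inl (κ i)) (Sum.inr (T'^[n] x))).1
      have h2 : DS F T i (st (H i) T' (Sum.inl (κ i))) (st (H i) T' (Sum.inr (T'^[n] x))) =
        DS F T i (Sum.inl (κ i)) (Sum.inr (T' (T'^[n] x))) := hes i _
      rw [h2, ← Function.iterate_succ_apply' T'] at h1
      have h3 := mul_le_mul_of_nonneg_left h1 (pow_pos (pow_pos hl0 m) n).le
      rw [← mul_assoc, ← pow_succ] at h3
      exact h3.trans ih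
  -- compact sets
  obtain ⟨ε₀, hε₀, K, hK, hKx⟩ := cocompact_NN (F := F) h (w' := κ) (w'' := κ)
    (fun i => (hκ i).imp id fun h' => ⟨rfl, h'⟩)
  obtain ⟨L, hL, hLy⟩ := TFib.base.cocompact
  have hn0 : ∀ i, ∃ n₀ : ℕ, ∀ n, n₀ ≤ n →
      DS F T i (Sum.inl (κ i)) (Sum.inr (T'^[n] x)) ≤ ε₀ := by
    intro i
    have hl1 : 1 < (F i).l ^ m := one_lt_pow₀ (F i).one_lt hm.ne'
    obtain ⟨n₀, hn₀⟩ := pow_unbounded_of_one_lt
      (DS F T i (Sum.inl (κ i)) (Sum.inr x) / ε₀) hl1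
    refine ⟨n₀, fun n hn => ?_⟩
    have h1 := hs i n
    have h2 : ((F i).l ^ m) ^ n₀ ≤ ((F i).l ^ m) ^ n := pow_le_pow_right₀ hl1.le hn
    rw [div_lt_iff₀ hε₀] at hn₀
    have h3 : 0 < ((F i).l ^ m) ^ n := pow_pos (zero_lt_one.trans hl1) n
    by_contra h4
    rw [not_le] at h4
    have h5 : ((F i).l ^ m) ^ n * ε₀ <
        ((F i).l ^ m) ^ n * DS F T i (Sum.inl (κ i)) (Sum.inr (T'^[n] x)) :=
      mul_lt_mul_of_pos_left h4 h3
    have h6 : ((F i).l ^ m) ^ n₀ * ε₀ ≤ ((F i).l ^ m) ^ n * ε₀ :=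
      mul_le_mul_of_nonneg_right h2 hε₀.le
    linarith
  choose N hN using hn0
  obtain ⟨n₀, hn₀⟩ : ∃ n₀ : ℕ, n₀ = ∑ i, N i := ⟨_, rfl⟩
  have hNn : ∀ i, N i ≤ n₀ := fun i => by
    rw [hn₀]
    exact Finset.single_le_sum (fun _ _ => Nat.zero_le _) (Finset.mem_univ i)
  -- the base
  obtain ⟨δ₀, hδ₀, v, hv⟩ := Tor.mem_Γ.1 hδ
  obtain ⟨Z, hfun, hZc, hZh, hZz⟩ := zmap_TorType D
  obtain ⟨C, hC⟩ := dist_iterate h m
  have hT₀2 : ∀ (n : ℕ) (y : X r), (T₀^[n] y).2.1 = y.2.1 := by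
    intro n y
    induction n with
    | zero => rfl
    | succ n ih =>
      rw [Function.iterate_succ_apply', hT₀]
      exact ih
  have hstep : ∀ y : X r, dist (((T' y).1, (T' y).2.1) : (Fin r → ℍ) × TFib.base.W)
      (pk TFib.base (fun i => (H i).toEquiv, δ₀) (y.1, y.2.1)) ≤ C := by
    intro y
    have h1 : (pk TFib.base (fun i => (H i).toEquiv, δ₀) (y.1, y.2.1) :
        (Fin r → ℍ) × TFib.base.W) =
        ((dk γ δ (T₀^[m] y)).1, (dk γ δ (T₀^[m] y)).2.1) := by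
      refine Prod.ext (funext fun i => ?_) ?_
      · show H i (y.1 i) = γ i • (T₀^[m] y).1 i
        rw [hHz, h.cover_iterate]
      · have h3 : (dk γ δ (T₀^[m] y)).2.1 = δ₀ (T₀^[m] y).2.1 :=
          congrArg Prod.fst (hv (T₀^[m] y).2)
        rw [h3, hT₀2]
        rfl
    rw [h1]
    refine (dist_base_TorType _ _).trans ?_
    rw [hT', (A2.Dyn.IsDeck.isometry (isDeck_dk hγ hδ)).dist_eq]
    exact hC y
  have hgrow := norm_zeta (N := TFib.base) (F := F) (κ := κ) hU hκ hm hH heH hδ₀ hZc hZh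
    (p := fun n => ((T'^[n₀ + n] x).1, (T'^[n₀ + n] x).2.1)) (C := C) (fun n => by
      have h1 := hstep (T'^[n₀ + n] x)
      rw [← Function.iterate_succ_apply' T'] at h1
      exact h1)
    (K := (univ.pi K) ×ˢ L) ((isCompact_univ_pi hK).prod hL) (fun n => by
      obtain ⟨γ', hγ', -, h2, -, h4⟩ := hKx (T'^[n₀ + n] x) fun i => ⟨by
        rw [hu]
        exact hε₀.le, hN i _ ((hNn i).trans (Nat.le_add_right _ _))⟩
      obtain ⟨δ', hδ', h5⟩ := hLy (T'^[n₀ + n] x).2.1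
      refine ⟨pk TFib.base (fun i => MulAction.toPermHom SL(2, ℝ) ℍ (γ' i), δ'),
        mem_StG.2 ⟨γ', δ', hγ', h2, hδ', fun y => rfl⟩, ?_⟩
      exact ⟨fun i _ => h4 i, h5⟩)
  intro ε hε
  obtain ⟨D', hD'⟩ := hgrow ε hε
  refine ⟨|D'| + ∑ j ∈ Finset.range n₀, ‖(zeta D (T'^[j] x)).2‖, fun n => ?_⟩
  have hp : (1 : ℝ) ≤ (1 + ε) ^ n := one_le_pow₀ (by linarith)
  have hsum : 0 ≤ ∑ j ∈ Finset.range n₀, ‖(zeta D (T'^[j] x)).2‖ :=
    Finset.sum_nonneg fun j _ => norm_nonneg _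
  rcases lt_or_ge n n₀ with hn | hn
  · have h1 : ‖(zeta D (T'^[n] x)).2‖ ≤ ∑ j ∈ Finset.range n₀, ‖(zeta D (T'^[j] x)).2‖ :=
      Finset.single_le_sum (f := fun j => ‖(zeta D (T'^[j] x)).2‖) (fun j _ => norm_nonneg _)
        (Finset.mem_range.2 hn)
    have h2 : ‖(zeta D (T'^[n] x)).2‖ ≤
        |D'| + ∑ j ∈ Finset.range n₀, ‖(zeta D (T'^[j] x)).2‖ :=
      h1.trans (le_add_of_nonneg_left (abs_nonneg _))
    calc _ ≤ (|D'| + ∑ j ∈ Finset.range n₀, ‖(zeta D (T'^[j] x)).2‖) * 1 := by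
          rw [mul_one]
          exact h2
      _ ≤ _ := mul_le_mul_of_nonneg_left hp (add_nonneg (abs_nonneg _) hsum)
  · obtain ⟨k, rfl⟩ := Nat.exists_eq_add_of_le hn
    have h1 : ‖(zeta D (T'^[n₀ + k] x)).2‖ ≤ D' * (1 + ε) ^ k := by
      rw [hZz]
      exact hD' k
    have h2 : (1 + ε) ^ k ≤ (1 + ε) ^ (n₀ + k) :=
      pow_le_pow_right₀ (by linarith) (Nat.le_add_left _ _)
    have h0 : (0 : ℝ) ≤ (1 + ε) ^ k := pow_nonneg (by linarith) _
    calc _ ≤ D' * (1 + ε) ^ k := h1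
      _ ≤ |D'| * (1 + ε) ^ k := mul_le_mul_of_nonneg_right (le_abs_self _) h0
      _ ≤ |D'| * (1 + ε) ^ (n₀ + k) := mul_le_mul_of_nonneg_left h2 (abs_nonneg _)
      _ ≤ _ := mul_le_mul_of_nonneg_right (le_add_of_nonneg_right hsum)
        (zero_le_one.trans hp)

/-- On a type the torus function of a lift is expanded by `A^m` from a level `c`, which is the same
for all maps in the homotopy class. -/
theorem TU_lift {T₀ : X r ≃ₜ X r} (hT₀ : ∀ x, T₀ x = skew S D.A D.τ x) {F : ∀ i, Flat (S i)}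
    (hU : ∀ i, FUnip (F i)) {κ : Fin r → ℍ} (hκ : IsType F κ) {m : ℕ} (hm : 0 < m)
    {γ : Fin r → SL(2, ℝ)} (hγ : InΓ S γ) {δ : Equiv.Perm Fib.W} (hδ : δ ∈ Fib.Γ)
    (he : ∀ i, (F i).Eqv (κ i) (γ i • (S i).f^[m] (κ i))) :
    ∃ c, D.sA.pr c = c ∧ ∀ T : X r ≃ₜ X r, Setting S T₀ T → ∀ x,
      (∀ i, DU F T i (Sum.inl (κ i)) (Sum.inr x) = 0) →
        TU D T (dk γ δ (T^[m] x)) - c = (lin D.A ^ m) (TU D T x - c) := by
  obtain ⟨w, hw⟩ := sym_of_deck D (isDeck_dk hγ hδ)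
  obtain ⟨e, he1, he2⟩ := exists_fix D.sL hm w
  have hpp : ∀ v, D.sA.pr (D.sA.pr v) = D.sA.pr v := fun v => DFunLike.congr_fun D.sA.pr_pr v
  have hpl : ∀ (n : ℕ) (v : Fin TFib.k → ℝ),
      D.sA.pr ((lin D.A ^ n) v) = (lin D.A ^ n) (D.sA.pr v) := by
    intro n
    induction n with
    | zero => exact fun v => rfl
    | succ n ih =>
      intro v
      have h1 : D.sA.pr (lin D.A v) = lin D.A (D.sA.pr v) := DFunLike.congr_fun D.sA.pr_L v
      rw [pow_succ_TorType, pow_succ_TorType, ih, h1]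
  have hinl : ∀ (n : ℕ) (u : Fin TFib.k → ℝ),
      (D.L ^ n) ((u, 0) : EE D.d) = ((lin D.A ^ n) u, 0) := by
    intro n
    induction n with
    | zero => exact fun u => rfl
    | succ n ih =>
      intro u
      have h1 : D.L ((u, 0) : EE D.d) = (lin D.A u, 0) :=
        DFunLike.congr_fun (exm_inl D.A D.a) u
      rw [pow_succ_TorType, pow_succ_TorType, h1, ih]
  refine ⟨D.sA.pr e.1, hpp _, fun T h x hx => ?_⟩
  have hc := isCoc_X h hT₀
  have h2 : (th D.sL (zeta D) T x).2 = e.2 :=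
    hc.type D.sL D.sB (q := ContinuousLinearMap.snd ℝ (Fin TFib.k → ℝ)
      (Fin (D.d + 1) → Fin TFib.k → ℝ)) (cmp_snd D.A D.a) hm hw
      (R' := fun y => dk γ δ (T^[m] y)) (fun y => rfl) he1 he2
      (orbit_grow h hT₀ hU hκ hm hγ hδ he hx)
  have h3 : th D.sL (zeta D) T (dk γ δ (T^[m] x)) =
      (D.L ^ m) (th D.sL (zeta D) T x) + D.sL.pr w := hc.th_lift D.sL hw m x
  have h4 : th D.sL (zeta D) T x - e = (((th D.sL (zeta D) T x).1 - e.1, 0) : EE D.d) :=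
    Prod.ext rfl (sub_eq_zero.2 h2)
  have h5 : th D.sL (zeta D) T (dk γ δ (T^[m] x)) - e =
      (D.L ^ m) (th D.sL (zeta D) T x - e) := by
    rw [h3, map_sub]
    conv_lhs => rw [he2]
    abel
  rw [h4, hinl] at h5
  have h6 : (th D.sL (zeta D) T (dk γ δ (T^[m] x))).1 - e.1 =
      (lin D.A ^ m) ((th D.sL (zeta D) T x).1 - e.1) := congrArg Prod.fst h5
  show D.sA.pr (th D.sL (zeta D) T (dk γ δ (T^[m] x))).1 - D.sA.pr e.1 =
    (lin D.A ^ m) (D.sA.pr (th D.sL (zeta D) T x).1 - D.sA.pr e.1)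
  rw [← map_sub, h6, hpl, map_sub D.sA.pr]

end Pool.Agent.ANO5.Lin
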