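import Pool.Agent.ANO5.Lin.Both
import Pool.Agent.ANO5.Lin.TorType

/-!
# ANO5, module Lin: the two torus functions on a type (package LIN-BOTHTYPE)

`DU_type`, `DS_type`: the homeomorphism `T' = dk γ δ ∘ T^[m]` (`exists_dk`), `H i`
(`exists_liftPow`),
`IsLift S T m T' H`; `DU_lift`, `DS_lift` (`0 < l^m`, `0 < L^m`), and
`DU (κ i) (H i (κ i)) = 0` (`DU_inl`, `he`, `IsTree.congr_left`).

`exists_level`: `c_u` from `TU_lift P.model`. For `V`: `IsLift.symm` for `T₀` (a lift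
`T₀' = dk γ δ ∘ T₀^m`) gives `γ'`, `δ'` with `T₀'⁻¹ = dk γ' δ' ∘ T₀⁻¹^m` and
`(H i)⁻¹ z = γ' i • f^(-m) z`, so `Eqv (κ i) (γ' i • f^(-m) (κ i))`. For every `T` in the homotopy
class `T'⁻¹ = dk γ' δ' ∘ T⁻¹^m` with the same `γ'`, `δ'`: `IsLift.symm` (or `hom_dk_iterate` for
`h.symm`) gives `g''` with `T^(-m) ∘ g⁻¹ = g'' ∘ T^(-m)` and `T₀^(-m) ∘ g⁻¹ = g'' ∘ T₀^(-m)`, and
`g'' = dk γ' δ'` as `T₀^(-m)` is surjective. Let `c_s` be the level of `TU_lift P.model'` for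
`rev S`, `F.rev` (`FUnip.rev`), `γ'`, `δ'`. For `x` with `DS (κ i) x = 0` put `y = T' x`;
`DS (κ i) y = 0` (`DS_type`) and `V x - c_s = A^(-m) (V y - c_s)`, so
`V y - c_s = A^m (V x - c_s)` (`lin_inv`). `c = c_u + c_s`: `pr c = c_u`, `c - pr c = c_s`
(`TPair.eq_iff`).
`level_unique`: `v = c - c'` satisfies `A^m v = v`: subtract the equations for a point `x`:
`(c' - c) = A^m (c' - c)` in both components; `one_sub_injective`.
`chi_conj`: let `g' ∘ T' = T' ∘ g`: for `x` with `DU = 0` also `DU (κ i) (g x) = 0`, so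
`U (T' (g x)) - pr c = A^m (U (g x) - pr c) = A^m (U x - pr c) + A^m (pr (chi g))` and
`U (g' (T' x)) = U (T' x) + pr (chi g')`. The same for `V`.
-/

set_option autoImplicit false

open scoped UpperHalfPlane MatrixGroups
open Set Filter Topology

namespace Pool.Agent.ANO5.Lin

open Pool.Agent.ANO3 Pool.Agent.ANO5.A1 Pool.Agent.ANO5.A2 Pool.Agent.ANO5.A3 Pool.Agent.ANO5.Tor

private theorem pow_apply_BothType {Z : Type*} [TopologicalSpace Z] (T : Z ≃ₜ Z) (n : ℕ) (x : Z) :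
    (T ^ n) x = T^[n] x := by
  induction n generalizing x with
  | zero => rfl
  | succ n ih =>
    rw [pow_succ, Function.iterate_succ_apply, ← ih]
    rfl

private theorem iter_symm_BothType {Z : Type*} [TopologicalSpace Z] (T : Z ≃ₜ Z) (n : ℕ) (x : Z) :
    T^[n] (T.symm^[n] x) = x :=
  Function.LeftInverse.iterate (f := T.symm) (g := T) (fun y => T.apply_symm_apply y) n x

private theorem iter_symm'_BothType {Z : Type*} [TopologicalSpace Z] (T : Z ≃ₜ Z) (n : ℕ) (x : Z) :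
    T.symm^[n] (T^[n] x) = x :=
  Function.LeftInverse.iterate (f := T) (g := T.symm) (fun y => T.symm_apply_apply y) n x

private theorem lift_BothType [Fib] {r : ℕ} {S : Fin r → SurfaceMap} (T : X r ≃ₜ X r) (m : ℕ)
    {γ : Fin r → SL(2, ℝ)} (hγ : InΓ S γ) {δ : Equiv.Perm Fib.W} (hδ : δ ∈ Fib.Γ) :
    ∃ (T' : X r ≃ₜ X r) (H : Fin r → ℍ ≃ₜ ℍ), IsLift S T m T' H ∧
      (∀ x, T' x = dk γ δ (T^[m] x)) ∧ ∀ i z, H i z = γ i • (S i).f^[m] z := by
  obtain ⟨g, hg⟩ := exists_dk γ hδ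
  have hT' : ∀ y, ((T ^ m).trans g) y = dk γ δ (T^[m] y) := fun y => by
    rw [Homeomorph.trans_apply, hg, pow_apply_BothType]
  choose H hH hHz using fun i => exists_liftPow (S := S i) m (hγ i)
  exact ⟨(T ^ m).trans g, H, ⟨γ, δ, hγ, hδ, hT', hHz⟩, hT', hHz⟩

theorem DU_type [Fib] {r : ℕ} {S : Fin r → SurfaceMap} {F : ∀ i, Flat (S i)}
    {T₀ T : X r ≃ₜ X r} (h : Setting S T₀ T) {κ : Fin r → ℍ} {m : ℕ} {γ : Fin r → SL(2, ℝ)}
    (hγ : InΓ S γ) {δ : Equiv.Perm Fib.W} (hδ : δ ∈ Fib.Γ)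
    (he : ∀ i, (F i).Eqv (κ i) (γ i • (S i).f^[m] (κ i))) (i : Fin r) (x : X r) :
    DU F T i (Sum.inl (κ i)) (Sum.inr (dk γ δ (T^[m] x))) = 0 ↔
      DU F T i (Sum.inl (κ i)) (Sum.inr x) = 0 := by
  obtain ⟨T', H, hl, hT', hHz⟩ := lift_BothType (S := S) T m hγ hδ
  have heu : DU F T i (Sum.inl (H i (κ i))) (Sum.inr (T' x)) =
      DU F T i (Sum.inl (κ i)) (Sum.inr (T' x)) := by
    refine ((isTree_DU h i).congr_left ?_ _).symm
    rw [DU_inl, hHz]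
    exact (he i).1
  have h1 := DU_lift (F := F) h hl i (Sum.inl (κ i)) (Sum.inr x)
  have h2 : DU F T i (st (H i) T' (Sum.inl (κ i))) (st (H i) T' (Sum.inr x)) =
      DU F T i (Sum.inl (κ i)) (Sum.inr (T' x)) := heu
  rw [h2] at h1
  rw [← hT']
  have hl0 : 0 < (F i).l ^ m := pow_pos (lt_trans one_pos (F i).one_lt) m
  constructor
  · intro h0
    rw [h0] at h1
    refine le_antisymm ?_ ((isTree_DU h i).nonneg _ _)
    by_contra h3
    exact absurd h1.1 (not_le.2 (mul_pos hl0 (not_le.1 h3)))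
  · intro h0
    rw [h0, mul_zero, mul_zero] at h1
    exact le_antisymm h1.2 h1.1

theorem DS_type [Fib] {r : ℕ} {S : Fin r → SurfaceMap} {F : ∀ i, Flat (S i)}
    {T₀ T : X r ≃ₜ X r} (h : Setting S T₀ T) {κ : Fin r → ℍ} {m : ℕ} {γ : Fin r → SL(2, ℝ)}
    (hγ : InΓ S γ) {δ : Equiv.Perm Fib.W} (hδ : δ ∈ Fib.Γ)
    (he : ∀ i, (F i).Eqv (κ i) (γ i • (S i).f^[m] (κ i))) (i : Fin r) (x : X r) :
    DS F T i (Sum.inl (κ i)) (Sum.inr (dk γ δ (T^[m] x))) = 0 ↔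
      DS F T i (Sum.inl (κ i)) (Sum.inr x) = 0 := by
  obtain ⟨T', H, hl, hT', hHz⟩ := lift_BothType (S := S) T m hγ hδ
  have heu : DS F T i (Sum.inl (H i (κ i))) (Sum.inr (T' x)) =
      DS F T i (Sum.inl (κ i)) (Sum.inr (T' x)) := by
    refine ((isTree_DS h i).congr_left ?_ _).symm
    rw [DS_inl, hHz]
    exact (he i).2
  have h1 := DS_lift (F := F) h hl i (Sum.inl (κ i)) (Sum.inr x)
  have h2 : DS F T i (st (H i) T' (Sum.inl (κ i))) (st (H i) T' (Sum.inr x)) =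
      DS F T i (Sum.inl (κ i)) (Sum.inr (T' x)) := heu
  rw [h2] at h1
  rw [← hT']
  have hl0 : 0 < (F i).l ^ m := pow_pos (lt_trans one_pos (F i).one_lt) m
  constructor
  · intro h0
    rw [h0, mul_zero, mul_zero] at h1
    exact le_antisymm h1.2 h1.1
  · intro h0
    rw [h0] at h1
    refine le_antisymm ?_ ((isTree_DS h i).nonneg _ _)
    by_contra h3
    exact absurd h1.1 (not_le.2 (mul_pos hl0 (not_le.1 h3)))

variable [TFib] {r : ℕ} {S : Fin r → SurfaceMap}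

/-- `c` is the level of the lift `dk γ δ ∘ T^m` on the type `κ`, for all maps `T` in the homotopy
class of the model. -/
def IsLevel {T₀ : X r ≃ₜ X r} (P : TPair S T₀) (F : ∀ i, Flat (S i)) (κ : Fin r → ℍ) (m : ℕ)
    (γ : Fin r → SL(2, ℝ)) (δ : Equiv.Perm Fib.W) (c : Fin TFib.k → ℝ) : Prop :=
  ∀ T : X r ≃ₜ X r, Setting S T₀ T → ∀ x,
    ((∀ i, DU F T i (Sum.inl (κ i)) (Sum.inr x) = 0) →
      P.U T (dk γ δ (T^[m] x)) - P.pr c = (lin P.D.A ^ m) (P.U T x - P.pr c)) ∧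
    ((∀ i, DS F T i (Sum.inl (κ i)) (Sum.inr x) = 0) →
      P.V T (dk γ δ (T^[m] x)) - (c - P.pr c) =
        (lin P.D.A ^ m) (P.V T x - (c - P.pr c)))

private theorem pow_inv_BothType {E' : Type*} [NormedAddCommGroup E'] [NormedSpace ℝ E']
    {A B : E' →L[ℝ] E'} (hAB : A ∘L B = ContinuousLinearMap.id ℝ _) (n : ℕ) (v : E') :
    (A ^ n) ((B ^ n) v) = v := by
  have h1 : ∀ w, A (B w) = w := fun w => DFunLike.congr_fun hAB w
  induction n generalizing v with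
  | zero => rfl
  | succ n ih =>
    have h3 : (A ^ (n + 1)) ((B ^ (n + 1)) v) = (A ^ n) (A (B ((B ^ n) v))) := by
      have h4 : (A ^ (n + 1)) ((B ^ (n + 1)) v) = (A ^ n) (A ((B ^ (n + 1)) v)) := by
        rw [pow_succ A n]
        rfl
      have h5 : (B ^ (n + 1)) v = B ((B ^ n) v) := by
        rw [pow_succ' B n]
        rfl
      rw [h4, h5]
    rw [h3, h1, ih]

theorem exists_level {T₀ : X r ≃ₜ X r} (P : TPair S T₀) (h : Setting S T₀ T₀)
    {F : ∀ i, Flat (S i)} (hU : ∀ i, FUnip (F i)) {κ : Fin r → ℍ} (hκ : IsType F κ) {m : ℕ}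
    (hm : 0 < m) {γ : Fin r → SL(2, ℝ)} (hγ : InΓ S γ) {δ : Equiv.Perm Fib.W}
    (hδ : δ ∈ Fib.Γ) (he : ∀ i, (F i).Eqv (κ i) (γ i • (S i).f^[m] (κ i))) :
    ∃ c, IsLevel P F κ m γ δ c := by
  obtain ⟨cu, hcu, hcu'⟩ := TU_lift P.model hU hκ hm hγ hδ he
  have hγi : InΓ (fun i => rev (S i)) (fun i => (γ i)⁻¹) := fun i => (S i).Γ.inv_mem (hγ i)
  have hδi : δ⁻¹ ∈ Fib.Γ := Fib.Γ.inv_mem hδ
  obtain ⟨γ', δ', hγ', hδ', h0, -, h2⟩ := h.symm.hom_dk_iterate m hγi hδi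
  have hκ' : IsType (fun i => (F i).rev) κ := fun i => (hκ i).imp Flat.reg_rev.2 id
  have he' : ∀ i, (F i).rev.Eqv (κ i) (γ' i • (rev (S i)).f^[m] (κ i)) := by
    intro i
    obtain ⟨H, hH, hHz⟩ := exists_liftPow (S := S i) m (hγ i)
    rw [← h2 i (κ i), Flat.eqv_rev]
    have h3 : H ((rev (S i)).f^[m] ((γ i)⁻¹ • κ i)) = κ i := by
      rw [hHz]
      have h4 : (S i).f^[m] ((rev (S i)).f^[m] ((γ i)⁻¹ • κ i)) = (γ i)⁻¹ • κ i :=
        iter_symm_BothType (S i).f m _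
      rw [h4, smul_inv_smul]
    have h5 := he i
    rw [← hHz] at h5
    have h6 : (F i).du (H (κ i)) (H ((rev (S i)).f^[m] ((γ i)⁻¹ • κ i))) = 0 := by
      rw [h3, (F i).isTree_u.symm]
      exact h5.1
    have h7 : (F i).ds (H (κ i)) (H ((rev (S i)).f^[m] ((γ i)⁻¹ • κ i))) = 0 := by
      rw [h3, (F i).isTree_s.symm]
      exact h5.2
    exact ⟨((F i).du_lift_zero hH _ _).1 h6, ((F i).ds_lift_zero hH _ _).1 h7⟩
  obtain ⟨cs, hcs, hcs'⟩ := TU_lift (S := fun i => rev (S i)) (D := P.D') P.model'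
    (F := fun i => (F i).rev) (fun i => (hU i).rev) hκ' hm hγ' hδ' he'
  have hcs0 : P.pr cs = 0 := by
    have h3 := P.pr_inv cs
    rw [hcs] at h3
    have h4 : P.pr cs = cs - (cs - P.pr cs) := by abel
    rw [h4, ← h3, sub_self]
  have hpr : P.pr (cu + cs) = cu := by
    rw [map_add, hcs0, add_zero]
    exact hcu
  refine ⟨cu + cs, fun T hT x => ⟨fun hx => ?_, fun hx => ?_⟩⟩
  · rw [hpr]
    exact hcu' T hT x hx
  · have e1 : cu + cs - P.pr (cu + cs) = cs := by rw [hpr]; abel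
    rw [e1]
    obtain ⟨γ'', δ'', -, -, h0', h1', -⟩ := hT.symm.hom_dk_iterate m hγi hδi
    have hdk : ∀ z, dk γ'' δ'' z = dk γ' δ' z := by
      intro z
      have h3 := h0' (T₀^[m] z)
      have h4 := h0 (T₀^[m] z)
      rw [iter_symm'_BothType] at h3 h4
      rw [← h3, ← h4]
    have h5 : dk γ' δ' (T.symm^[m] (dk γ δ (T^[m] x))) = x := by
      rw [← hdk, ← h1', dk_inv, iter_symm'_BothType]
    have hy : ∀ i, DS F T i (Sum.inl (κ i)) (Sum.inr (dk γ δ (T^[m] x))) = 0 := fun i =>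
      (DS_type hT hγ hδ he i x).2 (hx i)
    have h6 := hcs' T.symm hT.symm (dk γ δ (T^[m] x)) hy
    rw [h5] at h6
    have h7 : (lin P.D.A ^ m) (TU P.D' T.symm x - cs) =
        TU P.D' T.symm (dk γ δ (T^[m] x)) - cs := by
      rw [h6, P.inv]
      exact pow_inv_BothType (lin_inv P.hyp).1 m _
    exact h7.symm

theorem level_unique {T₀ : X r ≃ₜ X r} (P : TPair S T₀) {F : ∀ i, Flat (S i)} {κ : Fin r → ℍ}
    {m : ℕ} (hm : 0 < m) {γ : Fin r → SL(2, ℝ)} {δ : Equiv.Perm Fib.W} {c c' : Fin TFib.k → ℝ}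
    (hc : IsLevel P F κ m γ δ c) (hc' : IsLevel P F κ m γ δ c') {T : X r ≃ₜ X r}
    (h : Setting S T₀ T) {x : X r}
    (hx : ∀ i, DU F T i (Sum.inl (κ i)) (Sum.inr x) = 0 ∧
      DS F T i (Sum.inl (κ i)) (Sum.inr x) = 0) : c = c' := by
  obtain ⟨a1, a2⟩ := hc T h x
  obtain ⟨b1, b2⟩ := hc' T h x
  have h1 := a1 fun i => (hx i).1
  have h2 := a2 fun i => (hx i).2
  have h3 := b1 fun i => (hx i).1
  have h4 := b2 fun i => (hx i).2
  rw [← sub_eq_zero]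
  apply one_sub_injective P.hyp hm
  have key : (lin P.D.A ^ m) (c - c') =
      ((lin P.D.A ^ m) (P.U T x - P.pr c') - (lin P.D.A ^ m) (P.U T x - P.pr c)) +
      ((lin P.D.A ^ m) (P.V T x - (c' - P.pr c')) -
        (lin P.D.A ^ m) (P.V T x - (c - P.pr c))) := by
    rw [← map_sub, ← map_sub, ← map_add]
    congr 1
    abel
  rw [key, ← h1, ← h2, ← h3, ← h4]
  abel

/-- the shifts of the stabilizer of a type are multiplied by `A^m` under the conjugation with a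
lift -/
theorem chi_conj {T₀ : X r ≃ₜ X r} (P : TPair S T₀) {F : ∀ i, Flat (S i)} {κ : Fin r → ℍ}
    {m : ℕ} {γ : Fin r → SL(2, ℝ)} {δ : Equiv.Perm Fib.W} {c : Fin TFib.k → ℝ}
    (hc : IsLevel P F κ m γ δ c) {T : X r ≃ₜ X r} (h : Setting S T₀ T) {x : X r}
    (hx : ∀ i, DU F T i (Sum.inl (κ i)) (Sum.inr x) = 0 ∧
      DS F T i (Sum.inl (κ i)) (Sum.inr x) = 0) {g g' : X r → X r} (hg : IsDeck (surf S) g)
    (hg' : IsDeck (surf S) g')
    (hgx : ∀ i, DU F T i (Sum.inl (κ i)) (Sum.inr (g x)) = 0 ∧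
      DS F T i (Sum.inl (κ i)) (Sum.inr (g x)) = 0)
    (e : dk γ δ (T^[m] (g x)) = g' (dk γ δ (T^[m] x))) :
    P.chi g' = (lin P.D.A ^ m) (P.chi g) := by
  obtain ⟨a1, a2⟩ := hc T h x
  obtain ⟨b1, b2⟩ := hc T h (g x)
  have h1 := a1 fun i => (hx i).1
  have h2 := a2 fun i => (hx i).2
  have h3 := b1 fun i => (hgx i).1
  have h4 := b2 fun i => (hgx i).2
  rw [e, P.U_act h hg, P.U_act h hg'] at h3
  rw [e, P.V_act h hg, P.V_act h hg'] at h4
  have e1 : P.U T x + P.pr (P.chi g) - P.pr c = (P.U T x - P.pr c) + P.pr (P.chi g) := by abel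
  have e2 : P.V T x + (P.chi g - P.pr (P.chi g)) - (c - P.pr c) =
      (P.V T x - (c - P.pr c)) + (P.chi g - P.pr (P.chi g)) := by abel
  rw [e1, map_add, ← h1] at h3
  rw [e2, map_add, ← h2] at h4
  have h5 : P.pr (P.chi g') = (lin P.D.A ^ m) (P.pr (P.chi g)) := by
    have h6 : P.pr (P.chi g') = (P.U T (dk γ δ (T^[m] x)) + P.pr (P.chi g') - P.pr c) -
        (P.U T (dk γ δ (T^[m] x)) - P.pr c) := by abel
    rw [h6, h3]
    abel
  have h7 : P.chi g' - P.pr (P.chi g') = (lin P.D.A ^ m) (P.chi g - P.pr (P.chi g)) := by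
    have h6 : P.chi g' - P.pr (P.chi g') =
        (P.V T (dk γ δ (T^[m] x)) + (P.chi g' - P.pr (P.chi g')) - (c - P.pr c)) -
        (P.V T (dk γ δ (T^[m] x)) - (c - P.pr c)) := by abel
    rw [h6, h4]
    abel
  calc P.chi g' = P.pr (P.chi g') + (P.chi g' - P.pr (P.chi g')) := by abel
    _ = (lin P.D.A ^ m) (P.pr (P.chi g)) + (lin P.D.A ^ m) (P.chi g - P.pr (P.chi g)) :=
        congrArg₂ (· + ·) h5 h7
    _ = (lin P.D.A ^ m) (P.chi g) := by
        rw [← map_add]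
        congr 1
        abel

end Pool.Agent.ANO5.Lin
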