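import Pool.Agent.ANO5.Lin.Lim
import Pool.Agent.ANO5.Lin.Hyp

/-!
# ANO5, module Lin: systems with symmetries (package LIN-COC)

`bdd`: the function `y ↦ ζ (R y) - L (ζ y)` is continuous and invariant under `𝒢`:
`ζ (R (g y)) - L (ζ (g y)) = ζ (g' (R y)) - L (ζ y + w) = ζ (R y) + L w - L (ζ y) - L w`. It is
bounded on the compact set `K` of `cocompact`, hence bounded.
`th_act`: by induction on `n` there is `g_n ∈ 𝒢` with `R^[n] (g y) = g_n (R^[n] y)` for all `y` and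
`g_n.2 = (L ^ n) g.2`; so `ζ (R^[n] (g y)) = ζ (R^[n] y) + (L ^ n) g.2`, and `th_add`.
`th_lift`: `th_act` and `th_iterate`.
`exists_fix`: `1 - J^m` is injective: if `J^m v = v` then `v = J^(m n) v → 0` (`fast`). `E` is
finite dimensional, so it is surjective: let `(1 - J^m) e = - J^m w`, i.e. `e = J^m (e - w)`. Then
`pr e = e` (`pr_J`, `m ≥ 1`) and `L^m e = L^m J^m (e - w) = pr (e - w) = e - pr w`
(`L_pow_J_pow`).
`fix_unique`: the difference `v` of two solutions has `pr v = v`, `L^m v = v`, so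
`v = J^(m n) L^(m n) v = J^(m n) v → 0`.
`type`: put `w₀ = q (th y - e)`. `th (R'^[n] y) - e = L^(m n) (th y - e)` (induction, `th_lift`,
`he'`), so `q (th (R'^[n] y) - e) = B^(m n) w₀`. By `norm_th_sub_le`
`‖th (R'^[n] y) - s.pr (ζ (R'^[n] y))‖ ≤ C'`, and `q (s.pr v) = sB.pr (q v)` (`Split.natural`), so
`‖B^(m n) w₀‖ ≤ ‖sB.pr‖ ‖q (ζ (R'^[n] y))‖ + ‖q‖ C' + ‖q e‖` grows subexponentially (note
`1 ≤ (1+ε)^n`). `sB.pr w₀ = q (s.pr (th y - e)) = w₀` (`pr_th`, `he`). Now `w₀ = 0` by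
`Split.eq_zero` for the `Split (B ^ m)` of `pow_split`.
-/

set_option autoImplicit false

open Set Filter Topology

namespace Pool.Agent.ANO5.Lin

variable {E : Type*} [NormedAddCommGroup E] [NormedSpace ℝ E] {L : E →L[ℝ] E}
  {Y : Type} [TopologicalSpace Y]

/-- A system over the linear map `L` with the symmetries `𝒢`: pairs `(g, w)` with
`ζ (g y) = ζ y + w`. -/
structure IsCoc (L : E →L[ℝ] E) (ζ : Y → E) (R : Y → Y) (𝒢 : Set ((Y → Y) × E)) : Prop where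
  cont : Continuous ζ
  contR : Continuous R
  shift : ∀ g ∈ 𝒢, ∀ y, ζ (g.1 y) = ζ y + g.2
  step : ∀ g ∈ 𝒢, ∃ g' ∈ 𝒢, (∀ y, R (g.1 y) = g'.1 (R y)) ∧ g'.2 = L g.2
  cocompact : ∃ K : Set Y, IsCompact K ∧ ∀ y, ∃ g ∈ 𝒢, g.1 y ∈ K

variable {ζ : Y → E} {R : Y → Y} {𝒢 : Set ((Y → Y) × E)}

private theorem pow_succ_Coc {E' : Type*} [NormedAddCommGroup E'] [NormedSpace ℝ E']
    (A : E' →L[ℝ] E') (n : ℕ) (v : E') : (A ^ (n + 1)) v = (A ^ n) (A v) := by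
  rw [pow_succ]
  rfl

private theorem pow_succ_Coc' {E' : Type*} [NormedAddCommGroup E'] [NormedSpace ℝ E']
    (A : E' →L[ℝ] E') (n : ℕ) (v : E') : (A ^ (n + 1)) v = A ((A ^ n) v) := by
  rw [pow_succ']
  rfl

theorem IsCoc.bdd (h : IsCoc L ζ R 𝒢) : ∃ C : ℝ, ∀ y, ‖ζ (R y) - L (ζ y)‖ ≤ C := by
  obtain ⟨K, hK, hK'⟩ := h.cocompact
  have hc : Continuous fun y => ζ (R y) - L (ζ y) :=
    (h.cont.comp h.contR).sub (L.continuous.comp h.cont)
  obtain ⟨C, hC⟩ := hK.exists_bound_of_continuousOn hc.continuousOn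
  refine ⟨C, fun y => ?_⟩
  obtain ⟨g, hg, hy⟩ := hK' y
  have h1 := hC _ hy
  obtain ⟨g', hg', h2, h3⟩ := h.step g hg
  rw [h2, h.shift g' hg', h.shift g hg, h3, map_add, add_sub_add_right_eq_sub] at h1
  exact h1

theorem IsCoc.continuous_th [CompleteSpace E] (h : IsCoc L ζ R 𝒢) (s : Split L) :
    Continuous (th s ζ R) := by
  obtain ⟨C, hC⟩ := h.bdd
  exact Lin.continuous_th s hC h.cont h.contR

theorem IsCoc.pr_th [CompleteSpace E] (h : IsCoc L ζ R 𝒢) (s : Split L) (y : Y) :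
    s.pr (th s ζ R y) = th s ζ R y := by
  obtain ⟨C, hC⟩ := h.bdd
  exact Lin.pr_th s hC y

theorem IsCoc.near [CompleteSpace E] (h : IsCoc L ζ R 𝒢) (s : Split L) :
    ∃ C : ℝ, ∀ y, ‖th s ζ R y - s.pr (ζ y)‖ ≤ C := by
  obtain ⟨C, hC⟩ := h.bdd
  obtain ⟨C', hC'⟩ := norm_th_sub_le s C
  exact ⟨C', hC' Y ζ R hC⟩

theorem IsCoc.th_act [CompleteSpace E] (h : IsCoc L ζ R 𝒢) (s : Split L) {g : (Y → Y) × E}
    (hg : g ∈ 𝒢) (y : Y) : th s ζ R (g.1 y) = th s ζ R y + s.pr g.2 := by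
  have h1 : ∀ n : ℕ, ∃ g' ∈ 𝒢, (∀ y, R^[n] (g.1 y) = g'.1 (R^[n] y)) ∧
      g'.2 = (L ^ n) g.2 := by
    intro n
    induction n with
    | zero => exact ⟨g, hg, fun _ => rfl, rfl⟩
    | succ n ih =>
      obtain ⟨g', hg', h2, h3⟩ := ih
      obtain ⟨g₂, hg₂, h4, h5⟩ := h.step g' hg'
      refine ⟨g₂, hg₂, fun y => ?_, ?_⟩
      · rw [Function.iterate_succ_apply', Function.iterate_succ_apply', h2, h4]
      · rw [h5, h3, pow_succ_Coc']
  obtain ⟨C, hC⟩ := h.bdd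
  refine th_add s hC fun n => ?_
  obtain ⟨g', hg', h2, h3⟩ := h1 n
  rw [h2, h.shift g' hg', h3]

theorem IsCoc.th_iterate [CompleteSpace E] (h : IsCoc L ζ R 𝒢) (s : Split L) (n : ℕ) (y : Y) :
    th s ζ R (R^[n] y) = (L ^ n) (th s ζ R y) := by
  obtain ⟨C, hC⟩ := h.bdd
  exact Lin.th_iterate s hC n y

theorem IsCoc.th_lift [CompleteSpace E] (h : IsCoc L ζ R 𝒢) (s : Split L) {g : (Y → Y) × E}
    (hg : g ∈ 𝒢) (m : ℕ) (y : Y) :
    th s ζ R (g.1 (R^[m] y)) = (L ^ m) (th s ζ R y) + s.pr g.2 := by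
  rw [h.th_act s hg, h.th_iterate s]

private theorem pr_J_pow_Coc (s : Split L) {m : ℕ} (hm : 0 < m) (v : E) :
    s.pr ((s.J ^ m) v) = (s.J ^ m) v := by
  obtain ⟨j, rfl⟩ : ∃ j, m = j + 1 := ⟨m - 1, by omega⟩
  rw [pow_succ_Coc']
  exact DFunLike.congr_fun s.pr_J _

private theorem zero_Coc (s : Split L) {m : ℕ} (hm : 0 < m) {v : E} (hv : (s.J ^ m) v = v) :
    v = 0 := by
  obtain ⟨C, μ, hμ, hμ1, hC⟩ := s.fast
  have h1 : ∀ n : ℕ, (s.J ^ (m * n)) v = v := by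
    intro n
    rw [pow_mul]
    induction n with
    | zero => rfl
    | succ n ih => rw [pow_succ_Coc, hv, ih]
  have h2 : ∀ n : ℕ, ‖v‖ ≤ C * ‖v‖ * (μ ^ m) ^ n := by
    intro n
    calc ‖v‖ = ‖(s.J ^ (m * n)) v‖ := by rw [h1]
      _ ≤ ‖s.J ^ (m * n)‖ * ‖v‖ := (s.J ^ (m * n)).le_opNorm v
      _ ≤ C * μ ^ (m * n) * ‖v‖ := mul_le_mul_of_nonneg_right (hC _) (norm_nonneg _)
      _ = _ := by
        rw [pow_mul]
        ring
  have h3 := (tendsto_pow_atTop_nhds_zero_of_lt_one (pow_nonneg hμ.le m)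
    (pow_lt_one₀ hμ.le hμ1 hm.ne')).const_mul (C * ‖v‖)
  rw [mul_zero] at h3
  rw [← norm_le_zero_iff]
  exact ge_of_tendsto' h3 h2

theorem exists_fix [FiniteDimensional ℝ E] (s : Split L) {m : ℕ} (hm : 0 < m) (w : E) :
    ∃ e, s.pr e = e ∧ e = (L ^ m) e + s.pr w := by
  have h1 : Function.Injective ((ContinuousLinearMap.id ℝ E - s.J ^ m : E →L[ℝ] E) :
      E →ₗ[ℝ] E) := by
    rw [injective_iff_map_eq_zero]
    intro v hv
    have h2 : v - (s.J ^ m) v = 0 := hv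
    exact zero_Coc s hm (sub_eq_zero.1 h2).symm
  obtain ⟨e, he⟩ := LinearMap.injective_iff_surjective.1 h1 (-(s.J ^ m) w)
  have h2 : e - (s.J ^ m) e = -(s.J ^ m) w := he
  have h3 : e = (s.J ^ m) (e - w) := by
    rw [map_sub, sub_eq_add_neg, ← h2]
    abel
  refine ⟨e, ?_, ?_⟩
  · rw [h3]
    exact pr_J_pow_Coc s hm _
  · have h4 : (L ^ m) e = s.pr (e - w) := by
      conv_lhs => rw [h3]
      exact s.L_pow_J_pow hm _
    have h5 : s.pr e = e := by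
      rw [h3]
      exact pr_J_pow_Coc s hm _
    rw [h4, map_sub, h5]
    abel

theorem fix_unique (s : Split L) {m : ℕ} (hm : 0 < m) {w e e' : E} (he : s.pr e = e)
    (h : e = (L ^ m) e + s.pr w) (he' : s.pr e' = e') (h' : e' = (L ^ m) e' + s.pr w) :
    e = e' := by
  have h1 : (L ^ m) (e - e') = e - e' := by
    rw [map_sub]
    conv_rhs => rw [h, h']
    abel
  refine sub_eq_zero.1 (zero_Coc s hm ?_)
  conv_lhs => rw [← h1]
  rw [s.J_pow_L_pow hm, map_sub, he, he']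

theorem IsCoc.type [CompleteSpace E] (h : IsCoc L ζ R 𝒢) (s : Split L) {V : Type*}
    [NormedAddCommGroup V] [NormedSpace ℝ V] {B : V →L[ℝ] V} (sB : Split B) {q : E →L[ℝ] V}
    (hq : B ∘L q = q ∘L L) {m : ℕ} (hm : 0 < m) {g : (Y → Y) × E} (hg : g ∈ 𝒢) {R' : Y → Y}
    (hR' : ∀ y, R' y = g.1 (R^[m] y)) {e : E} (he : s.pr e = e)
    (he' : e = (L ^ m) e + s.pr g.2) {y : Y}
    (hgrow : ∀ ε > (0 : ℝ), ∃ D : ℝ, ∀ n : ℕ, ‖q (ζ (R'^[n] y))‖ ≤ D * (1 + ε) ^ n) :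
    q (th s ζ R y) = q e := by
  obtain ⟨sB', hs1, -⟩ := pow_split sB hm
  obtain ⟨C', hC'⟩ := h.near s
  have hqn : ∀ (n : ℕ) (v : E), q ((L ^ n) v) = (B ^ n) (q v) := by
    intro n
    induction n with
    | zero => exact fun v => rfl
    | succ n ih =>
      intro v
      have h1 : B (q v) = q (L v) := DFunLike.congr_fun hq v
      rw [pow_succ_Coc, pow_succ_Coc, ih, h1]
  have hpr : ∀ v, sB.pr (q v) = q (s.pr v) := fun v =>
    DFunLike.congr_fun (s.natural sB hq).1 v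
  have hit : ∀ n : ℕ, th s ζ R (R'^[n] y) - e = (L ^ (m * n)) (th s ζ R y - e) := by
    intro n
    rw [pow_mul]
    induction n with
    | zero => rfl
    | succ n ih =>
      rw [Function.iterate_succ_apply', pow_succ_Coc', ← ih, map_sub, hR', h.th_lift s hg]
      conv_lhs => rw [he']
      abel
  have hz : q (th s ζ R y - e) = 0 := by
    refine sB'.eq_zero ?_ fun ε hε => ?_
    · rw [hs1, hpr, map_sub, h.pr_th s, he]
    · obtain ⟨D, hD⟩ := hgrow ε hε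
      refine ⟨‖q‖ * C' + ‖sB.pr‖ * D + ‖q e‖, fun n => ?_⟩
      have hp : (1 : ℝ) ≤ (1 + ε) ^ n := one_le_pow₀ (by linarith)
      have hC0 : 0 ≤ C' := (norm_nonneg _).trans (hC' y)
      rw [← pow_mul, ← hqn, ← hit]
      have h1 : q (th s ζ R (R'^[n] y) - e) =
          q (th s ζ R (R'^[n] y) - s.pr (ζ (R'^[n] y))) + sB.pr (q (ζ (R'^[n] y))) - q e := by
        rw [hpr, map_sub, map_sub]
        abel
      rw [h1]
      have h2 : ‖q (th s ζ R (R'^[n] y) - s.pr (ζ (R'^[n] y)))‖ ≤ ‖q‖ * C' :=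
        (q.le_opNorm _).trans (mul_le_mul_of_nonneg_left (hC' _) (norm_nonneg _))
      have h3 : ‖sB.pr (q (ζ (R'^[n] y)))‖ ≤ ‖sB.pr‖ * (D * (1 + ε) ^ n) :=
        (sB.pr.le_opNorm _).trans (mul_le_mul_of_nonneg_left (hD n) (norm_nonneg _))
      have h4 : ‖q‖ * C' * 1 ≤ ‖q‖ * C' * (1 + ε) ^ n :=
        mul_le_mul_of_nonneg_left hp (by positivity)
      have h5 : ‖q e‖ * 1 ≤ ‖q e‖ * (1 + ε) ^ n := mul_le_mul_of_nonneg_left hp (norm_nonneg _)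
      calc _ ≤ ‖q (th s ζ R (R'^[n] y) - s.pr (ζ (R'^[n] y))) + sB.pr (q (ζ (R'^[n] y)))‖ +
            ‖q e‖ := norm_sub_le _ _
        _ ≤ ‖q‖ * C' + ‖sB.pr‖ * (D * (1 + ε) ^ n) + ‖q e‖ :=
            add_le_add ((norm_add_le _ _).trans (add_le_add h2 h3)) le_rfl
        _ ≤ _ := by linarith
  rw [map_sub, sub_eq_zero] at hz
  exact hz

end Pool.Agent.ANO5.Lin
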