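import Pool.Agent.ANO5.Lin.Split

/-!
# ANO5, module Lin: the limit function of a system over a linear map (package LIN-LIM)

`ζ : Y → E`, `R : Y → Y`, `‖ζ (R y) - L (ζ y)‖ ≤ C`. `th s ζ R y = lim J^n (ζ (R^n y))`. Since
`J^(n+1) (ζ (R^(n+1) y)) - J^n (ζ (R^n y)) = J^(n+1) (ζ (R^(n+1) y) - L (ζ (R^n y)))` for `n ≥ 1`
(`J^(n+1) L = J^n pr = J^n`, and for `n = 0` one has `J L (ζ y) = pr (ζ y)`, so compare with
`pr (ζ y)` instead of `ζ y`) the differences are at most `C₁ μ^(n+1)`: the sequence converges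
uniformly, `‖th y - pr (ζ y)‖ ≤ C'`; continuity: uniform limit. `th_R`:
`L (J^(n+1) (ζ (R^(n+1) y))) = J^n (ζ (R^n (R y)))` for `n ≥ 1` (`L J = pr`, `pr J = J`).
`th_add`: `ζ (R^n y') - ζ (R^n y) = L^n w`, so the limits differ by `lim J^n L^n w = pr w`.
`th_natural`: `q J^n = J_B^n q` (`Split.natural`), so
`q (th y - th' y') = lim J_B^n (q (ζ (R^n y) - ζ' (R'^n y')))`, and `J_B^n` contracts like `μ^n`,
while the vectors grow subexponentially.
`th_eq`: (exact systems) if `ζ (R^n y) = L^n (ζ y)` for all `n` then `th y = pr (ζ y)`.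
-/

set_option autoImplicit false

open Set Filter Topology

namespace Pool.Agent.ANO5.Lin

variable {E : Type*} [NormedAddCommGroup E] [NormedSpace ℝ E] {L : E →L[ℝ] E}
  {Y : Type*}

/-- The limit function. -/
noncomputable def th (s : Split L) (ζ : Y → E) (R : Y → Y) (y : Y) : E :=
  limUnder atTop fun n : ℕ => (s.J ^ n) (ζ (R^[n] y))

variable {ζ : Y → E} {R : Y → Y}

private theorem prpr_Lim (s : Split L) (v : E) : s.pr (s.pr v) = s.pr v :=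
  DFunLike.congr_fun s.pr_pr v

private theorem LJ_Lim (s : Split L) (v : E) : L (s.J v) = s.pr v :=
  DFunLike.congr_fun s.L_J v

private theorem JL_Lim (s : Split L) (v : E) : s.J (L v) = s.pr v :=
  DFunLike.congr_fun s.J_L v

private theorem prJ_Lim (s : Split L) (v : E) : s.pr (s.J v) = s.J v :=
  DFunLike.congr_fun s.pr_J v

private theorem Jpr_Lim (s : Split L) (v : E) : s.J (s.pr v) = s.J v :=
  DFunLike.congr_fun s.J_pr v

private theorem pow_succ_Lim (A : E →L[ℝ] E) (n : ℕ) (v : E) :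
    (A ^ (n + 1)) v = (A ^ n) (A v) := by
  rw [pow_succ]
  rfl

private theorem pow_succ_Lim' (A : E →L[ℝ] E) (n : ℕ) (v : E) :
    (A ^ (n + 1)) v = A ((A ^ n) v) := by
  rw [pow_succ']
  rfl

private theorem prJn_Lim (s : Split L) (n : ℕ) (v : E) :
    s.pr ((s.J ^ n) v) = (s.J ^ n) (s.pr v) := by
  induction n generalizing v with
  | zero => rfl
  | succ n ih => rw [pow_succ_Lim, pow_succ_Lim, ih, prJ_Lim, Jpr_Lim]

private theorem prJn_pos_Lim (s : Split L) {n : ℕ} (hn : 0 < n) (v : E) :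
    s.pr ((s.J ^ n) v) = (s.J ^ n) v := by
  obtain ⟨m, rfl⟩ : ∃ m, n = m + 1 := ⟨n - 1, by omega⟩
  rw [pow_succ_Lim', prJ_Lim]

/-- the approximating sequence, projected to the expanding part -/
private noncomputable def app_Lim (s : Split L) (ζ : Y → E) (R : Y → Y) (n : ℕ) (y : Y) : E :=
  s.pr ((s.J ^ n) (ζ (R^[n] y)))

private theorem app_pos_Lim (s : Split L) (ζ : Y → E) (R : Y → Y) {n : ℕ} (hn : 0 < n) (y : Y) :
    app_Lim s ζ R n y = (s.J ^ n) (ζ (R^[n] y)) :=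
  prJn_pos_Lim s hn _

private theorem app_succ_Lim (s : Split L) (ζ : Y → E) (R : Y → Y) (n : ℕ) (y : Y) :
    app_Lim s ζ R (n + 1) y - app_Lim s ζ R n y =
      (s.J ^ (n + 1)) (ζ (R (R^[n] y)) - L (ζ (R^[n] y))) := by
  rw [app_pos_Lim s ζ R (Nat.succ_pos n), app_Lim, prJn_Lim, map_sub,
    Function.iterate_succ_apply', pow_succ_Lim s.J n (L _), JL_Lim]

private theorem le_op_Lim {E' : Type*} [NormedAddCommGroup E'] [NormedSpace ℝ E']
    {A : E →L[ℝ] E'} {c : ℝ} (hA : ‖A‖ ≤ c) (v : E) : ‖A v‖ ≤ c * ‖v‖ :=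
  (A.le_opNorm v).trans (mul_le_mul_of_nonneg_right hA (norm_nonneg _))

private theorem dist_app_Lim (s : Split L) {ζ : Y → E} {R : Y → Y} {C C1 μ : ℝ}
    (hC1 : ∀ n : ℕ, ‖s.J ^ n‖ ≤ C1 * μ ^ n) (h : ∀ y, ‖ζ (R y) - L (ζ y)‖ ≤ C) (y : Y) (n : ℕ) :
    dist (app_Lim s ζ R n y) (app_Lim s ζ R (n + 1) y) ≤ (C1 * μ * C) * μ ^ n := by
  rw [dist_comm, dist_eq_norm, app_succ_Lim]
  have h1 : 0 ≤ C1 * μ ^ (n + 1) := (norm_nonneg _).trans (hC1 (n + 1))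
  calc ‖(s.J ^ (n + 1)) (ζ (R (R^[n] y)) - L (ζ (R^[n] y)))‖
      ≤ C1 * μ ^ (n + 1) * ‖ζ (R (R^[n] y)) - L (ζ (R^[n] y))‖ := le_op_Lim (hC1 (n + 1)) _
    _ ≤ C1 * μ ^ (n + 1) * C := mul_le_mul_of_nonneg_left (h _) h1
    _ = _ := by ring

private theorem tendsto_app_Lim [CompleteSpace E] (s : Split L) {ζ : Y → E} {R : Y → Y} {C : ℝ}
    (h : ∀ y, ‖ζ (R y) - L (ζ y)‖ ≤ C) (y : Y) :
    Tendsto (fun n : ℕ => app_Lim s ζ R n y) atTop (𝓝 (th s ζ R y)) ∧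
    Tendsto (fun n : ℕ => (s.J ^ n) (ζ (R^[n] y))) atTop (𝓝 (th s ζ R y)) := by
  obtain ⟨C1, μ, hμ, hμ1, hC1⟩ := s.fast
  obtain ⟨x, hx⟩ := cauchySeq_tendsto_of_complete
    (cauchySeq_of_le_geometric μ _ hμ1 (dist_app_Lim s hC1 h y))
  have h2 : Tendsto (fun n : ℕ => (s.J ^ n) (ζ (R^[n] y))) atTop (𝓝 x) := by
    refine hx.congr' ?_
    filter_upwards [eventually_gt_atTop 0] with n hn
    exact app_pos_Lim s ζ R hn y
  have h3 : th s ζ R y = x := h2.limUnder_eq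
  rw [h3]
  exact ⟨hx, h2⟩

theorem tendsto_th [CompleteSpace E] (s : Split L) {C : ℝ} (h : ∀ y, ‖ζ (R y) - L (ζ y)‖ ≤ C)
    (y : Y) : Tendsto (fun n : ℕ => (s.J ^ n) (ζ (R^[n] y))) atTop (𝓝 (th s ζ R y)) :=
  (tendsto_app_Lim s h y).2

theorem norm_th_sub_le [CompleteSpace E] (s : Split L) (C : ℝ) : ∃ C' : ℝ, ∀ (Y : Type)
    (ζ : Y → E) (R : Y → Y), (∀ y, ‖ζ (R y) - L (ζ y)‖ ≤ C) →
      ∀ y, ‖th s ζ R y - s.pr (ζ y)‖ ≤ C' := by
  obtain ⟨C1, μ, hμ, hμ1, hC1⟩ := s.fast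
  refine ⟨C1 * μ * C / (1 - μ), fun Y ζ R h y => ?_⟩
  have h1 := dist_le_of_le_geometric_of_tendsto₀ μ (C1 * μ * C) hμ1
    (f := fun n => app_Lim s ζ R n y) (dist_app_Lim s hC1 h y) (tendsto_app_Lim s h y).1
  rw [dist_comm, dist_eq_norm] at h1
  exact h1

theorem continuous_th [CompleteSpace E] [TopologicalSpace Y] (s : Split L) {C : ℝ}
    (h : ∀ y, ‖ζ (R y) - L (ζ y)‖ ≤ C) (hζ : Continuous ζ) (hR : Continuous R) :
    Continuous (th s ζ R) := by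
  obtain ⟨C1, μ, hμ, hμ1, hC1⟩ := s.fast
  have h1 : TendstoUniformly (fun n : ℕ => app_Lim s ζ R n) (th s ζ R) atTop := by
    rw [Metric.tendstoUniformly_iff]
    intro ε hε
    have h2 : Tendsto (fun n : ℕ => C1 * μ * C * μ ^ n / (1 - μ)) atTop (𝓝 0) := by
      have h3 := ((tendsto_pow_atTop_nhds_zero_of_lt_one hμ.le hμ1).const_mul
        (C1 * μ * C)).div_const (1 - μ)
      rw [mul_zero, zero_div] at h3
      exact h3
    filter_upwards [h2.eventually_lt_const hε] with n hn y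
    rw [dist_comm]
    exact (dist_le_of_le_geometric_of_tendsto μ (C1 * μ * C) hμ1
      (f := fun n => app_Lim s ζ R n y) (dist_app_Lim s hC1 h y) (tendsto_app_Lim s h y).1
      n).trans_lt hn
  refine h1.continuous (Frequently.of_forall fun n => ?_)
  exact s.pr.continuous.comp ((s.J ^ n).continuous.comp (hζ.comp (hR.iterate n)))

theorem pr_th [CompleteSpace E] (s : Split L) {C : ℝ} (h : ∀ y, ‖ζ (R y) - L (ζ y)‖ ≤ C)
    (y : Y) : s.pr (th s ζ R y) = th s ζ R y := by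
  have h1 := (tendsto_app_Lim s h y).1
  have h2 : Tendsto (fun n : ℕ => s.pr (app_Lim s ζ R n y)) atTop (𝓝 (s.pr (th s ζ R y))) :=
    (s.pr.continuous.tendsto _).comp h1
  refine tendsto_nhds_unique h2 (h1.congr fun n => ?_)
  exact (prpr_Lim s _).symm

theorem th_R [CompleteSpace E] (s : Split L) {C : ℝ} (h : ∀ y, ‖ζ (R y) - L (ζ y)‖ ≤ C)
    (y : Y) : th s ζ R (R y) = L (th s ζ R y) := by
  have h1 := (tendsto_app_Lim s h (R y)).1
  have h2 : Tendsto (fun n : ℕ => L ((s.J ^ (n + 1)) (ζ (R^[n + 1] y)))) atTop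
      (𝓝 (L (th s ζ R y))) :=
    (L.continuous.tendsto _).comp ((tendsto_add_atTop_iff_nat 1).2 (tendsto_app_Lim s h y).2)
  refine tendsto_nhds_unique h1 (h2.congr fun n => ?_)
  rw [pow_succ_Lim', LJ_Lim, Function.iterate_succ_apply]
  rfl

theorem th_iterate [CompleteSpace E] (s : Split L) {C : ℝ} (h : ∀ y, ‖ζ (R y) - L (ζ y)‖ ≤ C)
    (n : ℕ) (y : Y) : th s ζ R (R^[n] y) = (L ^ n) (th s ζ R y) := by
  induction n with
  | zero => rfl
  | succ n ih => rw [Function.iterate_succ_apply', th_R s h, ih, pow_succ_Lim']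

theorem th_add [CompleteSpace E] (s : Split L) {C : ℝ} (h : ∀ y, ‖ζ (R y) - L (ζ y)‖ ≤ C)
    {y y' : Y} {w : E} (hw : ∀ n : ℕ, ζ (R^[n] y') = ζ (R^[n] y) + (L ^ n) w) :
    th s ζ R y' = th s ζ R y + s.pr w := by
  refine tendsto_nhds_unique (tendsto_th s h y')
    (((tendsto_th s h y).add_const (s.pr w)).congr' ?_)
  filter_upwards [eventually_gt_atTop 0] with n hn
  rw [hw, map_add, s.J_pow_L_pow hn]

theorem th_eq [CompleteSpace E] (s : Split L) {C : ℝ} (h : ∀ y, ‖ζ (R y) - L (ζ y)‖ ≤ C)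
    {y : Y} (hy : ∀ n : ℕ, ζ (R^[n] y) = (L ^ n) (ζ y)) : th s ζ R y = s.pr (ζ y) := by
  refine tendsto_nhds_unique (tendsto_th s h y)
    ((tendsto_const_nhds (x := s.pr (ζ y))).congr' ?_)
  filter_upwards [eventually_gt_atTop 0] with n hn
  rw [hy, s.J_pow_L_pow hn]

private theorem qJn_Lim (s : Split L) {V : Type*} [NormedAddCommGroup V] [NormedSpace ℝ V]
    {B : V →L[ℝ] V} (sB : Split B) {q : E →L[ℝ] V} (hq : B ∘L q = q ∘L L) (n : ℕ) (v : E) :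
    q ((s.J ^ n) v) = (sB.J ^ n) (q v) := by
  have h1 : ∀ v, sB.J (q v) = q (s.J v) := fun v => DFunLike.congr_fun (s.natural sB hq).2 v
  induction n generalizing v with
  | zero => rfl
  | succ n ih => rw [pow_succ_Lim, pow_succ_Lim, ih, h1]

/-- vectors of subexponential growth are contracted to zero -/
private theorem zero_Lim {V : Type*} [NormedAddCommGroup V] [NormedSpace ℝ V]
    {B : V →L[ℝ] V} (sB : Split B) {v : ℕ → V}
    (hg : ∀ ε > (0 : ℝ), ∃ D : ℝ, ∀ n : ℕ, ‖v n‖ ≤ D * (1 + ε) ^ n) :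
    Tendsto (fun n : ℕ => (sB.J ^ n) (v n)) atTop (𝓝 0) := by
  obtain ⟨C1, μ, hμ, hμ1, hC1⟩ := sB.fast
  obtain ⟨D, hD⟩ := hg (1 - μ) (sub_pos.2 hμ1)
  have h2 : μ * (1 + (1 - μ)) < 1 := by nlinarith [sq_nonneg (1 - μ), sub_pos.2 hμ1]
  have h3 : 0 ≤ μ * (1 + (1 - μ)) := by nlinarith
  have h4 := (tendsto_pow_atTop_nhds_zero_of_lt_one h3 h2).const_mul (C1 * D)
  rw [mul_zero] at h4
  refine squeeze_zero_norm (fun n => ?_) h4
  have h5 : 0 ≤ C1 * μ ^ n := (norm_nonneg _).trans (hC1 n)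
  calc ‖(sB.J ^ n) (v n)‖ ≤ C1 * μ ^ n * ‖v n‖ := le_op_Lim (hC1 n) _
    _ ≤ C1 * μ ^ n * (D * (1 + (1 - μ)) ^ n) := mul_le_mul_of_nonneg_left (hD n) h5
    _ = _ := by
      rw [mul_pow]
      ring

theorem th_natural [CompleteSpace E] (s : Split L) {C : ℝ} (h : ∀ y, ‖ζ (R y) - L (ζ y)‖ ≤ C)
    {Y' : Type*} {ζ' : Y' → E} {R' : Y' → Y'} (h' : ∀ y, ‖ζ' (R' y) - L (ζ' y)‖ ≤ C)
    {V : Type*} [NormedAddCommGroup V] [NormedSpace ℝ V] {B : V →L[ℝ] V} (sB : Split B)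
    {q : E →L[ℝ] V} (hq : B ∘L q = q ∘L L) {y : Y} {y' : Y'}
    (hg : ∀ ε > (0 : ℝ), ∃ D : ℝ, ∀ n : ℕ, ‖q (ζ (R^[n] y)) - q (ζ' (R'^[n] y'))‖ ≤
      D * (1 + ε) ^ n) : q (th s ζ R y) = q (th s ζ' R' y') := by
  have h1 := (q.continuous.tendsto _).comp (tendsto_th s h y)
  have h2 := (q.continuous.tendsto _).comp (tendsto_th s h' y')
  have h3 := h1.sub h2
  rw [← sub_eq_zero]
  refine tendsto_nhds_unique h3 ((zero_Lim sB hg).congr fun n => ?_)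
  show _ = q ((s.J ^ n) (ζ (R^[n] y))) - q ((s.J ^ n) (ζ' (R'^[n] y')))
  rw [qJn_Lim s sB hq, qJn_Lim s sB hq, map_sub]

/-- if `q ζ` grows subexponentially along the orbit then `q (th y) = 0` -/
theorem th_natural_zero [CompleteSpace E] (s : Split L) {C : ℝ}
    (h : ∀ y, ‖ζ (R y) - L (ζ y)‖ ≤ C) {V : Type*} [NormedAddCommGroup V] [NormedSpace ℝ V]
    {B : V →L[ℝ] V} (sB : Split B) {q : E →L[ℝ] V} (hq : B ∘L q = q ∘L L) {y : Y}
    (hg : ∀ ε > (0 : ℝ), ∃ D : ℝ, ∀ n : ℕ, ‖q (ζ (R^[n] y))‖ ≤ D * (1 + ε) ^ n) :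
    q (th s ζ R y) = 0 := by
  have h1 := (q.continuous.tendsto _).comp (tendsto_th s h y)
  refine tendsto_nhds_unique h1 ((zero_Lim sB hg).congr fun n => ?_)
  exact (qJn_Lim s sB hq n _).symm

end Pool.Agent.ANO5.Lin
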