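import Pool.Agent.ANO5.Lin.Base

/-!
# ANO5, module Lin: the recurrence of a twist (package LIN-REC)

`exists_rec_twist`: for `g ∈ DG N S` choose `c g : Fin k → ℤ` with `τ (g x) = τ x + c g` (`hτ`;
unique, the base is not empty), so `c (g h) = c g + c h`. Let `φ g = F g F⁻¹`, `F = baseMap N S`
(`baseMap_conj`): `F^[n] (g x) = (φ^[n] g) (F^[n] x)`. `DG_gen` and `exists_rec` give
`c (φ^[d] g) = ∑_(j<d) a_j c (φ^[j] g)`; apply this to `φ g`:
`c (φ^[d+1] g) = ∑_(j<d) a_j c (φ^[j+1] g)`, so the coefficients are `0, a_0, ..., a_(d-1)`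
(`Fin.cons 0 a`, `Fin.sum_univ_succ`). Then `τ (F^[n] (g x)) = τ (F^[n] x) + c (φ^[n] g)` gives the
statement.
-/

set_option autoImplicit false

open scoped UpperHalfPlane MatrixGroups
open Set Filter Topology

namespace Pool.Agent.ANO5.Lin

variable {N : Fib} {r k : ℕ}

theorem exists_rec_twist {S : Fin r → SurfaceMap} {τ : (Fin r → ℍ) × N.W → (Fin k → ℝ)}
    (hτ : ∀ g ∈ DG N S, ∃ c : Fin k → ℤ, ∀ x, τ (g x) = τ x + fun j => (c j : ℝ)) :
    ∃ (d : ℕ) (a : Fin (d + 1) → ℤ), ∀ g ∈ DG N S, ∀ x,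
      τ ((baseMap N S)^[d + 1] (g x)) -
          ∑ j : Fin (d + 1), (a j : ℝ) • τ ((baseMap N S)^[(j : ℕ)] (g x)) =
        τ ((baseMap N S)^[d + 1] x) -
          ∑ j : Fin (d + 1), (a j : ℝ) • τ ((baseMap N S)^[(j : ℕ)] x) := by
  have hne : Nonempty N.W := @Fib.nonempty N
  obtain ⟨x₀⟩ : Nonempty ((Fin r → ℍ) × N.W) := inferInstance
  have h1 : ∀ g : DG N S, ∃ c : Fin k → ℤ, ∀ x,
      τ ((g : Equiv.Perm ((Fin r → ℍ) × N.W)) x) = τ x + fun j => (c j : ℝ) := fun g =>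
    hτ g g.2
  choose c hc using h1
  have hadd : ∀ g h : DG N S, c (g * h) = c g + c h := by
    intro g h
    have h2 := hc (g * h) x₀
    have h3 : ((g * h : DG N S) : Equiv.Perm ((Fin r → ℍ) × N.W)) x₀ =
        (g : Equiv.Perm ((Fin r → ℍ) × N.W)) ((h : Equiv.Perm ((Fin r → ℍ) × N.W)) x₀) := rfl
    rw [h3, hc g, hc h] at h2
    funext j
    have h4 := congrFun h2 j
    simp only [Pi.add_apply] at h4
    have h5 : ((c (g * h) j : ℤ) : ℝ) = ((c g j + c h j : ℤ) : ℝ) := by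
      push_cast
      linarith
    exact_mod_cast h5
  obtain ⟨φ, hφ⟩ : ∃ φ : DG N S → DG N S, ∀ g,
      ((φ g : DG N S) : Equiv.Perm ((Fin r → ℍ) × N.W)) =
        baseMap N S * (g : Equiv.Perm ((Fin r → ℍ) × N.W)) * (baseMap N S)⁻¹ :=
    ⟨fun g => ⟨_, baseMap_conj.2 g.2⟩, fun g => rfl⟩
  have hmul : ∀ g h, φ (g * h) = φ g * φ h := by
    intro g h
    apply Subtype.ext
    rw [Subgroup.coe_mul, hφ, hφ, hφ, Subgroup.coe_mul]
    group
  have hit : ∀ (n : ℕ) (g : DG N S) (x : (Fin r → ℍ) × N.W),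
      (baseMap N S)^[n] ((g : Equiv.Perm ((Fin r → ℍ) × N.W)) x) =
        ((φ^[n] g : DG N S) : Equiv.Perm ((Fin r → ℍ) × N.W)) ((baseMap N S)^[n] x) := by
    intro n g x
    induction n with
    | zero => rfl
    | succ n ih =>
      rw [Function.iterate_succ_apply', Function.iterate_succ_apply',
        Function.iterate_succ_apply', ih, hφ]
      simp
  obtain ⟨T, hT, hgen⟩ := DG_gen N S
  obtain ⟨d, a, ha⟩ := exists_rec hT hgen hadd hmul
  refine ⟨d, Fin.cons 0 a, fun g hg x => ?_⟩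
  obtain ⟨G, hG⟩ : ∃ G : DG N S, (G : Equiv.Perm ((Fin r → ℍ) × N.W)) = g := ⟨⟨g, hg⟩, rfl⟩
  have h2 : ∀ n : ℕ, τ ((baseMap N S)^[n] (g x)) =
      τ ((baseMap N S)^[n] x) + fun j => (c (φ^[n] G) j : ℝ) := by
    intro n
    rw [← hG, hit, hc]
  have h3 := ha (φ G)
  funext i
  have h4 := congrFun h3 i
  rw [Finset.sum_apply] at h4
  simp only [Pi.smul_apply, smul_eq_mul, ← Function.iterate_succ_apply] at h4
  have h5 : (c (φ^[d + 1] G) i : ℝ) = ∑ j : Fin d, (a j : ℝ) * (c (φ^[(j : ℕ) + 1] G) i : ℝ) := by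
    rw [← Nat.succ_eq_add_one, h4]
    push_cast
    rfl
  simp only [h2, Pi.sub_apply, Pi.add_apply, Finset.sum_apply, Pi.smul_apply, smul_eq_mul,
    Fin.sum_univ_succ, Fin.cons_zero, Fin.cons_succ, Int.cast_zero, zero_mul, zero_add,
    Fin.val_succ, mul_add, Finset.sum_add_distrib]
  rw [h5]
  ring

end Pool.Agent.ANO5.Lin
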