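import Mathlib

/-!
# ANO5, module Lin: the expanding part of a linear map (package LIN-SPLIT)

`E` is a finite dimensional real vector space, `L : E → E` linear. A `Split L` is the spectral
projection `pr` onto the sum of the generalised eigenspaces for the eigenvalues of modulus `> 1`,
with the inverse `J` of `L` on this part (and `0` on the other part): `J^n` contracts exponentially
and `L^n (1 - pr)` grows subexponentially.

`pr_L`: `L ∘ pr = L ∘ (J ∘ L) = (L ∘ J) ∘ L = pr ∘ L`. `J_pr`: `J ∘ pr = J ∘ L ∘ J = pr ∘ J = J`.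
`pow`: `J^n ∘ L^n = pr = L^n ∘ J^n` for `n ≥ 1`; `J^n (L^n v) = pr v`.

`natural`: let `ι ∘ L = L' ∘ ι`. Put `D = pr' ∘ ι ∘ (1 - pr)`. Then `L'^n ∘ D = pr' ∘ ι ∘ L^n ∘
(1 - pr)` and `D = J'^n ∘ L'^n ∘ D`, so `‖D‖ ≤ C' μ'^n ‖pr'‖ ‖ι‖ C_ε (1+ε)^n → 0` for small `ε`:
`D = 0`. Put `D' = (1 - pr') ∘ ι ∘ pr = (1 - pr') ∘ ι ∘ L^n ∘ J^n = L'^n ∘ (1 - pr') ∘ ι ∘ J^n → 0`:
`D' = 0`. So `pr' ∘ ι = pr' ∘ ι ∘ pr = ι ∘ pr`, and `J' ∘ ι = J' ∘ pr' ∘ ι = J' ∘ ι ∘ pr =
J' ∘ ι ∘ L ∘ J = J' ∘ L' ∘ ι ∘ J = pr' ∘ ι ∘ J = ι ∘ pr ∘ J = ι ∘ J`.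

`exists_split`: work in the complexification, e.g. choose a basis, `E = ℝ^N`, `L` a real matrix,
`T` the complex linear map of `ℂ^N` with the same matrix. `ℂ^N` is the sum of the generalised
eigenspaces of `T` (`Module.End.iSup_maxGenEigenspace_eq_top`, independent). Let `F` be the sum of
those for `‖μ‖ > 1` and `G` the sum of those for `‖μ‖ ≤ 1`; `ℂ^N = F ⊕ G`, both invariant. On a
generalised eigenspace `(T - μ)^N = 0`, so `T^n = ∑_(j<N) (n choose j) μ^(n-j) (T - μ)^j` there: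
on `G` `‖T^n v‖ ≤ C n^N ‖v‖`; on `F` `T` is bijective, and
`T^(-n) = ∑_(j<N) (-n choose j) μ^(-n-j) (T - μ)^j`, or: use the vectors `v` for which
`lam^n ‖T^(-n) v‖` is bounded as in `Pool/Agent/ANO/Cone/LinA.lean` (private lemmas `bsub`,
`gen_le`, `gen_le'`: copy them; for `G` use `bsub` with `lam = 1 / (1 + ε)`: the generalised
eigenspaces for `‖μ‖ ≤ 1` are in `{v | (1+ε)^(-n) ‖T^n v‖ bounded}`, and a finite dimensional space
on which `(1+ε)^(-n) ‖T^n v‖` is bounded for each `v` has a uniform bound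
(Banach-Steinhaus or a basis)). `F` and `G` are invariant under the complex conjugation `c` (which
commutes with `T`, as `T` is real): `F ∩ G = 0`, `G = {v | ∀ ε, (1+ε)^(-n) ‖T^n v‖ bounded}`,
`F = {v | ∃ sequence v_n, v_0 = v, T v_(n+1) = v_n, lam^n ‖v_n‖ bounded}`; or simply: `c` maps the
generalised eigenspace of `μ` to that of the conjugate of `μ`, which has the same modulus. So the
projection `π : ℂ^N → F` along `G` and `J = T⁻¹ π` commute with `c` and restrict to `ℝ^N`.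
-/

set_option autoImplicit false

open Set Filter Topology

namespace Pool.Agent.ANO5.Lin

variable {E : Type*} [NormedAddCommGroup E] [NormedSpace ℝ E]

/-- The expanding part of `L`. -/
structure Split (L : E →L[ℝ] E) where
  pr : E →L[ℝ] E
  J : E →L[ℝ] E
  pr_pr : pr ∘L pr = pr
  L_J : L ∘L J = pr
  J_L : J ∘L L = pr
  pr_J : pr ∘L J = J
  fast : ∃ C μ : ℝ, 0 < μ ∧ μ < 1 ∧ ∀ n : ℕ, ‖J ^ n‖ ≤ C * μ ^ n
  slow : ∀ ε > (0 : ℝ), ∃ C : ℝ, ∀ n : ℕ, ‖(L ^ n : E →L[ℝ] E) ∘L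
    (ContinuousLinearMap.id ℝ E - pr)‖ ≤ C * (1 + ε) ^ n

variable {L : E →L[ℝ] E}

theorem Split.pr_L (s : Split L) : s.pr ∘L L = L ∘L s.pr := by
  calc s.pr ∘L L = (L ∘L s.J) ∘L L := by rw [s.L_J]
    _ = L ∘L (s.J ∘L L) := rfl
    _ = L ∘L s.pr := by rw [s.J_L]

theorem Split.J_pr (s : Split L) : s.J ∘L s.pr = s.J := by
  calc s.J ∘L s.pr = s.J ∘L (L ∘L s.J) := by rw [s.L_J]
    _ = (s.J ∘L L) ∘L s.J := rfl
    _ = s.J := by rw [s.J_L, s.pr_J]

private theorem prpr_Split (s : Split L) (v : E) : s.pr (s.pr v) = s.pr v :=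
  DFunLike.congr_fun s.pr_pr v

private theorem LJ_Split (s : Split L) (v : E) : L (s.J v) = s.pr v :=
  DFunLike.congr_fun s.L_J v

private theorem JL_Split (s : Split L) (v : E) : s.J (L v) = s.pr v :=
  DFunLike.congr_fun s.J_L v

private theorem prJ_Split (s : Split L) (v : E) : s.pr (s.J v) = s.J v :=
  DFunLike.congr_fun s.pr_J v

private theorem prL_Split (s : Split L) (v : E) : s.pr (L v) = L (s.pr v) :=
  DFunLike.congr_fun s.pr_L v

private theorem Jpr_Split (s : Split L) (v : E) : s.J (s.pr v) = s.J v :=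
  DFunLike.congr_fun s.J_pr v

private theorem pow_succ_Split (A : E →L[ℝ] E) (n : ℕ) (v : E) :
    (A ^ (n + 1)) v = (A ^ n) (A v) := by
  rw [pow_succ]
  rfl

private theorem pow_succ_Split' (A : E →L[ℝ] E) (n : ℕ) (v : E) :
    (A ^ (n + 1)) v = A ((A ^ n) v) := by
  rw [pow_succ']
  rfl

private theorem prLn_Split (s : Split L) (n : ℕ) (v : E) :
    s.pr ((L ^ n) v) = (L ^ n) (s.pr v) := by
  induction n generalizing v with
  | zero => rfl
  | succ n ih => rw [pow_succ_Split, pow_succ_Split, ih, prL_Split]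

theorem Split.J_pow_L_pow (s : Split L) {n : ℕ} (hn : 0 < n) (v : E) :
    (s.J ^ n) ((L ^ n) v) = s.pr v := by
  obtain ⟨m, rfl⟩ : ∃ m, n = m + 1 := ⟨n - 1, by omega⟩
  clear hn
  induction m generalizing v with
  | zero =>
    rw [zero_add, pow_one, pow_one]
    exact JL_Split s v
  | succ m ih =>
    rw [pow_succ_Split s.J, pow_succ_Split' L, JL_Split, prLn_Split, ih, prpr_Split]

theorem Split.L_pow_J_pow (s : Split L) {n : ℕ} (hn : 0 < n) (v : E) :
    (L ^ n) ((s.J ^ n) v) = s.pr v := by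
  obtain ⟨m, rfl⟩ : ∃ m, n = m + 1 := ⟨n - 1, by omega⟩
  clear hn
  induction m generalizing v with
  | zero =>
    rw [zero_add, pow_one, pow_one]
    exact LJ_Split s v
  | succ m ih =>
    rw [pow_succ_Split L, pow_succ_Split' s.J, LJ_Split, pow_succ_Split' s.J, prJ_Split,
      ← pow_succ_Split' s.J, ih]

/-- the product of the two exponential bounds tends to zero -/
private theorem lim_Split {C C' μ : ℝ} (hμ : 0 < μ) (hμ1 : μ < 1) {x : ℝ}
    (h : ∀ n : ℕ, 0 < n → x ≤ (C * μ ^ n) * (C' * (1 + (1 - μ)) ^ n)) : x ≤ 0 := by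
  have h1 : ∀ n : ℕ, 0 < n → x ≤ (C * C') * (μ * (1 + (1 - μ))) ^ n := by
    intro n hn
    refine (h n hn).trans (le_of_eq ?_)
    rw [mul_pow]
    ring
  have h2 : μ * (1 + (1 - μ)) < 1 := by nlinarith [sq_nonneg (1 - μ), sub_pos.2 hμ1]
  have h3 : 0 ≤ μ * (1 + (1 - μ)) := by nlinarith
  have h4 := (tendsto_pow_atTop_nhds_zero_of_lt_one h3 h2).const_mul (C * C')
  rw [mul_zero] at h4
  exact ge_of_tendsto h4 (by
    filter_upwards [eventually_gt_atTop 0] with n hn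
    exact h1 n hn)

private theorem le_op_Split {E' : Type*} [NormedAddCommGroup E'] [NormedSpace ℝ E']
    {A : E →L[ℝ] E'} {c : ℝ} (hA : ‖A‖ ≤ c) (v : E) : ‖A v‖ ≤ c * ‖v‖ :=
  (A.le_opNorm v).trans (mul_le_mul_of_nonneg_right hA (norm_nonneg _))

/-- a vector of the expanding part whose orbit grows subexponentially is `0` -/
theorem Split.eq_zero (s : Split L) {v : E} (hv : s.pr v = v)
    (h : ∀ ε > (0 : ℝ), ∃ C : ℝ, ∀ n : ℕ, ‖(L ^ n) v‖ ≤ C * (1 + ε) ^ n) : v = 0 := by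
  obtain ⟨C, μ, hμ, hμ1, hC⟩ := s.fast
  obtain ⟨C', hC'⟩ := h (1 - μ) (sub_pos.2 hμ1)
  rw [← norm_le_zero_iff]
  refine lim_Split (C := C) (C' := C') hμ hμ1 fun n hn => ?_
  have h1 : v = (s.J ^ n) ((L ^ n) v) := by rw [s.J_pow_L_pow hn, hv]
  have hC0 : 0 ≤ C * μ ^ n := (norm_nonneg _).trans (hC n)
  calc ‖v‖ = ‖(s.J ^ n) ((L ^ n) v)‖ := by rw [← h1]
    _ ≤ C * μ ^ n * ‖(L ^ n) v‖ := le_op_Split (hC n) _
    _ ≤ _ := mul_le_mul_of_nonneg_left (hC' n) hC0

theorem Split.natural (s : Split L) {E' : Type*} [NormedAddCommGroup E'] [NormedSpace ℝ E']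
    {L' : E' →L[ℝ] E'} (s' : Split L') {ι : E →L[ℝ] E'} (h : L' ∘L ι = ι ∘L L) :
    s'.pr ∘L ι = ι ∘L s.pr ∧ s'.J ∘L ι = ι ∘L s.J := by
  have hι : ∀ v, L' (ι v) = ι (L v) := fun v => DFunLike.congr_fun h v
  have hιn : ∀ (n : ℕ) (v : E), (L' ^ n) (ι v) = ι ((L ^ n) v) := by
    intro n
    induction n with
    | zero => exact fun v => rfl
    | succ n ih =>
      intro v
      rw [pow_succ_Split, pow_succ_Split, hι, ih]
  -- the slow part is mapped to the slow part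
  have h1 : ∀ v, s'.pr (ι (v - s.pr v)) = 0 := by
    intro v
    refine s'.eq_zero (prpr_Split s' _) fun ε hε => ?_
    obtain ⟨C, hC⟩ := s.slow ε hε
    refine ⟨‖s'.pr‖ * (‖ι‖ * (C * ‖v‖)), fun n => ?_⟩
    rw [← prLn_Split, hιn]
    have h2 : ‖(L ^ n) (v - s.pr v)‖ ≤ C * (1 + ε) ^ n * ‖v‖ := le_op_Split (hC n) v
    calc ‖s'.pr (ι ((L ^ n) (v - s.pr v)))‖ ≤ ‖s'.pr‖ * (‖ι‖ * ‖(L ^ n) (v - s.pr v)‖) :=
          (s'.pr.le_opNorm _).trans (mul_le_mul_of_nonneg_left (ι.le_opNorm _) (norm_nonneg _))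
      _ ≤ ‖s'.pr‖ * (‖ι‖ * (C * (1 + ε) ^ n * ‖v‖)) := by gcongr
      _ = _ := by ring
  -- the fast part is mapped to the fast part
  have h2 : ∀ v, ι (s.pr v) - s'.pr (ι (s.pr v)) = 0 := by
    intro v
    obtain ⟨C, μ, hμ, hμ1, hC⟩ := s.fast
    obtain ⟨C', hC'⟩ := s'.slow (1 - μ) (sub_pos.2 hμ1)
    rw [← norm_le_zero_iff]
    refine lim_Split (C := C * (‖ι‖ * ‖v‖)) (C' := C') hμ hμ1 fun n hn => ?_
    have e1 : ι (s.pr v) - s'.pr (ι (s.pr v)) =
        (L' ^ n) (ι ((s.J ^ n) v) - s'.pr (ι ((s.J ^ n) v))) := by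
      rw [map_sub, hιn, ← prLn_Split, hιn, s.L_pow_J_pow hn]
    have e2 : ‖(L' ^ n) (ι ((s.J ^ n) v) - s'.pr (ι ((s.J ^ n) v)))‖ ≤
        C' * (1 + (1 - μ)) ^ n * ‖ι ((s.J ^ n) v)‖ := le_op_Split (hC' n) _
    have hC0 : 0 ≤ C' * (1 + (1 - μ)) ^ n := (norm_nonneg _).trans (hC' n)
    rw [e1]
    calc _ ≤ C' * (1 + (1 - μ)) ^ n * ‖ι ((s.J ^ n) v)‖ := e2
      _ ≤ C' * (1 + (1 - μ)) ^ n * (‖ι‖ * (C * μ ^ n * ‖v‖)) := by
          refine mul_le_mul_of_nonneg_left ?_ hC0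
          exact (ι.le_opNorm _).trans
            (mul_le_mul_of_nonneg_left (le_op_Split (hC n) v) (norm_nonneg _))
      _ = _ := by ring
  have h3 : ∀ v, s'.pr (ι v) = ι (s.pr v) := by
    intro v
    have e1 := h1 v
    rw [map_sub, map_sub, sub_eq_zero] at e1
    rw [e1]
    exact (sub_eq_zero.1 (h2 v)).symm
  refine ⟨ContinuousLinearMap.ext h3, ContinuousLinearMap.ext fun v => ?_⟩
  show s'.J (ι v) = ι (s.J v)
  rw [← Jpr_Split s', h3, ← LJ_Split s v, ← hι, JL_Split s', h3, prJ_Split]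

/-- growth of the powers of an element of a complex Banach algebra -/
private theorem growth_Split {𝔸 : Type*} [NormedRing 𝔸] [NormedAlgebra ℂ 𝔸] [CompleteSpace 𝔸]
    (a : 𝔸) {r : ℝ} (hr : 0 < r) (hne : (spectrum ℂ a).Nonempty)
    (h : ∀ k ∈ spectrum ℂ a, ‖k‖ < r) : ∃ C : ℝ, ∀ n : ℕ, ‖a ^ n‖ ≤ C * r ^ n := by
  obtain ⟨r', hr'⟩ : ∃ r' : NNReal, (r' : ℝ) = r := ⟨⟨r, hr.le⟩, rfl⟩
  have h1 : spectralRadius ℂ a < (r' : ENNReal) :=
    spectrum.spectralRadius_lt_of_forall_lt_of_nonempty hne fun k hk => by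
      have := h k hk
      rw [← hr'] at this
      exact_mod_cast this
  have h2 := spectrum.pow_nnnorm_pow_one_div_tendsto_nhds_spectralRadius a
  have h3 := h2.eventually (gt_mem_nhds h1)
  obtain ⟨n0, hn0⟩ := eventually_atTop.1 h3
  have h4 : ∀ n ≥ max n0 1, ‖a ^ n‖ ≤ r ^ n := by
    intro n hn
    have h5 := hn0 n (le_trans (le_max_left _ _) hn)
    have hn1 : (n : ℝ) ≠ 0 := by
      have : 1 ≤ n := le_trans (le_max_right _ _) hn
      exact_mod_cast (by omega : n ≠ 0)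
    have h6 : ((‖a ^ n‖₊ : ENNReal) ^ (1 / n : ℝ)) ^ n ≤ (r' : ENNReal) ^ n :=
      pow_le_pow_left' h5.le n
    rw [← ENNReal.rpow_natCast, ← ENNReal.rpow_mul, one_div, inv_mul_cancel₀ hn1,
      ENNReal.rpow_one] at h6
    have h7 : ‖a ^ n‖₊ ≤ r' ^ n := by exact_mod_cast h6
    rw [← hr']
    exact_mod_cast h7
  refine ⟨1 + ∑ n ∈ Finset.range (max n0 1), ‖a ^ n‖ / r ^ n, fun n => ?_⟩
  have hs : ∀ n ∈ Finset.range (max n0 1), 0 ≤ ‖a ^ n‖ / r ^ n := fun n _ => by positivity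
  have hrn : 0 < r ^ n := pow_pos hr n
  rcases lt_or_ge n (max n0 1) with hn | hn
  · have h5 := Finset.single_le_sum (f := fun n => ‖a ^ n‖ / r ^ n) hs (Finset.mem_range.2 hn)
    have h6 : ‖a ^ n‖ = ‖a ^ n‖ / r ^ n * r ^ n := by field_simp
    rw [h6]
    refine mul_le_mul_of_nonneg_right ?_ hrn.le
    linarith
  · have h5 := h4 n hn
    have h6 := Finset.sum_nonneg hs
    calc ‖a ^ n‖ ≤ 1 * r ^ n := by rw [one_mul]; exact h5
      _ ≤ _ := mul_le_mul_of_nonneg_right (by linarith) hrn.le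

open Polynomial in
private theorem eval_prod_Split (R : Multiset ℂ) (z : ℂ) :
    ((R.map fun a => X - C a).prod).eval z = 0 ↔ z ∈ R := by
  rw [eval_multiset_prod, Multiset.map_map, Multiset.prod_eq_zero_iff, Multiset.mem_map]
  constructor
  · rintro ⟨a, ha, h⟩
    rw [Function.comp_apply, eval_sub, eval_X, eval_C, sub_eq_zero] at h
    rwa [h]
  · intro h
    exact ⟨z, h, by simp⟩

open Polynomial in
/-- the three polynomials -/
private theorem poly_Split (m : ℂ[X]) (hm : m.Monic) : ∃ P Q S : ℂ[X],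
    (m ∣ P * P - P) ∧ (m ∣ X * Q - P) ∧ (m ∣ P * Q - Q) ∧ S = X * (1 - P) ∧
      (∀ z : ℂ, m.eval z = 0 → ‖Q.eval z‖ < 1) ∧ ∀ z : ℂ, m.eval z = 0 → ‖S.eval z‖ ≤ 1 := by
  classical
  obtain ⟨R1, hR1⟩ : ∃ R1, R1 = m.roots.filter fun z => 1 < ‖z‖ := ⟨_, rfl⟩
  obtain ⟨R2, hR2⟩ : ∃ R2, R2 = m.roots.filter fun z => ¬ 1 < ‖z‖ := ⟨_, rfl⟩
  obtain ⟨p1, hp1⟩ : ∃ p1 : ℂ[X], p1 = (R1.map fun a => X - C a).prod := ⟨_, rfl⟩
  obtain ⟨p2, hp2⟩ : ∃ p2 : ℂ[X], p2 = (R2.map fun a => X - C a).prod := ⟨_, rfl⟩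
  have hmp : p1 * p2 = m := by
    rw [hp1, hp2, ← Multiset.prod_add, ← Multiset.map_add, hR1, hR2, Multiset.filter_add_not]
    exact ((IsAlgClosed.splits m).eq_prod_roots_of_monic hm).symm
  have h1 : ∀ z, p1.eval z = 0 → 1 < ‖z‖ := by
    intro z hz
    rw [hp1, eval_prod_Split, hR1, Multiset.mem_filter] at hz
    exact hz.2
  have h2 : ∀ z, p2.eval z = 0 → ¬ 1 < ‖z‖ := by
    intro z hz
    rw [hp2, eval_prod_Split, hR2, Multiset.mem_filter] at hz
    exact hz.2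
  have hc1 : IsCoprime p1 p2 := by
    refine (Polynomial.isCoprime_iff_aeval_ne_zero_of_isAlgClosed ℂ ℂ _ _).2 fun z => ?_
    simp only [coe_aeval_eq_eval]
    by_contra hcon
    push Not at hcon
    exact h2 z hcon.2 (h1 z hcon.1)
  have hc2 : IsCoprime X p1 := by
    refine (Polynomial.isCoprime_iff_aeval_ne_zero_of_isAlgClosed ℂ ℂ _ _).2 fun z => ?_
    simp only [coe_aeval_eq_eval, eval_X]
    by_contra hcon
    push Not at hcon
    have := h1 z hcon.2
    rw [hcon.1, norm_zero] at this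
    linarith
  obtain ⟨a, b, hab⟩ := hc1
  obtain ⟨c, d, hcd⟩ := hc2
  have hP : b * p2 = 1 - a * p1 := by linear_combination hab
  refine ⟨b * p2, c * (b * p2), X * (1 - b * p2), ?_, ?_, ?_, rfl, ?_, ?_⟩
  · refine ⟨-(a * b), ?_⟩
    rw [← hmp]
    linear_combination (b * p2) * hab
  · refine ⟨-(d * b), ?_⟩
    rw [← hmp]
    linear_combination (b * p2) * hcd
  · refine ⟨-(a * b * c), ?_⟩
    rw [← hmp]
    linear_combination (c * b * p2) * hab
  · intro z hz
    rw [← hmp, eval_mul, mul_eq_zero] at hz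
    rcases hz with hz | hz
    · have e1 : (b * p2).eval z = 1 := by
        rw [hP, eval_sub, eval_mul, hz, mul_zero, eval_one, sub_zero]
      have e2 : c.eval z * z = 1 := by
        have := congrArg (eval z) hcd
        rw [eval_add, eval_mul, eval_mul, hz, mul_zero, add_zero, eval_X, eval_one] at this
        exact this
      have e3 : ‖c.eval z‖ * ‖z‖ = 1 := by rw [← norm_mul, e2, norm_one]
      rw [eval_mul, e1, mul_one]
      have e4 := h1 z hz
      by_contra hcon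
      push Not at hcon
      nlinarith [norm_nonneg (c.eval z)]
    · rw [eval_mul, eval_mul, hz, mul_zero, mul_zero, norm_zero]
      exact one_pos
  · intro z hz
    rw [← hmp, eval_mul, mul_eq_zero] at hz
    rcases hz with hz | hz
    · have e1 : (b * p2).eval z = 1 := by
        rw [hP, eval_sub, eval_mul, hz, mul_zero, eval_one, sub_zero]
      rw [eval_mul, eval_sub, e1, eval_one, sub_self, mul_zero, norm_zero]
      exact zero_le_one
    · rw [eval_mul, eval_sub, eval_mul, hz, mul_zero, eval_one, sub_zero, mul_one, eval_X]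
      exact not_lt.1 (h2 z hz)

private theorem rpow_Split {W : Type*} [NormedAddCommGroup W] [NormedSpace ℂ W]
    (A : W →L[ℂ] W) (n : ℕ) :
    (A.restrictScalars ℝ : W →L[ℝ] W) ^ n = (A ^ n).restrictScalars ℝ := by
  induction n with
  | zero => rfl
  | succ n ih =>
    rw [pow_succ, pow_succ, ih]
    rfl

open Polynomial in
/-- the complex case -/
private theorem complex_Split {W : Type*} [NormedAddCommGroup W] [NormedSpace ℂ W]
    [FiniteDimensional ℂ W] [Nontrivial W] (A : W →L[ℂ] W) :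
    Nonempty (Split (A.restrictScalars ℝ : W →L[ℝ] W)) := by
  have hcs : CompleteSpace W := FiniteDimensional.complete ℂ W
  have hint : IsIntegral ℂ A := Algebra.IsIntegral.isIntegral A
  have hm := minpoly.monic hint
  have hA : aeval A (minpoly ℂ A) = 0 := minpoly.aeval ℂ A
  have hne : (spectrum ℂ A).Nonempty := spectrum.nonempty A
  have hroot : ∀ z ∈ spectrum ℂ A, (minpoly ℂ A).eval z = 0 := by
    intro z hz
    have h1 := spectrum.subset_polynomial_aeval A (minpoly ℂ A) ⟨z, hz, rfl⟩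
    rw [hA, spectrum.zero_eq] at h1
    exact h1
  obtain ⟨P, Q, S, h1, h2, h3, h4, h5, h6⟩ := poly_Split (minpoly ℂ A) hm
  have hz : ∀ f : ℂ[X], minpoly ℂ A ∣ f → aeval A f = 0 := by
    rintro _ ⟨f, rfl⟩
    rw [map_mul, hA, zero_mul]
  have e1 : aeval A P * aeval A P = aeval A P := by
    have := hz _ h1
    rwa [map_sub, map_mul, sub_eq_zero] at this
  have e2 : A * aeval A Q = aeval A P := by
    have := hz _ h2
    rwa [map_sub, map_mul, aeval_X, sub_eq_zero] at this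
  have e3 : aeval A P * aeval A Q = aeval A Q := by
    have := hz _ h3
    rwa [map_sub, map_mul, sub_eq_zero] at this
  have e4 : aeval A Q * A = aeval A P := by
    have h7 : aeval A (Q * X) = aeval A (X * Q) := by rw [mul_comm]
    rw [map_mul, map_mul, aeval_X, e2] at h7
    exact h7
  have e5 : aeval A S = A * (1 - aeval A P) := by
    rw [h4, map_mul, map_sub, map_one, aeval_X]
  have hspec : ∀ f : ℂ[X], ∀ k ∈ spectrum ℂ (aeval A f), ∃ z, (minpoly ℂ A).eval z = 0 ∧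
      f.eval z = k := by
    intro f k hk
    rw [spectrum.map_polynomial_aeval_of_nonempty A f hne] at hk
    obtain ⟨z, hz1, hz2⟩ := hk
    exact ⟨z, hroot z hz1, hz2⟩
  have hne' : ∀ f : ℂ[X], (spectrum ℂ (aeval A f)).Nonempty := fun f => spectrum.nonempty _
  -- a bound below one for the spectrum of `aeval A Q`
  obtain ⟨μ, hμ, hμ1, hμ2⟩ : ∃ μ : ℝ, 0 < μ ∧ μ < 1 ∧ ∀ k ∈ spectrum ℂ (aeval A Q), ‖k‖ < μ := by
    obtain ⟨k0, hk0, hmax⟩ := (spectrum.isCompact (aeval A Q)).exists_isMaxOn (hne' Q)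
      continuous_norm.continuousOn
    have hk1 : ‖k0‖ < 1 := by
      obtain ⟨z, hz1, hz2⟩ := hspec Q k0 hk0
      rw [← hz2]
      exact h5 z hz1
    refine ⟨(‖k0‖ + 1) / 2, by positivity, by linarith, fun k hk => ?_⟩
    have : ‖k‖ ≤ ‖k0‖ := hmax hk
    linarith
  obtain ⟨C, hC⟩ := growth_Split (aeval A Q) hμ (hne' Q) hμ2
  refine ⟨{
    pr := (aeval A P).restrictScalars ℝ
    J := (aeval A Q).restrictScalars ℝ
    pr_pr := ?_
    L_J := ?_
    J_L := ?_
    pr_J := ?_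
    fast := ⟨C, μ, hμ, hμ1, fun n => ?_⟩
    slow := fun ε hε => ?_ }⟩
  · ext v
    exact DFunLike.congr_fun e1 v
  · ext v
    exact DFunLike.congr_fun e2 v
  · ext v
    exact DFunLike.congr_fun e4 v
  · ext v
    exact DFunLike.congr_fun e3 v
  · rw [rpow_Split, ContinuousLinearMap.norm_restrictScalars]
    exact hC n
  · obtain ⟨C', hC'⟩ := growth_Split (aeval A S) (r := 1 + ε) (by linarith) (hne' S)
      (fun k hk => by
        obtain ⟨z, hz1, hz2⟩ := hspec S k hk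
        have := h6 z hz1
        rw [hz2] at this
        linarith)
    have hpow : ∀ n : ℕ, 0 < n → (aeval A S) ^ n = A ^ n * (1 - aeval A P) := by
      have hid : (1 - aeval A P) * (1 - aeval A P) = 1 - aeval A P := by
        rw [mul_sub, mul_one, sub_mul, one_mul, e1]
        abel
      have hcomm : (1 - aeval A P) * A = A * (1 - aeval A P) := by
        have h7 : aeval A ((1 - P) * X) = aeval A (X * (1 - P)) := by rw [mul_comm]
        rw [map_mul, map_mul, aeval_X, map_sub, map_one] at h7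
        exact h7
      intro n hn
      obtain ⟨m, rfl⟩ : ∃ m, n = m + 1 := ⟨n - 1, by omega⟩
      clear hn
      induction m with
      | zero => rw [zero_add, pow_one, pow_one, e5]
      | succ m ih =>
        rw [pow_succ, ih, e5, mul_assoc, ← mul_assoc (1 - aeval A P) A, hcomm,
          mul_assoc A (1 - aeval A P), hid, ← mul_assoc, ← pow_succ]
    refine ⟨max C' ‖(1 - aeval A P)‖, fun n => ?_⟩
    have hr : ((A.restrictScalars ℝ : W →L[ℝ] W) ^ n : W →L[ℝ] W) ∘L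
        (ContinuousLinearMap.id ℝ W - (aeval A P).restrictScalars ℝ) =
        (A ^ n * (1 - aeval A P)).restrictScalars ℝ := by
      rw [rpow_Split]
      rfl
    rw [hr, ContinuousLinearMap.norm_restrictScalars]
    have hpos : 0 < (1 + ε) ^ n := by positivity
    rcases Nat.eq_zero_or_pos n with hn | hn
    · rw [hn, pow_zero, pow_zero, one_mul, mul_one]
      exact le_max_right _ _
    · rw [← hpow n hn]
      exact (hC' n).trans (mul_le_mul_of_nonneg_right (le_max_left _ _) hpos.le)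

theorem exists_split [FiniteDimensional ℝ E] (L : E →L[ℝ] E) : Nonempty (Split L) := by
  classical
  rcases subsingleton_or_nontrivial E with hE | hE
  · refine ⟨{
      pr := 0
      J := 0
      pr_pr := Subsingleton.elim _ _
      L_J := Subsingleton.elim _ _
      J_L := Subsingleton.elim _ _
      pr_J := Subsingleton.elim _ _
      fast := ⟨0, 1 / 2, by norm_num, by norm_num, fun n => ?_⟩
      slow := fun ε hε => ⟨0, fun n => ?_⟩ }⟩
    · rw [zero_mul, Subsingleton.elim ((0 : E →L[ℝ] E) ^ n) 0, norm_zero]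
    · rw [zero_mul, norm_le_zero_iff]
      exact Subsingleton.elim _ _
  have b := Module.finBasis ℝ E
  obtain ⟨N, hN⟩ : ∃ N, N = Module.finrank ℝ E := ⟨_, rfl⟩
  rw [← hN] at b
  have hN0 : 0 < N := by
    rw [hN]
    exact Module.finrank_pos
  have hne : Nonempty (Fin N) := ⟨⟨0, hN0⟩⟩
  have hnt : Nontrivial (Fin N → ℂ) := Function.nontrivial
  -- the complexification
  obtain ⟨M, hM⟩ : ∃ M : Matrix (Fin N) (Fin N) ℝ, M = LinearMap.toMatrix b b L.toLinearMap :=
    ⟨_, rfl⟩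
  have hML : ∀ v, M.mulVec (b.repr v) = b.repr (L v) := by
    intro v
    rw [hM]
    exact LinearMap.toMatrix_mulVec_repr b b L.toLinearMap v
  obtain ⟨A, hA⟩ : ∃ A : (Fin N → ℂ) →L[ℂ] (Fin N → ℂ), ∀ w, A w =
      (M.map ((↑) : ℝ → ℂ)).mulVec w :=
    ⟨LinearMap.toContinuousLinearMap (Matrix.toLin' (M.map ((↑) : ℝ → ℂ))), fun w => by
      rw [LinearMap.coe_toContinuousLinearMap', Matrix.toLin'_apply]⟩
  obtain ⟨i, hi⟩ : ∃ i : E →L[ℝ] (Fin N → ℂ), ∀ v k, i v k = ((b.repr v k : ℝ) : ℂ) :=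
    ⟨LinearMap.toContinuousLinearMap
      { toFun := fun v k => ((b.repr v k : ℝ) : ℂ)
        map_add' := fun v w => by
          ext k
          simp
        map_smul' := fun c v => by
          ext k
          simp }, fun v k => rfl⟩
  obtain ⟨r, hr⟩ : ∃ r : (Fin N → ℂ) →L[ℝ] E, ∀ w k, b.repr (r w) k = (w k).re :=
    ⟨LinearMap.toContinuousLinearMap
      { toFun := fun w => b.equivFun.symm fun k => (w k).re
        map_add' := fun v w => by
          rw [← map_add]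
          congr 1
        map_smul' := fun c v => by
          rw [RingHom.id_apply, ← map_smul]
          congr 1
          ext k
          simp }, fun w k => by
      show b.repr (b.equivFun.symm fun k => (w k).re) k = _
      rw [← b.equivFun_apply, LinearEquiv.apply_symm_apply]⟩
  obtain ⟨c, hc⟩ : ∃ c : (Fin N → ℂ) →L[ℝ] (Fin N → ℂ), ∀ w k, c w k =
      (starRingEnd ℂ) (w k) :=
    ⟨LinearMap.toContinuousLinearMap
      { toFun := fun w k => (starRingEnd ℂ) (w k)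
        map_add' := fun v w => by
          ext k
          simp
        map_smul' := fun c v => by
          ext k
          simp }, fun v k => rfl⟩
  have hri : ∀ v, r (i v) = v := by
    intro v
    apply b.repr.injective
    ext k
    rw [hr, hi, Complex.ofReal_re]
  have hir : ∀ w, c w = w → i (r w) = w := by
    intro w hw
    ext k
    rw [hi, hr]
    refine Complex.conj_eq_iff_re.1 ?_
    rw [← hc, hw]
  have hci : ∀ v, c (i v) = i v := by
    intro v
    ext k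
    rw [hc, hi, Complex.conj_ofReal]
  have hAi : ∀ v, A (i v) = i (L v) := by
    intro v
    ext k
    rw [hA, hi, ← hML]
    simp only [Matrix.mulVec, dotProduct, Matrix.map_apply, hi]
    push_cast
    rfl
  have hAc : ∀ w, A (c w) = c (A w) := by
    intro w
    ext k
    rw [hc, hA, hA]
    simp only [Matrix.mulVec, dotProduct, Matrix.map_apply, hc]
    rw [map_sum]
    refine Finset.sum_congr rfl fun j _ => ?_
    rw [map_mul, Complex.conj_ofReal]
  obtain ⟨s⟩ := complex_Split A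
  obtain ⟨n1, n2⟩ := Split.natural s s (ι := c) (ContinuousLinearMap.ext hAc)
  have hpr : ∀ v, i (r (s.pr (i v))) = s.pr (i v) := fun v => by
    refine hir _ ?_
    have h := DFunLike.congr_fun n1 (i v)
    rw [ContinuousLinearMap.comp_apply, ContinuousLinearMap.comp_apply, hci] at h
    exact h.symm
  have hJ : ∀ v, i (r (s.J (i v))) = s.J (i v) := fun v => by
    refine hir _ ?_
    have h := DFunLike.congr_fun n2 (i v)
    rw [ContinuousLinearMap.comp_apply, ContinuousLinearMap.comp_apply, hci] at h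
    exact h.symm
  have hinj : ∀ v w, i v = i w → v = w := fun v w h => by rw [← hri v, h, hri]
  have hJn : ∀ (n : ℕ) (v : E), i (((r ∘L s.J ∘L i) ^ n) v) = (s.J ^ n) (i v) := by
    intro n
    induction n with
    | zero => exact fun v => rfl
    | succ n ih =>
      intro v
      rw [pow_succ_Split, pow_succ_Split, ih]
      exact congrArg _ (hJ v)
  have hLn : ∀ (n : ℕ) (v : E), i ((L ^ n) v) =
      ((A.restrictScalars ℝ : (Fin N → ℂ) →L[ℝ] (Fin N → ℂ)) ^ n) (i v) := by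
    intro n
    induction n with
    | zero => exact fun v => rfl
    | succ n ih =>
      intro v
      rw [pow_succ_Split, pow_succ_Split, ih]
      exact congrArg _ (hAi v).symm
  refine ⟨{
    pr := r ∘L s.pr ∘L i
    J := r ∘L s.J ∘L i
    pr_pr := ?_
    L_J := ?_
    J_L := ?_
    pr_J := ?_
    fast := ?_
    slow := ?_ }⟩
  · ext v
    apply hinj
    show i (r (s.pr (i (r (s.pr (i v)))))) = i (r (s.pr (i v)))
    rw [hpr, hpr, prpr_Split]
  · ext v
    apply hinj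
    show i (L (r (s.J (i v)))) = i (r (s.pr (i v)))
    rw [← hAi, hJ, hpr]
    exact LJ_Split s (i v)
  · ext v
    apply hinj
    show i (r (s.J (i (L v)))) = i (r (s.pr (i v)))
    rw [hJ, hpr, ← hAi]
    exact JL_Split s (i v)
  · ext v
    apply hinj
    show i (r (s.pr (i (r (s.J (i v)))))) = i (r (s.J (i v)))
    rw [hpr, hJ, prJ_Split]
  · obtain ⟨C, μ, hμ, hμ1, hC⟩ := s.fast
    refine ⟨‖r‖ * C * ‖i‖, μ, hμ, hμ1, fun n => ?_⟩
    have hC0 : 0 ≤ C * μ ^ n := (norm_nonneg _).trans (hC n)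
    have h0 : ‖r‖ * C * ‖i‖ * μ ^ n = ‖r‖ * (C * μ ^ n * ‖i‖) := by ring
    rw [h0]
    refine ContinuousLinearMap.opNorm_le_bound _ (by positivity) fun v => ?_
    rw [← hri (((r ∘L s.J ∘L i) ^ n) v), hJn]
    calc ‖r ((s.J ^ n) (i v))‖ ≤ ‖r‖ * ‖(s.J ^ n) (i v)‖ := r.le_opNorm _
      _ ≤ ‖r‖ * (C * μ ^ n * ‖i v‖) :=
          mul_le_mul_of_nonneg_left (le_op_Split (hC n) _) (norm_nonneg _)
      _ ≤ ‖r‖ * (C * μ ^ n * (‖i‖ * ‖v‖)) :=
          mul_le_mul_of_nonneg_left (mul_le_mul_of_nonneg_left (i.le_opNorm _) hC0)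
            (norm_nonneg _)
      _ = _ := by ring
  · intro ε hε
    obtain ⟨C, hC⟩ := s.slow ε hε
    refine ⟨‖r‖ * C * ‖i‖, fun n => ?_⟩
    have hC0 : 0 ≤ C * (1 + ε) ^ n := (norm_nonneg _).trans (hC n)
    have h0 : ‖r‖ * C * ‖i‖ * (1 + ε) ^ n = ‖r‖ * (C * (1 + ε) ^ n * ‖i‖) := by ring
    rw [h0]
    refine ContinuousLinearMap.opNorm_le_bound _ (by positivity) fun v => ?_
    rw [← hri (((L ^ n : E →L[ℝ] E) ∘L (ContinuousLinearMap.id ℝ E - r ∘L s.pr ∘L i)) v)]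
    have h1 : i (((L ^ n : E →L[ℝ] E) ∘L (ContinuousLinearMap.id ℝ E - r ∘L s.pr ∘L i)) v) =
        (((A.restrictScalars ℝ : (Fin N → ℂ) →L[ℝ] (Fin N → ℂ)) ^ n) ∘L
          (ContinuousLinearMap.id ℝ (Fin N → ℂ) - s.pr)) (i v) := by
      show i ((L ^ n) (v - r (s.pr (i v)))) =
        ((A.restrictScalars ℝ : (Fin N → ℂ) →L[ℝ] (Fin N → ℂ)) ^ n) (i v - s.pr (i v))
      rw [hLn, map_sub i, hpr]
    rw [h1]
    calc ‖r ((((A.restrictScalars ℝ : (Fin N → ℂ) →L[ℝ] (Fin N → ℂ)) ^ n) ∘L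
          (ContinuousLinearMap.id ℝ (Fin N → ℂ) - s.pr)) (i v))‖ ≤ ‖r‖ * _ := r.le_opNorm _
      _ ≤ ‖r‖ * (C * (1 + ε) ^ n * ‖i v‖) :=
          mul_le_mul_of_nonneg_left (le_op_Split (hC n) _) (norm_nonneg _)
      _ ≤ ‖r‖ * (C * (1 + ε) ^ n * (‖i‖ * ‖v‖)) :=
          mul_le_mul_of_nonneg_left (mul_le_mul_of_nonneg_left (i.le_opNorm _) hC0)
            (norm_nonneg _)
      _ = _ := by ring

end Pool.Agent.ANO5.Lin
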