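import Pool.Agent.ANO5.A3.Sys.Setting
import Pool.Agent.ANO5.Lin.Coc
import Pool.Agent.ANO5.Lin.Rec
import Pool.Agent.ANO5.Tor.Defs

/-!
# ANO5, module Lin: the torus functions (definitions for all modules; package LIN-TORUS)

`TData S`: a matrix `A`, a twist `τ` and a recurrence for `τ`. `zeta D x` is the vector
`(t, (τ (F^j b))_(j ≤ d))` for `x = (z, (y, t))`, `b = (z, y)`, `F = baseMap`. `exm A a` is the
linear map `(t, v) ↦ (A t + v_0, cmp a v)`, `cmp a` the companion map. For the model map `T₀`: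
`zeta (T₀ x) = exm (zeta x) + (0, (0, ..., 0, ρ b))` with
`ρ b = τ (F^(d+1) b) - ∑ a_j τ (F^j b)` invariant (`rc`).
`SymX D`: the pairs `(g, w)`, `g` a deck transformation, `zeta (g x) = zeta x + w`.
`TU D T`, `TUI D T₀ T`: the torus functions. `chi D g`: the shift of `TU` under `g`.

`sym_of_deck`: `IsTwist.equivar` for the deck transformations `F^j g F^(-j)` of the base.
`sym_step`: let `T₀ ∘ g = g' ∘ T₀`. Every point is `T₀ x` and `zeta (g' (T₀ x)) = zeta (T₀ (g x)) =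
exm (zeta (g x)) + (0, ρ) = exm (zeta x) + exm w + (0, ρ) = zeta (T₀ x) + exm w` (`ρ (g b) = ρ b`).
`isCoc_X`: `h.hom`, `sym_step`, `cocompact_dk`. `isCoc_I`: `interp_comp`, compact set
`[0, 1] × K`.
`exists_inv`: `τ⁻ b = - A⁻¹ (τ (F⁻¹ b))`; `skew⁻¹ (z, (y, t)) = (f⁻¹ z, (y, A⁻¹ t + τ⁻ (z, y)))`.
-/

set_option autoImplicit false

open scoped UpperHalfPlane MatrixGroups
open Set Filter Topology

namespace Pool.Agent.ANO5.Lin

open Pool.Agent.ANO3 Pool.Agent.ANO5.A1 Pool.Agent.ANO5.A2 Pool.Agent.ANO5.A3 Pool.Agent.ANO5.Tor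

section Ext

variable {k d : ℕ}

/-- The companion map. -/
noncomputable def cmp (a : Fin (d + 1) → ℤ) :
    (Fin (d + 1) → Fin k → ℝ) →L[ℝ] (Fin (d + 1) → Fin k → ℝ) :=
  LinearMap.toContinuousLinearMap
    { toFun := fun v j => if h : (j : ℕ) < d then v ⟨j + 1, by omega⟩ else
        ∑ i, (a i : ℝ) • v i
      map_add' := fun v w => by
        funext j
        by_cases h : (j : ℕ) < d
        · simp only [h, dif_pos, Pi.add_apply]
        · simp only [h, dif_neg, not_false_eq_true, Pi.add_apply, smul_add,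
            Finset.sum_add_distrib]
      map_smul' := fun c v => by
        funext j
        by_cases h : (j : ℕ) < d
        · simp only [h, dif_pos, Pi.smul_apply, RingHom.id_apply]
        · simp only [h, dif_neg, not_false_eq_true, Pi.smul_apply, RingHom.id_apply,
            Finset.smul_sum]
          exact Finset.sum_congr rfl fun i _ => smul_comm _ _ _ }

/-- The linear map `(t, v) ↦ (A t + v 0, cmp a v)`. -/
noncomputable def exm (A : Matrix (Fin k) (Fin k) ℤ) (a : Fin (d + 1) → ℤ) :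
    ((Fin k → ℝ) × (Fin (d + 1) → Fin k → ℝ)) →L[ℝ] ((Fin k → ℝ) × (Fin (d + 1) → Fin k → ℝ)) :=
  ContinuousLinearMap.prod
    (lin A ∘L ContinuousLinearMap.fst ℝ (Fin k → ℝ) (Fin (d + 1) → Fin k → ℝ) +
      ContinuousLinearMap.proj (R := ℝ) (φ := fun _ : Fin (d + 1) => Fin k → ℝ) 0 ∘L
        ContinuousLinearMap.snd ℝ (Fin k → ℝ) (Fin (d + 1) → Fin k → ℝ))
    (cmp a ∘L ContinuousLinearMap.snd ℝ (Fin k → ℝ) (Fin (d + 1) → Fin k → ℝ))

theorem cmp_apply (a : Fin (d + 1) → ℤ) (v : Fin (d + 1) → Fin k → ℝ) (j : Fin (d + 1)) :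
    cmp a v j = if h : (j : ℕ) < d then v ⟨j + 1, by omega⟩ else ∑ i, (a i : ℝ) • v i := rfl

theorem exm_apply (A : Matrix (Fin k) (Fin k) ℤ) (a : Fin (d + 1) → ℤ)
    (p : (Fin k → ℝ) × (Fin (d + 1) → Fin k → ℝ)) :
    exm A a p = (lin A p.1 + p.2 0, cmp a p.2) := rfl

theorem exm_inl (A : Matrix (Fin k) (Fin k) ℤ) (a : Fin (d + 1) → ℤ) :
    exm A a ∘L ContinuousLinearMap.inl ℝ _ _ = ContinuousLinearMap.inl ℝ _ _ ∘L lin A := by
  refine ContinuousLinearMap.ext fun t => ?_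
  show exm A a (t, 0) = (lin A t, 0)
  rw [exm_apply, map_zero]
  refine Prod.ext ?_ rfl
  show lin A t + (0 : Fin (d + 1) → Fin k → ℝ) 0 = lin A t
  rw [Pi.zero_apply, add_zero]

theorem cmp_snd (A : Matrix (Fin k) (Fin k) ℤ) (a : Fin (d + 1) → ℤ) :
    cmp a ∘L ContinuousLinearMap.snd ℝ (Fin k → ℝ) (Fin (d + 1) → Fin k → ℝ) =
      ContinuousLinearMap.snd ℝ _ _ ∘L exm A a := by
  rfl

end Ext

variable [TFib] {r : ℕ}

/-- The data of a model map `(z, (y, t)) ↦ (f_i z_i, (y, A t + τ (z, y)))`, with a recurrence. -/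
structure TData (S : Fin r → SurfaceMap) where
  A : Matrix (Fin TFib.k) (Fin TFib.k) ℤ
  τ : B r → Fin TFib.k → ℝ
  tw : IsTwist (surf S) τ
  d : ℕ
  a : Fin (d + 1) → ℤ
  rc : ∀ g ∈ DG TFib.base S, ∀ x,
      τ ((baseMap TFib.base S)^[d + 1] (g x)) -
          ∑ j : Fin (d + 1), (a j : ℝ) • τ ((baseMap TFib.base S)^[(j : ℕ)] (g x)) =
        τ ((baseMap TFib.base S)^[d + 1] x) -
          ∑ j : Fin (d + 1), (a j : ℝ) • τ ((baseMap TFib.base S)^[(j : ℕ)] x)

/-- The space of the vectors `zeta`. -/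
abbrev EE (d : ℕ) : Type := (Fin TFib.k → ℝ) × (Fin (d + 1) → Fin TFib.k → ℝ)

variable {S : Fin r → SurfaceMap} (D : TData S)

/-- The linear map of the data. -/
noncomputable def TData.L : EE D.d →L[ℝ] EE D.d := exm D.A D.a

/-- The splitting of `L`. -/
noncomputable def TData.sL : Split D.L := (exists_split D.L).some

/-- The splitting of `A`. -/
noncomputable def TData.sA : Split (lin D.A) := (exists_split (lin D.A)).some

/-- The splitting of the companion map. -/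
noncomputable def TData.sB : Split (cmp (k := TFib.k) D.a) :=
  (exists_split (cmp (k := TFib.k) D.a)).some

/-- The vector of a point. -/
noncomputable def zeta (x : X r) : EE D.d :=
  (x.2.2, fun j => D.τ ((baseMap TFib.base S)^[(j : ℕ)] (x.1, x.2.1)))

/-- The symmetries of `X r`. -/
def SymX : Set ((X r → X r) × EE D.d) :=
  {q | IsDeck (surf S) q.1 ∧ ∀ x, zeta D (q.1 x) = zeta D x + q.2}

/-- The symmetries of `[0, 1] × X r`. -/
def SymI : Set ((unitInterval × X r → unitInterval × X r) × EE D.d) :=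
  {q | ∃ p ∈ SymX D, q = (Prod.map id p.1, p.2)}

/-- The torus function of `T`. -/
noncomputable def TU (T : X r → X r) (x : X r) : Fin TFib.k → ℝ :=
  D.sA.pr (th D.sL (zeta D) T x).1

/-- The torus function of the family from `T₀` to `T`. -/
noncomputable def TUI (T₀ T : X r → X r) (y : unitInterval × X r) : Fin TFib.k → ℝ :=
  D.sA.pr (th D.sL (fun y : unitInterval × X r => zeta D y.2) (RI T₀ T) y).1

/-- The shift of the torus functions under `g`. -/
noncomputable def chi (g : X r → X r) : Fin TFib.k → ℝ :=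
  D.sA.pr (D.sL.pr (zeta D (g (Classical.arbitrary (X r))) -
    zeta D (Classical.arbitrary (X r)))).1

/-- The torus function of the model at the points with `t = 0`. -/
noncomputable def kap₀ (T₀ : X r → X r) (b : B r) : Fin TFib.k → ℝ := TU D T₀ (b.1, (b.2, 0))

/-- the base point -/
private def bs_Torus (x : X r) : B r := (x.1, x.2.1)

private theorem twist_Torus {S : Fin r → SurfaceMap} {τ : B r → Fin TFib.k → ℝ}
    (hτ : IsTwist (surf S) τ) : ∀ g ∈ DG TFib.base S, ∃ c : Fin TFib.k → ℤ, ∀ x,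
      τ (g x) = τ x + fun j => (c j : ℝ) := by
  intro g hg
  obtain ⟨γ, δ, hγ, hδ, h⟩ := mem_DG.1 hg
  obtain ⟨c, hc⟩ := hτ.equivar γ hγ δ hδ
  refine ⟨c, fun x => ?_⟩
  rw [h]
  exact hc x.1 x.2

private theorem baseMap_apply_Torus (S : Fin r → SurfaceMap) (b : B r) :
    baseMap TFib.base S b = (fun i => (S i).f (b.1 i), b.2) := rfl

private theorem continuous_baseMap_Torus (S : Fin r → SurfaceMap) :
    Continuous (baseMap TFib.base S : B r → B r) := by
  have h1 : (baseMap TFib.base S : B r → B r) = fun b : B r => (fun i => (S i).f (b.1 i), b.2) :=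
    rfl
  rw [h1]
  refine Continuous.prodMk ?_ continuous_snd
  exact continuous_pi fun i => (S i).f.continuous.comp ((continuous_apply i).comp continuous_fst)

private theorem continuous_iter_Torus (S : Fin r → SurfaceMap) (n : ℕ) :
    Continuous ((baseMap TFib.base S)^[n] : B r → B r) :=
  (continuous_baseMap_Torus S).iterate n

private theorem iter_shift_Torus {S : Fin r → SurfaceMap} {τ : B r → Fin TFib.k → ℝ}
    (hτ : IsTwist (surf S) τ) (n : ℕ) : ∀ g ∈ DG TFib.base S, ∃ c : Fin TFib.k → ℤ, ∀ x,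
      τ ((baseMap TFib.base S)^[n] (g x)) =
        τ ((baseMap TFib.base S)^[n] x) + fun j => (c j : ℝ) := by
  induction n with
  | zero => exact twist_Torus hτ
  | succ n ih =>
    intro g hg
    obtain ⟨c, hc⟩ := ih _ (baseMap_conj.2 hg)
    refine ⟨c, fun x => ?_⟩
    have h1 := hc (baseMap TFib.base S x)
    have h2 : (baseMap TFib.base S * g * (baseMap TFib.base S)⁻¹) (baseMap TFib.base S x) =
        baseMap TFib.base S (g x) := by
      have h3 : (baseMap TFib.base S)⁻¹ (baseMap TFib.base S x) = x :=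
        (baseMap TFib.base S).symm_apply_apply x
      rw [Equiv.Perm.mul_apply, Equiv.Perm.mul_apply, h3]
    rw [h2] at h1
    rw [Function.iterate_succ_apply, Function.iterate_succ_apply]
    exact h1

/-- the deck transformation of the base -/
private theorem deck_base_Torus {S : Fin r → SurfaceMap} {g : X r → X r}
    (hg : IsDeck (surf S) g) : ∃ g₀ ∈ DG TFib.base S, ∃ v : Fin TFib.k → ℤ,
      (∀ x, bs_Torus (g x) = g₀ (bs_Torus x)) ∧
      ∀ x, (g x).2.2 = x.2.2 + fun j => (v j : ℝ) := by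
  obtain ⟨γ, δ, hγ, hδ, h⟩ := hg
  obtain ⟨δ₀, hδ₀, v, hv⟩ := mem_Γ.1 hδ
  have hγ' : ∀ i, MulAction.toPermHom SL(2, ℝ) ℍ (γ i) ∈ im (S i).Γ := fun i =>
    mem_im.2 ⟨γ i, hγ i, fun z => rfl⟩
  refine ⟨pk TFib.base (fun i => MulAction.toPermHom SL(2, ℝ) ℍ (γ i), δ₀),
    pk_mem_DG hγ' hδ₀, v, fun x => ?_, fun x => ?_⟩
  · unfold bs_Torus
    rw [h, hv, pk_apply]
    rfl
  · rw [h, hv]
    rfl

private theorem zeta_eq_Torus (x : X r) : zeta D x = ((x.2.2, fun j : Fin (D.d + 1) =>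
    D.τ ((baseMap TFib.base S)^[(j : ℕ)] (bs_Torus x))) : EE D.d) := rfl

/-- the defect of the model map -/
private noncomputable def rho_Torus (b : B r) : Fin TFib.k → ℝ :=
  D.τ ((baseMap TFib.base S)^[D.d + 1] b) -
    ∑ j : Fin (D.d + 1), (D.a j : ℝ) • D.τ ((baseMap TFib.base S)^[(j : ℕ)] b)

private theorem zeta_step_Torus {T₀ : X r ≃ₜ X r} (hT₀ : ∀ x, T₀ x = skew S D.A D.τ x)
    (x : X r) : zeta D (T₀ x) = D.L (zeta D x) +
      ((0, fun j : Fin (D.d + 1) => if (j : ℕ) < D.d then 0 else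
        rho_Torus D (bs_Torus x)) : EE D.d) := by
  have hb : bs_Torus (T₀ x) = baseMap TFib.base S (bs_Torus x) := by
    rw [hT₀]
    rfl
  have hL : D.L (zeta D x) = (lin D.A (zeta D x).1 + (zeta D x).2 0, cmp D.a (zeta D x).2) :=
    exm_apply _ _ _
  rw [hL, zeta_eq_Torus, hb]
  refine Prod.ext ?_ ?_
  · show (T₀ x).2.2 = lin D.A x.2.2 + D.τ (bs_Torus x) + 0
    rw [add_zero, hT₀]
    rfl
  · funext j
    show D.τ ((baseMap TFib.base S)^[(j : ℕ)] (baseMap TFib.base S (bs_Torus x))) =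
      cmp D.a (zeta D x).2 j + if (j : ℕ) < D.d then 0 else rho_Torus D (bs_Torus x)
    rw [cmp_apply, ← Function.iterate_succ_apply]
    by_cases hj : (j : ℕ) < D.d
    · rw [dif_pos hj, if_pos hj, add_zero]
      rfl
    · have hj' : (j : ℕ) = D.d := by
        have := j.2
        omega
      rw [dif_neg hj, if_neg hj, hj']
      unfold rho_Torus
      show _ = (∑ i, (D.a i : ℝ) • D.τ ((baseMap TFib.base S)^[(i : ℕ)] (bs_Torus x))) + _
      rw [add_sub_cancel]

theorem exists_tdata (A : Matrix (Fin TFib.k) (Fin TFib.k) ℤ) {τ : B r → Fin TFib.k → ℝ}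
    (hτ : IsTwist (surf S) τ) : ∃ D : TData S, D.A = A ∧ D.τ = τ := by
  obtain ⟨d, a, h⟩ := exists_rec_twist (N := TFib.base) (twist_Torus hτ)
  exact ⟨⟨A, τ, hτ, d, a, h⟩, rfl, rfl⟩

theorem exists_inv (hA : IsUnit D.A.det) : ∃ D' : TData (fun i => rev (S i)), D'.A = D.A⁻¹ ∧
    ∀ T₀ : X r ≃ₜ X r, (∀ x, T₀ x = skew S D.A D.τ x) →
      ∀ x, T₀.symm x = skew (fun i => rev (S i)) D'.A D'.τ x := by
  obtain ⟨τ', hτ'⟩ : ∃ τ' : B r → Fin TFib.k → ℝ, ∀ b, τ' b =
      -lin D.A⁻¹ (D.τ (fun i => (S i).f.symm (b.1 i), b.2)) := ⟨_, fun b => rfl⟩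
  have htw : IsTwist (surf fun i => rev (S i)) τ' := by
    refine ⟨?_, ?_⟩
    · have h1 : τ' = fun b => -lin D.A⁻¹ (D.τ (fun i => (S i).f.symm (b.1 i), b.2)) :=
        funext hτ'
      rw [h1]
      refine ((lin D.A⁻¹).continuous.comp (D.tw.cont.comp (Continuous.prodMk ?_
        continuous_snd))).neg
      exact continuous_pi fun i =>
        (S i).f.symm.continuous.comp ((continuous_apply i).comp continuous_fst)
    · intro γ hγ δ hδ
      have hex : ∀ i, ∃ γ' ∈ (S i).Γ, ∀ z : ℍ, (S i).f (γ' • z) = γ i • (S i).f z := fun i =>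
        (S i).normalizes' (γ i) (hγ i)
      choose γ' hγ' hf using hex
      obtain ⟨c, hc⟩ := D.tw.equivar γ' hγ' δ hδ
      refine ⟨-(D.A⁻¹.mulVec c), fun z y => ?_⟩
      have h1 : (fun i => (S i).f.symm (γ i • z i)) = fun i => γ' i • (S i).f.symm (z i) := by
        funext i
        rw [Homeomorph.symm_apply_eq, hf, Homeomorph.apply_symm_apply]
      rw [hτ', hτ']
      show -lin D.A⁻¹ (D.τ (fun i => (S i).f.symm (γ i • z i), δ y)) = _
      rw [h1, hc, map_add, neg_add, lin_int]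
      congr 1
      funext j
      simp only [Pi.neg_apply, Int.cast_neg]
  obtain ⟨D', h1, h2⟩ := exists_tdata D.A⁻¹ htw
  refine ⟨D', h1, fun T₀ hT₀ x => ?_⟩
  rw [Homeomorph.symm_apply_eq, hT₀, h1, h2]
  unfold skew
  refine Prod.ext ?_ (Prod.ext rfl ?_)
  · funext i
    exact ((S i).f.apply_symm_apply (x.1 i)).symm
  · show x.2.2 = lin D.A (lin D.A⁻¹ x.2.2 + τ' (x.1, x.2.1)) +
      D.τ (fun i => (S i).f.symm (x.1 i), x.2.1)
    have h3 : ∀ v, lin D.A (lin D.A⁻¹ v) = v := by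
      intro v
      have h4 := lin_mul D.A D.A⁻¹
      rw [Matrix.mul_nonsing_inv D.A hA, lin_one] at h4
      exact (DFunLike.congr_fun h4 v).symm
    rw [map_add, h3, hτ', map_neg, h3]
    abel

theorem continuous_zeta : Continuous (zeta D) := by
  refine Continuous.prodMk (continuous_snd.comp continuous_snd) ?_
  refine continuous_pi fun j => ?_
  exact D.tw.cont.comp ((continuous_iter_Torus S _).comp (Continuous.prodMk continuous_fst
    (continuous_fst.comp continuous_snd)))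

theorem sym_of_deck {g : X r → X r} (hg : IsDeck (surf S) g) : ∃ w, (g, w) ∈ SymX D := by
  obtain ⟨g₀, hg₀, v, h1, h2⟩ := deck_base_Torus hg
  choose c hc using fun n : ℕ => iter_shift_Torus D.tw n g₀ hg₀
  refine ⟨(fun j => (v j : ℝ), fun j i => (c j i : ℝ)), hg, fun x => ?_⟩
  rw [zeta_eq_Torus, zeta_eq_Torus, h1, h2]
  refine Prod.ext rfl ?_
  funext j
  exact hc j (bs_Torus x)

variable {D}

theorem sym_step {T₀ : X r ≃ₜ X r} (hT₀ : ∀ x, T₀ x = skew S D.A D.τ x) {g g' : X r → X r}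
    {w : EE D.d} (hg : (g, w) ∈ SymX D) (hg' : IsDeck (surf S) g') (h : T₀ ∘ g = g' ∘ T₀) :
    (g', D.L w) ∈ SymX D := by
  refine ⟨hg', fun x => ?_⟩
  obtain ⟨hgd, hgw⟩ := hg
  obtain ⟨y, rfl⟩ := T₀.surjective x
  have h1 : g' (T₀ y) = T₀ (g y) := (congrFun h y).symm
  obtain ⟨g₀, hg₀, v, h2, h3⟩ := deck_base_Torus hgd
  have h4 : rho_Torus D (bs_Torus (g y)) = rho_Torus D (bs_Torus y) := by
    rw [h2]
    exact D.rc g₀ hg₀ _
  show zeta D (g' (T₀ y)) = zeta D (T₀ y) + D.L w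
  have h5 : zeta D (g y) = zeta D y + w := hgw y
  rw [h1, zeta_step_Torus D hT₀, zeta_step_Torus D hT₀, h4, h5, map_add]
  abel

theorem isCoc_X {T₀ T : X r ≃ₜ X r} (h : Setting S T₀ T) (hT₀ : ∀ x, T₀ x = skew S D.A D.τ x) :
    IsCoc D.L (zeta D) T (SymX D) := by
  refine ⟨continuous_zeta D, T.continuous, fun g hg y => hg.2 y, ?_, ?_⟩
  · rintro ⟨g, w⟩ hg
    obtain ⟨g', hg', h1, h2⟩ := h.hom g hg.1
    exact ⟨(g', D.L w), sym_step hT₀ hg hg' h1, fun y => congrFun h2 y, rfl⟩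
  · obtain ⟨K, hK, hx⟩ := cocompact_dk S
    refine ⟨K, hK, fun x => ?_⟩
    obtain ⟨γ, δ, hγ, hδ, h1⟩ := hx x
    obtain ⟨w, hw⟩ := sym_of_deck D (isDeck_dk hγ hδ)
    exact ⟨_, hw, h1⟩

theorem isCoc_I {T₀ T : X r ≃ₜ X r} (h : Setting S T₀ T) (hT₀ : ∀ x, T₀ x = skew S D.A D.τ x) :
    IsCoc D.L (fun y : unitInterval × X r => zeta D y.2) (RI T₀ T) (SymI D) := by
  refine ⟨(continuous_zeta D).comp continuous_snd,
    continuous_fst.prodMk (continuous_interp T₀.continuous T.continuous), ?_, ?_, ?_⟩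
  · rintro _ ⟨⟨g, w⟩, hg, rfl⟩ y
    exact hg.2 y.2
  · rintro _ ⟨⟨g, w⟩, hg, rfl⟩
    obtain ⟨g', hg', h1, h2⟩ := h.hom g hg.1
    refine ⟨_, ⟨(g', D.L w), sym_step hT₀ hg hg' h1, rfl⟩, fun y => ?_, rfl⟩
    exact Prod.ext rfl (interp_comp hg' h1 h2 y.1 y.2)
  · obtain ⟨K, hK, hx⟩ := cocompact_dk S
    refine ⟨univ ×ˢ K, isCompact_univ.prod hK, fun y => ?_⟩
    obtain ⟨γ, δ, hγ, hδ, h1⟩ := hx y.2
    obtain ⟨w, hw⟩ := sym_of_deck D (isDeck_dk hγ hδ)
    exact ⟨_, ⟨_, hw, rfl⟩, mem_univ _, h1⟩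

/-- the model with itself -/
theorem setting_self {T₀ T : X r ≃ₜ X r} (h : Setting S T₀ T) : Setting S T₀ T₀ := by
  refine ⟨h.cover, fun g hg => ?_, fun g hg => ?_⟩
  · obtain ⟨g', hg', h1, -⟩ := h.hom g hg
    exact ⟨g', hg', h1, h1⟩
  · obtain ⟨g', hg', h1⟩ := h.surj g hg
    obtain ⟨g'', hg'', h2, h3⟩ := h.hom g' hg'
    have h4 : g'' = g := by
      funext x
      obtain ⟨y, rfl⟩ := T.surjective x
      exact (congrFun (h3.symm.trans h1) y)
    exact ⟨g', hg', h4 ▸ h2⟩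

end Pool.Agent.ANO5.Lin
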